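import Mathlib

set_option linter.unusedSectionVars false
set_option linter.unusedVariables false
set_option linter.dupNamespace false

namespace Pool.Agent.H.MP_0f8a1e_an

open Filter Topology Set Metric
open scoped RealInnerProductSpace

section j2
variable {F F' : Type*} [NormedAddCommGroup F] [NormedSpace ℝ F] [NormedAddCommGroup F']
  [NormedSpace ℝ F']

def J2 (g : ℝ → F) (a b : F) : Prop :=
  ∃ g' : ℝ → F, (∀ᶠ τ in 𝓝 (0 : ℝ), HasDerivAt g (g' τ) τ) ∧ g' 0 = a ∧ HasDerivAt g' b 0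

variable {g g1 : ℝ → F} {a b a1 b1 : F}

lemma J2.d (h : J2 g a b) : HasDerivAt g a 0 := by
  obtain ⟨g', h1, h2, -⟩ := h
  exact h2 ▸ h1.self_of_nhds

lemma J2.congr (h : J2 g a b) (e : g1 =ᶠ[𝓝 0] g) : J2 g1 a b := by
  obtain ⟨g', h1, h2, h3⟩ := h
  exact ⟨g', (h1.and e.eventuallyEq_nhds).mono fun τ h => h.1.congr_of_eventuallyEq h.2, h2, h3⟩

lemma J2.cast (h : J2 g a b) (e1 : a = a1) (e2 : b = b1) : J2 g a1 b1 := e1 ▸ e2 ▸ h

lemma J2.const (c : F) : J2 (fun _ => c) 0 0 :=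
  ⟨fun _ => 0, .of_forall fun τ => hasDerivAt_const τ c, rfl, hasDerivAt_const _ _⟩

lemma J2.add (h : J2 g a b) (h' : J2 g1 a1 b1) : J2 (fun τ => g τ + g1 τ) (a + a1) (b + b1) := by
  obtain ⟨g', h1, rfl, h3⟩ := h
  obtain ⟨g1', k1, rfl, k3⟩ := h'
  exact ⟨fun τ => g' τ + g1' τ, (h1.and k1).mono fun τ h => h.1.add h.2, rfl, h3.add k3⟩

lemma J2.smul {θ : ℝ → ℝ} {p q : ℝ} (h' : J2 θ p q) (h : J2 g a b) :
    J2 (fun τ => θ τ • g τ) (θ 0 • a + p • g 0) (θ 0 • b + (2 * p) • a + q • g 0) := by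
  have d1 := h.d
  have d2 := h'.d
  obtain ⟨g', h1, rfl, h3⟩ := h
  obtain ⟨θ', k1, rfl, k3⟩ := h'
  refine ⟨fun τ => θ τ • g' τ + θ' τ • g τ, (k1.and h1).mono fun τ h => h.1.smul h.2, rfl,
    ((d2.smul h3).add (k3.smul d1)).congr_deriv ?_⟩
  module

lemma J2.mul {θ g : ℝ → ℝ} {p q a b : ℝ} (h' : J2 θ p q) (h : J2 g a b) :
    J2 (fun τ => θ τ * g τ) (θ 0 * a + p * g 0) (θ 0 * b + 2 * p * a + q * g 0) := h'.smul h

lemma J2.cmul {g : ℝ → ℝ} {a b : ℝ} (h : J2 g a b) (c : ℝ) :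
    J2 (fun τ => c * g τ) (c * a) (c * b) := ((J2.const c).mul h).cast (by simp) (by simp)

lemma J2.line (x v : F) : J2 (fun τ : ℝ => x + τ • v) v 0 :=
  ⟨fun _ => v, .of_forall fun τ => by simpa using ((hasDerivAt_id τ).smul_const v).const_add x, rfl,
    hasDerivAt_const _ _⟩

lemma J2.rev (h : J2 g a b) : J2 (fun τ => g (-τ)) (-a) b := by
  obtain ⟨g', h1, rfl, h3⟩ := h
  have t : Tendsto (fun τ : ℝ => -τ) (𝓝 0) (𝓝 0) := by simpa using continuous_neg.tendsto (0 : ℝ)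
  refine ⟨fun τ => -g' (-τ), (t.eventually h1).mono fun τ h => by
    simpa [Function.comp_def] using h.scomp τ (hasDerivAt_neg τ), by simp, ?_⟩
  have : HasDerivAt g' b (-0) := by rwa [neg_zero]
  simpa [Function.comp_def] using (this.scomp (0 : ℝ) (hasDerivAt_neg 0)).fun_neg

lemma J2.scomp {g ψ ψ' : ℝ → ℝ} {a b c : ℝ} (h : J2 g a b)
    (h1 : ∀ᶠ s in 𝓝 (g 0), HasDerivAt ψ (ψ' s) s) (h2 : HasDerivAt ψ' c (g 0)) :
    J2 (fun τ => ψ (g τ)) (ψ' (g 0) * a) (c * a ^ 2 + ψ' (g 0) * b) := by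
  have d := h.d
  obtain ⟨g', k1, rfl, k3⟩ := h
  refine ⟨fun τ => ψ' (g τ) * g' τ, (k1.and (d.continuousAt.eventually h1)).mono fun τ h =>
    h.2.comp τ h.1, rfl, ((h2.comp 0 d).mul k3).congr_deriv ?_⟩
  simp; ring

lemma J2.comp {w : F → F'} (h : J2 g a b) (hw : ContDiffAt ℝ 2 w (g 0)) :
    J2 (fun τ => w (g τ)) (fderiv ℝ w (g 0) a)
      (fderiv ℝ (fderiv ℝ w) (g 0) a a + fderiv ℝ w (g 0) b) := by
  have d := h.d
  obtain ⟨g', k1, rfl, k3⟩ := h
  have h2 := ((hw.fderiv_right (m := 1) le_rfl).differentiableAt one_ne_zero).hasFDerivAt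
  exact ⟨fun τ => fderiv ℝ w (g τ) (g' τ), (k1.and (d.continuousAt.eventually
    (hw.eventually (by simp)))).mono fun τ h =>
      (h.2.differentiableAt two_ne_zero).hasFDerivAt.comp_hasDerivAt τ h.1, rfl,
    (h2.comp_hasDerivAt 0 d).clm_apply k3⟩

lemma J2.min {g : ℝ → ℝ} {a b : ℝ} (h : J2 g a b) (hm : IsLocalMin g 0) : 0 ≤ b := by
  have d := h.d
  obtain ⟨g', k1, rfl, k3⟩ := h
  by_contra hb
  have e : deriv g =ᶠ[𝓝 0] g' := k1.mono fun τ h => h.deriv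
  have hM := isLocalMax_of_deriv_deriv_neg (f := g) (x₀ := 0) (by
    rw [e.deriv_eq, k3.deriv]; exact not_le.1 hb) hm.deriv_eq_zero d.continuousAt
  have e2 : g =ᶠ[𝓝 0] fun _ => g 0 := (hm.and hM).mono fun τ h => le_antisymm h.2 h.1
  have e3 : g' =ᶠ[𝓝 0] fun _ => 0 := e.symm.trans (e2.deriv.trans (.of_forall fun τ => by simp))
  exact hb ((k3.congr_of_eventuallyEq e3.symm).unique (hasDerivAt_const _ _)).ge

end j2

lemma J2.nsq {F : Type*} [NormedAddCommGroup F] [InnerProductSpace ℝ F] {g : ℝ → F} {a b : F}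
    (h : J2 g a b) (c : F) : J2 (fun τ => ‖g τ - c‖ ^ 2) (2 * ⟪g 0 - c, a⟫)
      (2 * ‖a‖ ^ 2 + 2 * ⟪g 0 - c, b⟫) := by
  have d := h.d
  obtain ⟨g', k1, rfl, k3⟩ := h
  refine ⟨fun τ => 2 * ⟪g τ - c, g' τ⟫, k1.mono fun τ h => (h.sub_const c).norm_sq, rfl,
    (((d.sub_const c).inner ℝ k3).const_mul 2).congr_deriv ?_⟩
  rw [real_inner_self_eq_norm_sq]; ring

abbrev Eu (ι : Type) [Fintype ι] := EuclideanSpace ℝ ι

variable {ι : Type} [Fintype ι] [DecidableEq ι] [Nonempty ι]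

noncomputable def eb (i : ι) : Eu ι := EuclideanSpace.single i 1

variable (ι) in
noncomputable def dd : ℝ := Fintype.card ι

lemma dd1 : 1 ≤ dd ι := Nat.one_le_cast.2 Fintype.card_pos

lemma eb_n (i : ι) : ‖eb i‖ = 1 := by simp [eb]
lemma eb_i (x : Eu ι) (i : ι) : ⟪x, eb i⟫ = x i := by simp [eb, EuclideanSpace.inner_single_right]
lemma sum_sq (x : Eu ι) : ∑ i, x i ^ 2 = ‖x‖ ^ 2 := by simp [EuclideanSpace.norm_sq_eq]
lemma co_le (x : Eu ι) (i : ι) : |x i| ≤ ‖x‖ := PiLp.norm_apply_le x i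
lemma sum_c (c : ℝ) : ∑ _i : ι, c = dd ι * c := by simp [dd]

def Lap (w : Eu ι → ℝ) (x : Eu ι) (L : ℝ) : Prop :=
  ∃ a b : ι → ℝ, (∀ i, J2 (fun τ : ℝ => w (x + τ • eb i)) (a i) (b i)) ∧ ∑ i, b i = L

noncomputable def lap (w : Eu ι → ℝ) (x : Eu ι) : ℝ :=
  ∑ i, fderiv ℝ (fderiv ℝ w) x (eb i) (eb i)

variable {w w1 : Eu ι → ℝ} {x : Eu ι} {L L1 : ℝ}

lemma Lap.of (h : ContDiffAt ℝ 2 w x) : Lap w x (lap w x) :=
  ⟨_, _, fun i => (J2.line x (eb i)).comp (by simpa using h), by simp [lap]⟩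

lemma Lap.cast (h : Lap w x L) (e : L = L1) : Lap w x L1 := e ▸ h

lemma Lap.add (h : Lap w x L) (h' : Lap w1 x L1) : Lap (fun y => w y + w1 y) x (L + L1) := by
  obtain ⟨a, b, h1, rfl⟩ := h
  obtain ⟨a1, b1, k1, rfl⟩ := h'
  exact ⟨_, _, fun i => (h1 i).add (k1 i), Finset.sum_add_distrib⟩

lemma Lap.cmul (h : Lap w x L) (c : ℝ) : Lap (fun y => c * w y) x (c * L) := by
  obtain ⟨a, b, h1, rfl⟩ := h
  exact ⟨_, _, fun i => (h1 i).cmul c, (Finset.mul_sum _ _ _).symm⟩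

lemma Lap.sub (h : Lap w x L) (h' : Lap w1 x L1) : Lap (fun y => w y - w1 y) x (L - L1) := by
  simpa [sub_eq_add_neg] using h.add (h'.cmul (-1))

lemma Lap.const (c : ℝ) (x : Eu ι) : Lap (fun _ => c) x 0 := ⟨_, _, fun i => J2.const c, by simp⟩

lemma line_t (x v : Eu ι) : Tendsto (fun τ : ℝ => x + τ • v) (𝓝 0) (𝓝 x) := by
  simpa using (J2.line x v).d.continuousAt.tendsto

lemma Lap.congr (h : Lap w x L) (e : w1 =ᶠ[𝓝 x] w) : Lap w1 x L := by
  obtain ⟨a, b, h1, rfl⟩ := h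
  exact ⟨_, _, fun i => (h1 i).congr ((line_t x _).eventually e), rfl⟩

lemma Lap.min (h : Lap w x L) (hm : IsLocalMin w x) : 0 ≤ L := by
  obtain ⟨a, b, h1, rfl⟩ := h
  exact Finset.sum_nonneg fun i _ => (h1 i).min (by
    simpa [IsLocalMin, IsMinFilter] using (line_t x (eb i)).eventually hm)

lemma Lap.rad {ψ ψ' : ℝ → ℝ} {c2 : ℝ} (c x : Eu ι)
    (h1 : ∀ᶠ s in 𝓝 (‖x - c‖ ^ 2), HasDerivAt ψ (ψ' s) s) (h2 : HasDerivAt ψ' c2 (‖x - c‖ ^ 2)) :
    Lap (fun y => ψ (‖y - c‖ ^ 2)) x (4 * c2 * ‖x - c‖ ^ 2 + 2 * dd ι * ψ' (‖x - c‖ ^ 2)) := by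
  refine ⟨_, _, fun i => ((J2.line x (eb i)).nsq c).scomp (by simpa using h1) (by simpa using h2),
    ?_⟩
  simp only [zero_smul, add_zero, eb_i, eb_n, inner_zero_right, Finset.sum_add_distrib, sum_c,
    mul_pow, ← Finset.mul_sum, sum_sq]
  ring

lemma Lap.nsq (c x : Eu ι) : Lap (fun y => ‖y - c‖ ^ 2) x (2 * dd ι) :=
  (Lap.rad (ψ := id) (ψ' := fun _ => 1) c x (.of_forall hasDerivAt_id)
    (hasDerivAt_const _ _)).cast (by simp)

lemma Lap.coord {ψ ψ' : ℝ → ℝ} {c2 : ℝ} (x : Eu ι) (j : ι)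
    (h1 : ∀ᶠ s in 𝓝 (x j), HasDerivAt ψ (ψ' s) s) (h2 : HasDerivAt ψ' c2 (x j)) :
    Lap (fun y => ψ (y j)) x c2 := by
  refine ⟨_, _, fun i => (J2.line (x j) (eb i j)).scomp (by simpa using h1) (by simpa using h2), ?_⟩
  simp [eb]

lemma Lap.shift {h : Eu ι} (H : Lap w (x + h) L) : Lap (fun y => w (y + h)) x L := by
  simpa only [Lap, add_right_comm x h] using H

noncomputable def rf (j : ι) (c : ℝ) (y : Eu ι) : Eu ι := y - (2 * (y j - c)) • eb j

lemma Lap.refl {j : ι} {c : ℝ} (H : Lap w (rf j c x) L) : Lap (fun y => w (rf j c y)) x L := by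
  obtain ⟨a, b, h1, rfl⟩ := H
  refine ⟨fun i => if i = j then -a i else a i, b, fun i => ?_, rfl⟩
  simp only
  split_ifs with h
  · subst h
    convert (h1 i).rev using 3
    simp only [rf, PiLp.add_apply, PiLp.smul_apply, eb, PiLp.single_apply, if_true, smul_eq_mul]
    module
  · convert h1 i using 3
    simp only [rf, PiLp.add_apply, PiLp.smul_apply, eb, PiLp.single_apply, if_neg (Ne.symm h),
      smul_eq_mul]
    module

lemma mp0 {K : Set (Eu ι)} (hK : IsCompact K) {W : Eu ι → ℝ} (hc : ContinuousOn W K)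
    (h : ∀ x ∈ K, W x < 0 → K ∈ 𝓝 x ∧ ∃ L ≤ 0, Lap W x L) : ∀ x ∈ K, 0 ≤ W x := by
  intro x1 h1
  by_contra h2
  have h2 := not_le.1 h2
  obtain ⟨R, hR⟩ := hK.exists_bound_of_continuousOn (f := fun y => ‖y - x1‖ ^ 2) (by fun_prop)
  have R0 : 0 ≤ R := (norm_nonneg _).trans (hR x1 h1)
  obtain ⟨ε, ε0, ε1⟩ : ∃ ε > 0, ε * R < -W x1 := ⟨-W x1 / (R + 1), div_pos (by linarith) (by linarith),
    by rw [div_mul_eq_mul_div, div_lt_iff₀ (by linarith)]; linarith⟩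
  obtain ⟨x2, k1, k2⟩ := hK.exists_isMinOn ⟨x1, h1⟩ (f := fun y => W y - ε * ‖y - x1‖ ^ 2)
    (hc.sub (by fun_prop))
  have k3 := k2 h1
  have k4 := mul_le_mul_of_nonneg_left ((le_abs_self _).trans (hR x2 k1)) ε0.le
  simp only [mem_ofPred_eq, sub_self, norm_zero] at k3
  obtain ⟨k5, L, k6, k7⟩ := h x2 k1 (by nlinarith)
  have := (k7.sub ((Lap.nsq x1 x2).cmul ε)).min (k2.isLocalMin k5)
  nlinarith [dd1 (ι := ι)]

lemma oy {K : Set (Eu ι)} (hK : IsClosed K) {W : Eu ι → ℝ} (hc : ContinuousOn W K) {B : ℝ}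
    (hB : ∀ x ∈ K, B ≤ W x) {x1 : Eu ι} (h1 : x1 ∈ K) {κ : ℝ} (κ0 : 0 < κ)
    (h : ∀ x ∈ K, W x ≤ W x1 → K ∈ 𝓝 x ∧ ∃ L ≤ -κ, Lap W x L) : False := by
  have d1 := dd1 (ι := ι)
  obtain ⟨ε, ε0, ε1⟩ : ∃ ε > 0, ε * (2 * dd ι) < κ := ⟨κ / (4 * dd ι), by positivity,
    by rw [div_mul_eq_mul_div, div_lt_iff₀ (by linarith)]; nlinarith⟩
  have t : Tendsto (fun y : Eu ι => ε * ‖y - x1‖ ^ 2) (cocompact _) atTop :=
    ((tendsto_pow_atTop two_ne_zero).comp (by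
      simpa only [dist_eq_norm] using tendsto_dist_right_cocompact_atTop x1)).const_mul_atTop ε0
  obtain ⟨x2, k1, k2⟩ := ContinuousOn.exists_isMinOn' (f := fun y => W y + ε * ‖y - x1‖ ^ 2)
    (hc.add (by fun_prop)) hK h1 (eventually_inf_principal.2
      ((t.eventually_ge_atTop (W x1 - B)).mono fun y hy hy' => by
        simp only [sub_self, norm_zero]; nlinarith [hB y hy']))
  have k3 := k2 h1
  simp only [mem_ofPred_eq, sub_self, norm_zero] at k3
  obtain ⟨k5, L, k6, k7⟩ := h x2 k1 (by nlinarith [mul_nonneg ε0.le (sq_nonneg ‖x2 - x1‖)])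
  have := (k7.add ((Lap.nsq x1 x2).cmul ε)).min (k2.isLocalMin k5)
  linarith

lemma rf_n (j : ι) (x y : Eu ι) : ‖rf j (x j) y - x‖ = ‖y - x‖ := by
  refine (sq_eq_sq₀ (norm_nonneg _) (norm_nonneg _)).1 ?_
  rw [rf, sub_right_comm, norm_sub_sq_real, real_inner_smul_right, eb_i, norm_smul, eb_n,
    Real.norm_eq_abs, mul_one, sq_abs, PiLp.sub_apply]
  ring

lemma gb_dir {ρ M N : ℝ} (hρ : 0 < ρ) (hc : ContinuousOn w (closedBall x ρ))
    (hL : ∀ y ∈ ball x ρ, ∃ L, Lap w y L ∧ |L| ≤ N) (hM : ∀ y ∈ closedBall x ρ, |w y| ≤ M)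
    {D : Eu ι →L[ℝ] ℝ} (hD : HasFDerivAt w D x) (j : ι) : D (eb j) ≤ dd ι * M / ρ + N * ρ / 2 := by
  have d1 := dd1 (ι := ι)
  have M0 : 0 ≤ M := (abs_nonneg _).trans (hM x (mem_closedBall_self hρ.le))
  have N0 : 0 ≤ N := by
    obtain ⟨L, -, h⟩ := hL x (mem_ball_self hρ); exact (abs_nonneg _).trans h
  set A := M / ρ ^ 2 * dd ι + N / 2 with hA
  have A0 : 0 ≤ A := by positivity
  have σm : ∀ y ∈ closedBall x ρ, rf j (x j) y ∈ closedBall x ρ := fun y hy => by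
    rwa [mem_closedBall_iff_norm, rf_n, ← mem_closedBall_iff_norm]
  have hK : IsCompact (closedBall x ρ ∩ {y | x j ≤ y j}) :=
    (isCompact_closedBall x ρ).inter_right (isClosed_le continuous_const (by fun_prop))
  have key := mp0 hK (W := fun y => M / ρ ^ 2 * ‖y - x‖ ^ 2 + A * ((y j - x j) * (ρ - (y j - x j)))
    - 1 / 2 * (w y - w (rf j (x j) y))) ((Continuous.continuousOn (by fun_prop)).sub
      (continuousOn_const.mul ((hc.mono inter_subset_left).sub (hc.comp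
        (Continuous.continuousOn (by unfold rf; fun_prop)) fun y hy => σm y hy.1)))) fun y hy h0 => by
      have t0 : 0 ≤ y j - x j := sub_nonneg.2 hy.2
      have t1 : y j - x j ≤ ρ := (le_abs_self _).trans ((co_le (y - x) j).trans
        (mem_closedBall_iff_norm.1 hy.1))
      have t2 := mul_nonneg A0 (mul_nonneg t0 (sub_nonneg.2 t1))
      have y1 : x j < y j := lt_of_le_of_ne hy.2 fun e => by
        simp only [rf, ← e, sub_self, mul_zero, zero_smul, sub_zero, zero_mul, add_zero] at h0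
        exact absurd h0 (not_lt.2 (by positivity))
      have y2 : y ∈ ball x ρ := mem_ball_iff_norm.2 (lt_of_le_of_ne (mem_closedBall_iff_norm.1 hy.1)
        fun e => by
          rw [e, div_mul_cancel₀ _ (by positivity)] at h0
          linarith [abs_le.1 (hM y hy.1), abs_le.1 (hM _ (σm y hy.1))])
      obtain ⟨L1, a1, a2⟩ := hL y y2
      obtain ⟨L2, b1, b2⟩ := hL (rf j (x j) y) (by rwa [mem_ball_iff_norm, rf_n, ← mem_ball_iff_norm])
      refine ⟨inter_mem (mem_of_superset (isOpen_ball.mem_nhds y2) ball_subset_closedBall)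
        (mem_of_superset ((isOpen_lt (f := fun _ => x j) (g := fun z : Eu ι => z j) continuous_const
          (by fun_prop)).mem_nhds y1) fun z hz => (le_of_lt hz : x j ≤ z j)), _, ?_, (((Lap.nsq x y).cmul _).add ((Lap.coord
            (ψ := fun s => (s - x j) * (ρ - (s - x j))) (ψ' := fun s => ρ - 2 * (s - x j))
            (c2 := -2) y j (.of_forall fun s => ?_) ?_).cmul A)).sub ((a1.sub b1.refl).cmul _)⟩
      · rw [hA]; linarith [abs_le.1 a2, abs_le.1 b2]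
      · exact (((hasDerivAt_id s).sub_const _).mul (((hasDerivAt_id s).sub_const _).const_sub
          _)).congr_deriv (by simp; ring)
      · exact ((((hasDerivAt_id _).sub_const _).const_mul 2).const_sub _).congr_deriv (by simp)
  have l1 := hD.comp_hasDerivAt_of_eq (0 : ℝ) (J2.line x (eb j)).d (by simp)
  have l2 := hD.comp_hasDerivAt_of_eq (0 : ℝ) (J2.line x (-eb j)).d (by simp)
  have l3 := (((hasDerivAt_pow 2 (0 : ℝ)).const_mul (M / ρ ^ 2)).add (((hasDerivAt_id (0 : ℝ)).mul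
    ((hasDerivAt_id (0 : ℝ)).const_sub ρ)).const_mul A)).sub ((l1.sub l2).const_mul (1 / 2))
  have l4 := ge_of_tendsto l3.tendsto_slope_zero_right (b := 0) (by
    filter_upwards [Ioo_mem_nhdsGT hρ] with τ hτ
    have := key (x + τ • eb j) ⟨by
      rw [mem_closedBall_iff_norm, add_sub_cancel_left, norm_smul, eb_n, Real.norm_of_nonneg hτ.1.le]
      linarith [hτ.2], by simpa [eb] using hτ.1.le⟩
    have e : rf j (x j) (x + τ • eb j) = x + τ • -eb j := by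
      simp only [rf, PiLp.add_apply, PiLp.smul_apply, eb, PiLp.single_apply, if_true, smul_eq_mul]
      module
    rw [e, add_sub_cancel_left, norm_smul, eb_n, Real.norm_of_nonneg hτ.1.le] at this
    refine smul_nonneg (inv_nonneg.2 hτ.1.le) ?_
    simpa [eb] using this)
  have e : A * ρ = dd ι * M / ρ + N * ρ / 2 := by rw [hA]; field_simp
  simp at l4
  linarith

lemma op_le {D : Eu ι →L[ℝ] ℝ} {C : ℝ} (h : ∀ j, |D (eb j)| ≤ C) : ‖D‖ ≤ dd ι * C := by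
  have C0 : 0 ≤ C := (abs_nonneg _).trans (h (Classical.arbitrary ι))
  refine D.opNorm_le_bound (mul_nonneg (by linarith [dd1 (ι := ι)]) C0) fun v => ?_
  have e : v = ∑ j, v j • eb j := by simpa [eb] using ((EuclideanSpace.basisFun ι ℝ).sum_repr v).symm
  conv_lhs => rw [e, map_sum]
  rw [mul_assoc, ← sum_c]
  refine (norm_sum_le _ _).trans (Finset.sum_le_sum fun j _ => ?_)
  rw [map_smul, norm_smul, mul_comm]
  exact mul_le_mul (h j) (co_le v j) (norm_nonneg _) C0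

theorem gb {ρ M N : ℝ} (hρ : 0 < ρ) (hc : ContinuousOn w (closedBall x ρ))
    (hL : ∀ y ∈ ball x ρ, ∃ L, Lap w y L ∧ |L| ≤ N) (hM : ∀ y ∈ closedBall x ρ, |w y| ≤ M)
    {D : Eu ι →L[ℝ] ℝ} (hD : HasFDerivAt w D x) : ‖D‖ ≤ dd ι * (dd ι * M / ρ + N * ρ / 2) :=
  op_le fun j => abs_le.2 ⟨by
    have := gb_dir (w := fun y => -1 * w y) (N := N) (M := M) hρ (continuousOn_const.mul hc)
      (fun y hy => by
        obtain ⟨L, h1, h2⟩ := hL y hy
        exact ⟨_, h1.cmul _, by simpa using h2⟩) (fun y hy => by simpa using hM y hy)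
      (hD.const_mul (-1)) j
    simp at this
    linarith, gb_dir hρ hc hL hM hD j⟩

theorem hb {ρ G N : ℝ} (hρ : 0 < ρ) (hc : ∀ y ∈ closedBall x ρ, ContDiffAt ℝ 2 w y)
    (hG : ∀ y ∈ closedBall x ρ, ‖fderiv ℝ w y‖ ≤ G)
    (hN : ∀ y ∈ closedBall x ρ, ∀ y' ∈ closedBall x ρ, |lap w y - lap w y'| ≤ N * ‖y - y'‖)
    (N0 : 0 ≤ N) : ‖fderiv ℝ (fderiv ℝ w) x‖ ≤ dd ι * (dd ι * G / (ρ / 2) + N * (ρ / 2) / 2) := by
  have d1 := dd1 (ι := ι)
  have x0 := mem_closedBall_self (x := x) hρ.le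
  have G0 : 0 ≤ G := (norm_nonneg _).trans (hG x x0)
  have df : ∀ y ∈ closedBall x ρ, DifferentiableAt ℝ w y := fun y hy =>
    (hc y hy).differentiableAt two_ne_zero
  refine (((hc x x0).fderiv_right (m := 1) le_rfl).differentiableAt one_ne_zero).hasFDerivAt.le_of_lip'
    (by positivity) ?_
  filter_upwards [closedBall_mem_nhds x (half_pos hρ)] with z hz
  obtain ⟨h, rfl⟩ : ∃ h, z = x + h := ⟨z - x, by simp⟩
  rw [mem_closedBall_iff_norm, add_sub_cancel_left] at hz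
  have s1 : closedBall x (ρ / 2) ⊆ closedBall x ρ := closedBall_subset_closedBall (by linarith)
  have s2 : ∀ y ∈ closedBall x (ρ / 2), y + h ∈ closedBall x ρ := fun y hy => by
    rw [mem_closedBall_iff_norm] at hy ⊢
    rw [add_sub_right_comm]; exact (norm_add_le _ _).trans (by linarith)
  have := gb (w := fun y => w (y + h) - w y) (M := G * ‖h‖) (N := N * ‖h‖) (half_pos hρ)
    (fun y hy => (((df _ (s2 y hy)).continuousAt.comp (f := fun y => y + h)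
      (by fun_prop)).sub (df _ (s1 hy)).continuousAt).continuousWithinAt)
    (fun y hy => ⟨_, (Lap.of (hc _ (s2 y (ball_subset_closedBall hy)))).shift.sub
      (Lap.of (hc _ (s1 (ball_subset_closedBall hy)))), by
      simpa using hN _ (s2 y (ball_subset_closedBall hy)) _ (s1 (ball_subset_closedBall hy))⟩)
    (fun y hy => by
      simpa using (convex_closedBall x ρ).norm_image_sub_le_of_norm_fderiv_le df hG (s1 hy) (s2 y hy))
    (((df _ (s2 x (mem_closedBall_self (half_pos hρ).le))).hasFDerivAt.comp x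
      ((hasFDerivAt_id x).add_const h)).sub (df x x0).hasFDerivAt)
  rw [add_sub_cancel_left]
  refine le_of_eq_of_le (by simp) (this.trans_eq (by ring))

end Pool.Agent.H.MP_0f8a1e_an
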