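import Pool.Agent.H.MP_0f8a1e_an.A

set_option linter.unusedSectionVars false
set_option linter.unusedVariables false
set_option linter.dupNamespace false

namespace Pool.Agent.H.MP_0f8a1e_an

open Filter Topology Set Metric
open scoped RealInnerProductSpace

variable {ι : Type} [Fintype ι] [DecidableEq ι] [Nonempty ι]

lemma pw_d (a : ℝ) (m : ℕ) {q : ℝ} (hq : q ≠ 0) :
    HasDerivAt (fun q => (a / q) ^ m) (-m * (a / q) ^ m / q) q := by
  cases m with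
  | zero => simpa using hasDerivAt_const q (1 : ℝ)
  | succ k =>
    refine (((hasDerivAt_const q a).div (hasDerivAt_id q) hq).pow (k + 1)).congr_deriv ?_
    simp only [Pi.div_apply, id, Nat.add_sub_cancel, pow_succ (a / q)]
    field_simp; ring

lemma Lap.pw (a : ℝ) {c x : Eu ι} (h : 0 < ‖x - c‖) :
    Lap (fun y => (a / ‖y - c‖ ^ 2) ^ Fintype.card ι) x
      ((2 * dd ι ^ 2 + 4 * dd ι) * (a / ‖x - c‖ ^ 2) ^ Fintype.card ι / ‖x - c‖ ^ 2) := by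
  have hq : ‖x - c‖ ^ 2 ≠ 0 := by positivity
  refine (Lap.rad (ψ := fun q => (a / q) ^ Fintype.card ι)
    (ψ' := fun q => -(Fintype.card ι) * (a / q) ^ Fintype.card ι / q) c x
    ((eventually_ne_nhds hq).mono fun s hs => pw_d a _ hs)
    (((pw_d a _ hq).const_mul _).div (hasDerivAt_id _) hq)).cast ?_
  simp only [dd]; field_simp; ring

def SH (v : Eu ι → ℝ) (c : Eu ι) (r : ℝ) : Prop := ContinuousOn v (closedBall c r) ∧
  (∀ y ∈ closedBall c r, 0 ≤ v y) ∧ ∀ y ∈ ball c r, ∃ L ≤ 0, Lap v y L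

variable {v w : Eu ι → ℝ} {c x y : Eu ι} {r : ℝ}

lemma SH.mono (h : SH v c r) {ρ : ℝ} (hρ : ρ + dist y c ≤ r) : SH v y ρ :=
  ⟨h.1.mono (closedBall_subset_closedBall' hρ), fun z hz => h.2.1 z
    (closedBall_subset_closedBall' hρ hz), fun z hz => h.2.2 z (ball_subset_ball' hρ hz)⟩

lemma SH.grow (h : SH v c r) {ρ1 ρ3 a : ℝ} (h1 : 0 < ρ1) (h3 : ρ1 ≤ ρ3) (h4 : ρ3 ≤ r) (a0 : 0 ≤ a)
    (ha : ∀ z ∈ closedBall c ρ1, a ≤ v z) : ∀ z ∈ closedBall c ρ3,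
      a * ((ρ1 ^ 2 / ρ3 ^ 2) ^ Fintype.card ι - (ρ1 ^ 2 / r ^ 2) ^ Fintype.card ι) ≤ v z := by
  have d1 := dd1 (ι := ι)
  have r0 : 0 < r := by linarith
  have one : ∀ s, ρ1 ≤ s → (ρ1 ^ 2 / s ^ 2) ^ Fintype.card ι ≤ 1 := fun s hs =>
    pow_le_one₀ (by positivity) (div_le_one_of_le₀ (pow_le_pow_left₀ h1.le hs 2) (sq_nonneg _))
  have p0 : 0 ≤ (ρ1 ^ 2 / r ^ 2) ^ Fintype.card ι := by positivity
  have key := mp0 ((isCompact_closedBall c r).diff (isOpen_ball (x := c) (ε := ρ1)))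
    (W := fun y => v y - a * ((ρ1 ^ 2 / ‖y - c‖ ^ 2) ^ Fintype.card ι -
      (ρ1 ^ 2 / r ^ 2) ^ Fintype.card ι)) ((h.1.mono sdiff_subset).sub (continuousOn_const.mul
        (((continuousOn_const.div (by fun_prop) fun y hy => (pow_pos (h1.trans_le (by
          simpa [dist_eq_norm] using hy.2)) 2).ne').pow _).sub continuousOn_const))) fun y hy h0 => by
    have y0 : ρ1 ≤ ‖y - c‖ := by simpa [dist_eq_norm] using hy.2
    have y1 : ρ1 < ‖y - c‖ := lt_of_le_of_ne y0 fun e => by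
      have := ha y (mem_closedBall_iff_norm.2 e.ge)
      nlinarith [mul_le_mul_of_nonneg_left (one _ y0) a0, mul_nonneg a0 p0]
    have y2 : y ∈ ball c r := mem_ball_iff_norm.2 (lt_of_le_of_ne (mem_closedBall_iff_norm.1 hy.1)
      fun e => by rw [e, sub_self, mul_zero, sub_zero] at h0; exact absurd (h.2.1 y hy.1) (not_le.2 h0))
    obtain ⟨L, l1, l2⟩ := h.2.2 y y2
    refine ⟨mem_of_superset ((isOpen_ball.inter isClosed_closedBall.isOpen_compl).mem_nhds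
      ⟨y2, fun h' => absurd (mem_closedBall_iff_norm.1 h') (not_le.2 y1)⟩) fun z hz =>
        ⟨ball_subset_closedBall hz.1, fun h' => hz.2 (ball_subset_closedBall h')⟩, _, ?_,
      l2.sub (((Lap.pw _ (h1.trans y1)).sub (Lap.const _ _)).cmul a)⟩
    rw [sub_zero]
    exact sub_nonpos.2 (l1.trans (by positivity))
  intro z hz
  rcases le_total ‖z - c‖ ρ1 with h5 | h5
  · nlinarith [ha z (mem_closedBall_iff_norm.2 h5), mul_le_mul_of_nonneg_left (one _ h3) a0,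
      mul_nonneg a0 p0]
  · have := key z ⟨closedBall_subset_closedBall h4 hz, by simpa [dist_eq_norm] using h5⟩
    have h6 : (ρ1 ^ 2 / ρ3 ^ 2) ^ Fintype.card ι ≤ (ρ1 ^ 2 / ‖z - c‖ ^ 2) ^ Fintype.card ι :=
      pow_le_pow_left₀ (by positivity) (div_le_div_of_nonneg_left (sq_nonneg _)
        (pow_pos (h1.trans_le h5) 2) (pow_le_pow_left₀ (norm_nonneg _)
          (mem_closedBall_iff_norm.1 hz) 2)) _
    nlinarith [mul_le_mul_of_nonneg_left h6 a0]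

lemma gpos {a b c : ℝ} (ha : 0 < a) (hb : 0 < b) (hc : b < c) :
    0 < (a ^ 2 / b ^ 2) ^ Fintype.card ι - (a ^ 2 / c ^ 2) ^ Fintype.card ι :=
  sub_pos.2 (pow_lt_pow_left₀ (div_lt_div_of_pos_left (by positivity) (by positivity)
    (pow_lt_pow_left₀ hc hb.le two_ne_zero)) (by positivity) Fintype.card_ne_zero)

variable (ι) in
lemma chain : ∃ c1 > 0, ∃ p : ℕ, ∀ (v : Eu ι → ℝ) c r, SH v c r → ∀ y σ a, 0 < σ → 0 ≤ a →
    4 * σ + dist y c ≤ r → (∀ z ∈ closedBall y σ, a ≤ v z) →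
    ∀ z ∈ closedBall c (2 * r / 5), c1 * a * (σ / r) ^ p ≤ v z := by
  obtain ⟨c1, hc⟩ : ∃ c1 : ℝ, c1 = (1 ^ 2 / 3 ^ 2) ^ Fintype.card ι - (1 ^ 2 / 4 ^ 2) ^
    Fintype.card ι := ⟨_, rfl⟩
  have c0 : 0 < c1 := hc ▸ gpos one_pos (by norm_num) (by norm_num)
  obtain ⟨p, hp⟩ := pow_unbounded_of_one_lt c1⁻¹ (show (1 : ℝ) < 5 / 4 by norm_num)
  rw [inv_lt_iff_one_lt_mul₀' c0] at hp
  refine ⟨c1, c0, p, fun v c r h y σ a σ0 => ?_⟩
  obtain ⟨k, hk⟩ := pow_unbounded_of_one_lt (r / (5 * σ)) (show (1 : ℝ) < 5 / 4 by norm_num)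
  rw [div_lt_iff₀' (by positivity)] at hk
  have st : ∀ y σ a, 0 < σ → 0 ≤ a → 4 * σ + dist y c ≤ r → (∀ z ∈ closedBall y σ, a ≤ v z) →
      ∀ z ∈ closedBall y (3 * σ), c1 * a ≤ v z := fun y σ a σ0 a0 h1 h2 z hz => by
    have := (h.mono h1).grow σ0 (by linarith) (by linarith : 3 * σ ≤ 4 * σ) a0 h2 z hz
    rwa [show σ ^ 2 / (3 * σ) ^ 2 = 1 ^ 2 / 3 ^ 2 by field_simp,
      show σ ^ 2 / (4 * σ) ^ 2 = 1 ^ 2 / 4 ^ 2 by field_simp, ← hc, mul_comm] at this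
  have base : ∀ y σ a, 0 < σ → r ≤ 5 * σ → 0 ≤ a → 4 * σ + dist y c ≤ r →
      (∀ z ∈ closedBall y σ, a ≤ v z) →
      ∀ z ∈ closedBall c (2 * r / 5), c1 * a * (σ / r) ^ p ≤ v z :=
    fun y σ a σ0 h0 a0 h1 h2 z hz => by
    have := dist_nonneg (x := y) (y := c)
    refine (mul_le_of_le_one_right (by positivity) (pow_le_one₀ (div_nonneg σ0.le (by linarith))
      (div_le_one_of_le₀ (by linarith) (by linarith)))).trans (st y σ a σ0 a0 h1 h2 z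
        (closedBall_subset_closedBall' (by rw [dist_comm]; linarith) hz))
  induction k generalizing y σ a with
  | zero => exact base y σ a σ0 (by linarith)
  | succ k ih =>
    rcases le_total r (5 * σ) with h0 | h0
    · exact base y σ a σ0 h0
    intro a0 h1 h2 z hz
    obtain ⟨y', k1, k2⟩ := exists_dist_le_le σ0.le (sub_nonneg.2 h0) (show dist y c ≤ _ by linarith)
    refine le_trans ?_ (ih y' (5 / 4 * σ) (c1 * a) (by linarith) (by rw [pow_succ] at hk; linarith)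
      (by positivity) (by linarith) (fun z hz => st y σ a σ0 a0 h1 h2 z
        (closedBall_subset_closedBall' (by rw [dist_comm]; linarith) hz)) z hz)
    have r0 : 0 < r := by linarith
    rw [mul_div_assoc, mul_pow]
    nlinarith [mul_le_mul_of_nonneg_left hp.le (show 0 ≤ c1 * a * (σ / r) ^ p by positivity)]

lemma bd {S : Set (Eu ι)} (hS : IsClosed S) (hc : ContinuousOn w S) {ρ η M N : ℝ} (ρ0 : 0 < ρ)
    (ρ1 : ρ ≤ 1) (M0 : 0 ≤ M) (N0 : 0 ≤ N) (h0 : ∀ x ∈ S, ρ ≤ ‖x - c‖)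
    (h1 : ∀ x ∈ S ∩ closedBall c (2 * ρ), w x ≤ η + M)
    (h2 : ∀ x ∈ S ∩ closedBall c (2 * ρ), η < w x → S ∈ 𝓝 x ∧ ∃ L, Lap w x L ∧ -L ≤ N * M) :
    ∀ x ∈ S ∩ closedBall c (2 * ρ), w x ≤ η + (2 + N * 4 ^ (Fintype.card ι + 1)) * M *
      (dd ι * ((‖x - c‖ ^ 2 - ρ ^ 2) / ρ ^ 2)) := by
  have d1 := dd1 (ι := ι)
  set A := 2 + N * 4 ^ (Fintype.card ι + 1) with hA
  have A2 : 2 ≤ A := le_add_of_nonneg_right (by positivity)
  have AM : 0 ≤ A * M := by positivity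
  have key := mp0 ((isCompact_closedBall c (2 * ρ)).inter_left hS)
    (W := fun y => η + A * M * (1 - (ρ ^ 2 / ‖y - c‖ ^ 2) ^ Fintype.card ι) - w y)
    ((continuousOn_const.add (continuousOn_const.mul (continuousOn_const.sub
      ((continuousOn_const.div (by fun_prop) fun y hy => (pow_pos (ρ0.trans_le (h0 y hy.1)) 2).ne').pow
        _)))).sub (hc.mono inter_subset_left)) fun y hy k0 => by
    have y0 := h0 y hy.1
    have y1 := mem_closedBall_iff_norm.1 hy.2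
    have y2 : 0 < ‖y - c‖ := by linarith
    have t1 : (ρ ^ 2 / ‖y - c‖ ^ 2) ^ Fintype.card ι ≤ 1 := pow_le_one₀ (by positivity)
      (div_le_one_of_le₀ (pow_le_pow_left₀ ρ0.le y0 2) (sq_nonneg _))
    obtain ⟨k1, L, k2, k3⟩ := h2 y hy (by nlinarith [mul_nonneg AM (sub_nonneg.2 t1)])
    have y3 : y ∈ ball c (2 * ρ) := mem_ball_iff_norm.2 (lt_of_le_of_ne y1 fun e => by
      rw [e, show ρ ^ 2 / (2 * ρ) ^ 2 = 1 / 4 by field_simp; norm_num] at k0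
      have := pow_le_of_le_one (by norm_num : (0 : ℝ) ≤ 1 / 4) (by norm_num)
        (Fintype.card_ne_zero (α := ι))
      nlinarith [h1 y hy, mul_le_mul_of_nonneg_left this AM, mul_le_mul_of_nonneg_right A2 M0])
    refine ⟨inter_mem k1 (mem_of_superset (isOpen_ball.mem_nhds y3) ball_subset_closedBall), _, ?_,
      ((Lap.const η y).add (((Lap.const 1 y).sub (Lap.pw _ y2)).cmul _)).sub k2⟩
    have q4 : ‖y - c‖ ^ 2 ≤ 4 * ρ ^ 2 := by nlinarith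
    have t2 : (1 / 4) ^ Fintype.card ι ≤ (ρ ^ 2 / ‖y - c‖ ^ 2) ^ Fintype.card ι :=
      pow_le_pow_left₀ (by norm_num) (by rw [div_le_div_iff₀ (by norm_num) (by positivity)]; linarith) _
    have t3 : (1 / 4) ^ Fintype.card ι / 4 ≤ (2 * dd ι ^ 2 + 4 * dd ι) *
        (ρ ^ 2 / ‖y - c‖ ^ 2) ^ Fintype.card ι / ‖y - c‖ ^ 2 :=
      div_le_div₀ (by positivity) (t2.trans (le_mul_of_one_le_left (by positivity) (by nlinarith)))
        (by positivity) (by nlinarith)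
    have t4 : N ≤ A * ((1 / 4) ^ Fintype.card ι / 4) := by
      have : (4 : ℝ) ^ (Fintype.card ι + 1) * ((1 / 4) ^ Fintype.card ι / 4) = 1 := by
        rw [one_div, inv_pow, pow_succ]; field_simp
      rw [hA, add_mul, mul_assoc, this, mul_one]
      exact le_add_of_nonneg_left (by positivity)
    nlinarith [mul_le_mul_of_nonneg_left t3 AM, mul_le_mul_of_nonneg_right t4 M0]
  intro x hx
  have y0 := h0 x hx.1
  have y2 : 0 < ‖x - c‖ := by linarith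
  have b := one_add_mul_le_pow (a := ρ ^ 2 / ‖x - c‖ ^ 2 - 1)
    (by linarith [show 0 ≤ ρ ^ 2 / ‖x - c‖ ^ 2 by positivity]) (Fintype.card ι)
  rw [add_sub_cancel] at b
  have b2 : 1 - ρ ^ 2 / ‖x - c‖ ^ 2 ≤ (‖x - c‖ ^ 2 - ρ ^ 2) / ρ ^ 2 := by
    rw [one_sub_div (by positivity)]
    have := pow_le_pow_left₀ ρ0.le y0 2
    exact div_le_div_of_nonneg_left (by linarith) (by positivity) this
  have b3 : 1 - (ρ ^ 2 / ‖x - c‖ ^ 2) ^ Fintype.card ι ≤ dd ι * ((‖x - c‖ ^ 2 - ρ ^ 2) / ρ ^ 2) := by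
    have := mul_le_mul_of_nonneg_left b2 (show 0 ≤ dd ι by linarith)
    simp only [dd] at *; linarith
  linarith [key x hx, mul_le_mul_of_nonneg_left b3 AM]

variable (ι) in
lemma bump {l : ℝ} (hl : 0 < l) : ∃ R > 0, ∀ y x : Eu ι, ∃ L,
    Lap (fun z => (1 - ‖z - y‖ ^ 2 / R ^ 2) ^ 2) x L ∧ -L < l * (1 - ‖x - y‖ ^ 2 / R ^ 2) ^ 2 := by
  have d1 := dd1 (ι := ι)
  have s0 := Real.sqrt_pos.2 hl
  refine ⟨(4 * dd ι + 8) / Real.sqrt l, by positivity, fun y x => ?_⟩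
  set R := (4 * dd ι + 8) / Real.sqrt l with hR
  have R0 : 0 < R := by positivity
  have R1 : l * R ^ 2 = (4 * dd ι + 8) ^ 2 := by rw [hR, div_pow, Real.sq_sqrt hl.le]; field_simp
  refine ⟨_, Lap.rad (ψ := fun q => (1 - q / R ^ 2) ^ 2) (ψ' := fun q => -2 * (1 - q / R ^ 2) / R ^ 2)
    (c2 := 2 / R ^ 2 / R ^ 2) y x (.of_forall fun s => ((((hasDerivAt_id s).div_const _).const_sub
      1).pow 2).congr_deriv (by simp; ring)) ((((((hasDerivAt_id _).div_const _).const_sub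
      1).const_mul _).div_const _).congr_deriv (by ring)), ?_⟩
  obtain ⟨t, ht⟩ : ∃ t, t = 1 - ‖x - y‖ ^ 2 / R ^ 2 := ⟨_, rfl⟩
  have e : ‖x - y‖ ^ 2 = (1 - t) * R ^ 2 := by rw [ht]; field_simp; ring
  rw [← ht, e, ← sub_pos, show l * t ^ 2 - -(4 * (2 / R ^ 2 / R ^ 2) * ((1 - t) * R ^ 2) +
    2 * dd ι * (-2 * t / R ^ 2)) = (l * R ^ 2 * t ^ 2 + 8 - (4 * dd ι + 8) * t) / R ^ 2 by
    field_simp; ring, R1]
  exact div_pos (by nlinarith [sq_nonneg ((4 * dd ι + 8) * t - 1)]) (by positivity)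

structure Rx (f : ℝ → ℝ) (L : ℝ) : Prop where
  L1 : 1 ≤ L
  lip : ∀ s ∈ Icc (0 : ℝ) 1, ∀ t ∈ Icc (0 : ℝ) 1, |f s - f t| ≤ L * |s - t|
  f0 : f 0 = 0
  f1 : f 1 = 0
  nn : ∀ s ∈ Icc (0 : ℝ) 1, 0 ≤ f s
  lo : ∀ σ > 0, ∃ l > 0, ∀ s ∈ Icc (0 : ℝ) (1 - σ), l * s ≤ f s
  hi : ∃ σ > 0, ∃ c > 0, ∀ s t, 1 - 2 * σ ≤ s → s ≤ t → t ≤ 1 → f t + c * (t - s) ≤ f s

structure Sol (Ω : Set (Eu ι)) (f : ℝ → ℝ) (v : Eu ι → ℝ) : Prop where
  c : Continuous v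
  z : ∀ x ∉ Ω, v x = 0
  pos : ∀ x ∈ Ω, 0 < v x
  le : ∀ x, v x ≤ 1
  c2 : ∀ x ∈ Ω, ContDiffAt ℝ 2 v x
  eq : ∀ x ∈ Ω, lap v x = -f (v x)

structure Gm (Ω : Set (Eu ι)) (s : ℝ) : Prop where
  op : IsOpen Ω
  r0 : 0 < s
  r1 : s ≤ 1
  ne : Ωᶜ.Nonempty
  bl : ∀ z ∈ frontier Ω, ∃ n : Eu ι, ‖n‖ = 1 ∧ ball (z + s • n) s ⊆ Ω ∧ ball (z - s • n) s ⊆ Ωᶜ

variable {Ω : Set (Eu ι)} {f : ℝ → ℝ} {L r0 : ℝ}

lemma Rx.le (h : Rx f L) {s : ℝ} (hs : s ∈ Icc (0 : ℝ) 1) : f s ≤ L * s := by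
  have := h.lip s hs 0 ⟨le_rfl, zero_le_one⟩
  rw [h.f0, sub_zero, sub_zero, abs_of_nonneg hs.1] at this
  exact (le_abs_self _).trans this

lemma Sol.mem (h : Sol Ω f v) (x : Eu ι) : v x ∈ Icc (0 : ℝ) 1 :=
  ⟨by by_cases hx : x ∈ Ω; exacts [(h.pos x hx).le, (h.z x hx).ge], h.le x⟩

lemma Sol.lp (h : Sol Ω f v) (hx : x ∈ Ω) : Lap v x (-f (v x)) := h.eq x hx ▸ Lap.of (h.c2 x hx)

lemma Sol.sh (h : Sol Ω f v) (hf : Rx f L) (hb : ball c r ⊆ Ω) : SH v c r :=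
  ⟨h.c.continuousOn, fun y _ => (h.mem y).1, fun y hy =>
    ⟨_, neg_nonpos.2 (hf.nn _ (h.mem y)), h.lp (hb hy)⟩⟩

lemma hair (hf : Rx f L) {σ : ℝ} (σ0 : 0 < σ) : ∃ R > 0, ∀ (Ω : Set (Eu ι)) u, Sol Ω f u →
    ∀ y, closedBall y R ⊆ Ω → 1 - σ < u y := by
  obtain ⟨l, l0, hl⟩ := hf.lo σ σ0
  obtain ⟨R, R0, hR⟩ := bump ι l0
  refine ⟨R, R0, fun Ω u h y hy => not_le.1 fun h1 => ?_⟩
  have y0 := mem_closedBall_self (x := y) R0.le
  obtain ⟨x, x1, x2⟩ := (isCompact_closedBall y R).exists_isMaxOn ⟨y, y0⟩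
    (f := fun z => (1 - ‖z - y‖ ^ 2 / R ^ 2) ^ 2 / u z) (ContinuousOn.div (by fun_prop)
      h.c.continuousOn fun z hz => (h.pos z (hy hz)).ne')
  obtain ⟨L', l1, l2⟩ := hR y x
  obtain ⟨b, hb⟩ : ∃ b, b = (1 - ‖x - y‖ ^ 2 / R ^ 2) ^ 2 / u x := ⟨_, rfl⟩
  have u0 := h.pos x (hy x1)
  have u1 := h.pos y (hy y0)
  have b1 : 1 / u y ≤ b := by simpa [← hb] using x2 y0
  have b0 : 0 < b := (one_div_pos.2 u1).trans_le b1
  have b2 : b * u x = (1 - ‖x - y‖ ^ 2 / R ^ 2) ^ 2 := by rw [hb]; field_simp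
  have x3 : x ∈ ball y R := mem_ball_iff_norm.2 (lt_of_le_of_ne (mem_closedBall_iff_norm.1 x1)
    fun e => by rw [e, div_self (by positivity)] at b2; nlinarith [mul_pos b0 u0])
  have m := (((h.lp (hy x1)).cmul b).sub l1).min (by
    filter_upwards [isOpen_ball.mem_nhds x3] with z hz
    have : (1 - ‖z - y‖ ^ 2 / R ^ 2) ^ 2 / u z ≤ b := hb ▸ x2 (ball_subset_closedBall hz)
    rw [div_le_iff₀ (h.pos z (hy (ball_subset_closedBall hz)))] at this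
    linarith)
  have t1 : ‖x - y‖ ^ 2 / R ^ 2 ≤ 1 := div_le_one_of_le₀ (pow_le_pow_left₀ (norm_nonneg _)
    (mem_closedBall_iff_norm.1 x1) 2) (sq_nonneg _)
  have t2 : b * u x ≤ 1 := b2 ▸ pow_le_one₀ (by linarith) (sub_le_self _ (by positivity))
  rw [div_le_iff₀ u1] at b1
  have t3 : u x ≤ u y := le_of_mul_le_mul_left (t2.trans b1) b0
  nlinarith [mul_le_mul_of_nonneg_left (hl _ ⟨u0.le, t3.trans h1⟩) b0.le]

noncomputable def dl (Ω : Set (Eu ι)) (x : Eu ι) : ℝ := infDist x Ωᶜ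

lemma dl_nn (Ω : Set (Eu ι)) (x : Eu ι) : 0 ≤ dl Ω x := infDist_nonneg
lemma dl_ball (Ω : Set (Eu ι)) (x : Eu ι) : ball x (dl Ω x) ⊆ Ω := ball_infDist_compl_subset
lemma dl_mem (h : 0 < dl Ω x) : x ∈ Ω := dl_ball Ω x (mem_ball_self h)
lemma dl_lip (Ω : Set (Eu ι)) (x y : Eu ι) : dl Ω x ≤ dl Ω y + dist x y :=
  infDist_le_infDist_add_dist
lemma Gm.le_dl (h : Gm Ω r0) (hb : ball x r ⊆ Ω) : r ≤ dl Ω x :=
  (le_infDist h.ne).2 fun y hy => not_lt.1 fun h' => hy (hb (mem_ball'.2 h'))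

lemma Gm.near (h : Gm Ω r0) (hx : x ∈ closure Ω) : ∃ z n : Eu ι, ‖n‖ = 1 ∧ x = z + dl Ω x • n ∧
    ball (z + r0 • n) r0 ⊆ Ω ∧ ball (z - r0 • n) r0 ⊆ Ωᶜ := by
  obtain ⟨z, z1, z2⟩ := h.op.isClosed_compl.exists_infDist_eq_dist h.ne x
  change dl Ω x = _ at z2
  rcases (dl_nn Ω x).eq_or_lt with h0 | h0
  · have e : x = z := dist_eq_zero.1 (z2 ▸ h0.symm)
    obtain ⟨n, k⟩ := h.bl z ⟨e ▸ hx, fun h' => z1 (interior_subset h')⟩
    exact ⟨z, n, k.1, by rw [← h0, zero_smul, add_zero, e], k.2⟩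
  obtain ⟨n, k1, k2, k3⟩ := h.bl z ⟨closure_mono (dl_ball Ω x) (by
    rw [closure_ball x h0.ne', mem_closedBall', z2]), fun h' => z1 (interior_subset h')⟩
  refine ⟨z, n, k1, ?_, k2, k3⟩
  have := (disjoint_ball_ball_iff h0 h.r0).1 (disjoint_compl_right.mono (dl_ball Ω x) k3)
  have e1 := pow_le_pow_left₀ (by linarith [h.r0]) this 2
  rw [dist_eq_norm] at z2
  rw [dist_eq_norm, ← sub_add, sub_add_eq_add_sub, add_sub_right_comm, norm_add_sq_real, ← z2,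
    real_inner_smul_right, norm_smul, k1, Real.norm_of_nonneg h.r0.le] at e1
  have e2 : dl Ω x ≤ ⟪x - z, n⟫ := le_of_mul_le_mul_left (by nlinarith) h.r0
  rw [← sub_eq_zero, ← sub_sub, ← norm_le_zero_iff]
  refine (pow_le_pow_iff_left₀ (norm_nonneg _) le_rfl two_ne_zero).1 ?_
  rw [norm_sub_sq_real, ← z2, real_inner_smul_right, norm_smul, k1, Real.norm_of_nonneg h0.le]
  nlinarith

lemma sub_ball {z n : Eu ι} (hn : ‖n‖ = 1) {ρ : ℝ} (h : ρ ≤ r0) :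
    ball (z + ρ • n) ρ ⊆ ball (z + r0 • n) r0 := ball_subset_ball' (by
  rw [dist_add_left, dist_eq_norm, ← sub_smul, norm_smul, hn, Real.norm_eq_abs,
    abs_of_nonpos (by linarith)]; linarith)

variable (ι) in
noncomputable def Cd (L : ℝ) : ℝ := (2 + L * 4 ^ (Fintype.card ι + 1)) * (3 * dd ι)

lemma Cd1 (h : 0 ≤ L) : 1 ≤ Cd ι L := by
  have := dd1 (ι := ι)
  have : 0 ≤ L * 4 ^ (Fintype.card ι + 1) := by positivity
  unfold Cd; nlinarith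

lemma Sol.decay (h : Sol Ω f v) (hf : Rx f L) (hg : Gm Ω r0) {ρ M : ℝ} (ρ0 : 0 < ρ) (ρ1 : ρ ≤ r0)
    (hM : ∀ y ∈ closedBall x (4 * ρ), v y ≤ M) : v x ≤ Cd ι L * M * (dl Ω x / ρ) := by
  have L0 : 0 ≤ L := zero_le_one.trans hf.L1
  have x0 := hM x (mem_closedBall_self (by linarith))
  have M0 : 0 ≤ M := (h.mem x).1.trans x0
  have δ0 := dl_nn Ω x
  have C1 := Cd1 (ι := ι) L0
  by_cases hx : x ∈ Ω
  swap
  · rw [h.z x hx]; positivity
  rcases le_total ρ (dl Ω x) with h1 | h1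
  · exact x0.trans ((le_mul_of_one_le_left M0 C1).trans (le_mul_of_one_le_right (by positivity)
      ((one_le_div ρ0).2 h1)))
  obtain ⟨z, n, k1, k2, -, k4⟩ := hg.near (subset_closure hx)
  have k5 : ball (z + ρ • -n) ρ ⊆ Ωᶜ := (sub_ball (by simpa) ρ1).trans (by
    simpa [sub_eq_add_neg] using k4)
  have e : ‖x - (z + ρ • -n)‖ = dl Ω x + ρ := by
    conv_lhs => rw [k2]
    rw [add_sub_add_left_eq_sub, smul_neg, sub_neg_eq_add, ← add_smul, norm_smul, k1,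
      Real.norm_of_nonneg (by linarith), mul_one]
  have s1 : closedBall (z + ρ • -n) (2 * ρ) ⊆ closedBall x (4 * ρ) :=
    closedBall_subset_closedBall' (by rw [dist_comm, dist_eq_norm, e]; linarith)
  have := bd isClosed_closure h.c.continuousOn (S := closure Ω) (c := z + ρ • -n) (η := 0) ρ0
    (ρ1.trans hg.r1) M0 L0 (fun y hy => not_lt.1 fun h' => (closure_minimal (subset_compl_comm.1 k5)
      isOpen_ball.isClosed_compl hy) (mem_ball_iff_norm.2 h'))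
    (fun y hy => by simpa using hM y (s1 hy.2)) (fun y hy k => by
      have y1 : y ∈ Ω := by by_contra h'; exact k.ne' (h.z y h')
      exact ⟨mem_of_superset (hg.op.mem_nhds y1) subset_closure, _, h.lp y1, by
        rw [neg_neg]
        exact (hf.le (h.mem y)).trans (mul_le_mul_of_nonneg_left (hM y (s1 hy.2)) L0)⟩) x
    ⟨subset_closure hx, mem_closedBall_iff_norm.2 (by linarith)⟩
  rw [e, zero_add] at this
  refine this.trans ?_
  have d1 := dd1 (ι := ι)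
  have k6 : ((dl Ω x + ρ) ^ 2 - ρ ^ 2) / ρ ^ 2 ≤ 3 * (dl Ω x / ρ) := by
    rw [div_le_iff₀ (by positivity), show 3 * (dl Ω x / ρ) * ρ ^ 2 = 3 * dl Ω x * ρ by field_simp]
    nlinarith
  calc _ ≤ (2 + L * 4 ^ (Fintype.card ι + 1)) * M * (dd ι * (3 * (dl Ω x / ρ))) := by gcongr
    _ = _ := by unfold Cd; ring

lemma Sol.grad (h : Sol Ω f v) (hf : Rx f L) {ρ M : ℝ} (ρ0 : 0 < ρ) (ρ1 : ρ ≤ 1)
    (hb : closedBall x ρ ⊆ Ω) (hM : ∀ y ∈ closedBall x ρ, v y ≤ M) :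
    ‖fderiv ℝ v x‖ ≤ dd ι * (dd ι + L) * M / ρ := by
  have L0 : 0 ≤ L := zero_le_one.trans hf.L1
  have d1 := dd1 (ι := ι)
  have x0 := mem_closedBall_self (x := x) ρ0.le
  have M0 : 0 ≤ M := (h.mem x).1.trans (hM x x0)
  refine (gb (N := L * M) ρ0 h.c.continuousOn (fun y hy => ⟨_, h.lp (hb (ball_subset_closedBall hy)),
    by rw [abs_neg, abs_of_nonneg (hf.nn _ (h.mem y))]
       exact (hf.le (h.mem y)).trans (mul_le_mul_of_nonneg_left (hM y (ball_subset_closedBall hy)) L0)⟩)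
    (fun y hy => by rw [abs_of_nonneg (h.mem y).1]; exact hM y hy)
    ((h.c2 x (hb x0)).differentiableAt two_ne_zero).hasFDerivAt).trans ?_
  have : L * M * ρ / 2 ≤ L * M / ρ := by
    rw [div_le_div_iff₀ two_pos ρ0]
    nlinarith [mul_le_mul_of_nonneg_left (mul_le_one₀ ρ1 ρ0.le ρ1) (mul_nonneg L0 M0),
      mul_nonneg L0 M0]
  calc _ ≤ dd ι * (dd ι * M / ρ + L * M / ρ) := by gcongr
    _ = _ := by ring

lemma Sol.hess (h : Sol Ω f v) (hf : Rx f L) {ρ M : ℝ} (ρ0 : 0 < ρ) (ρ1 : ρ ≤ 1)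
    (hb' : closedBall x (2 * ρ) ⊆ Ω) (hM : ∀ y ∈ closedBall x (2 * ρ), v y ≤ M) :
    ‖fderiv ℝ (fderiv ℝ v) x‖ ≤
      dd ι * (2 * dd ι / ρ + L) * (dd ι * (dd ι + L) / ρ) * M := by
  have L0 : 0 ≤ L := zero_le_one.trans hf.L1
  have d1 := dd1 (ι := ι)
  have M0 : 0 ≤ M := (h.mem x).1.trans (hM x (mem_closedBall_self (by linarith)))
  have s1 : closedBall x ρ ⊆ Ω := (closedBall_subset_closedBall (by linarith)).trans hb'
  have hG : ∀ y ∈ closedBall x ρ, ‖fderiv ℝ v y‖ ≤ dd ι * (dd ι + L) * M / ρ := fun y hy => by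
    have := closedBall_subset_closedBall' (show ρ + dist y x ≤ 2 * ρ by linarith [mem_closedBall.1 hy])
    exact h.grad hf ρ0 ρ1 (this.trans hb') fun z hz => hM z (this hz)
  obtain ⟨G, e⟩ : ∃ G, G = dd ι * (dd ι + L) * M / ρ := ⟨_, rfl⟩
  have G0 : 0 ≤ G := by rw [e]; positivity
  rw [← e] at hG
  refine (hb (N := L * G) ρ0 (fun y hy => h.c2 y (s1 hy)) hG (fun y hy y' hy' => by
    rw [h.eq y (s1 hy), h.eq y' (s1 hy'), neg_sub_neg, abs_sub_comm, mul_assoc]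
    exact (hf.lip _ (h.mem _) _ (h.mem _)).trans (mul_le_mul_of_nonneg_left
      ((convex_closedBall x ρ).norm_image_sub_le_of_norm_fderiv_le (fun z hz =>
        (h.c2 z (s1 hz)).differentiableAt two_ne_zero) hG hy' hy) L0)) (by positivity)).trans ?_
  have : L * G * (ρ / 2) / 2 ≤ L * G := by nlinarith [mul_nonneg L0 G0]
  calc _ ≤ dd ι * (dd ι * G / (ρ / 2) + L * G) := by gcongr
    _ = _ := by rw [e]; field_simp

end Pool.Agent.H.MP_0f8a1e_an
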