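import Pool.Agent.H.MP_0f8a1e_an.B

set_option linter.unusedSectionVars false
set_option linter.unusedVariables false
set_option linter.dupNamespace false

namespace Pool.Agent.H.MP_0f8a1e_an

open Filter Topology Set Metric
open scoped RealInnerProductSpace

variable {ι : Type} [Fintype ι] [DecidableEq ι] [Nonempty ι]
variable {v w : Eu ι → ℝ} {c x y : Eu ι} {r : ℝ} {Ω : Set (Eu ι)} {f : ℝ → ℝ} {L r0 : ℝ}

lemma d_line (z n : Eu ι) (hn : ‖n‖ = 1) (s t : ℝ) : dist (z + s • n) (z + t • n) = |s - t| := by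
  rw [dist_add_left, dist_eq_norm, ← sub_smul, norm_smul, hn, Real.norm_eq_abs, mul_one]

lemma low (hf : Rx f L) (hg : Gm Ω r0) : ∃ p : ℕ, ∀ δ0 > 0, ∃ c > 0, ∀ v, Sol Ω f v →
    ∀ x y σ a, δ0 ≤ dl Ω x → 0 < σ → 0 ≤ a → dist y x + 4 * σ ≤ r0 / 200 → 4 * σ ≤ dl Ω y →
      (∀ z ∈ closedBall y σ, a ≤ v z) → c * a * σ ^ p ≤ v x := by
  obtain ⟨c1, c0, p, hc⟩ := chain ι
  have r0p := hg.r0
  refine ⟨p, fun δ0 δp => ?_⟩
  obtain ⟨ρ3, h3⟩ : ∃ ρ3, ρ3 = r0 - min δ0 (r0 / 2) := ⟨_, rfl⟩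
  have m1 := min_le_left δ0 (r0 / 2)
  have m2 := min_le_right δ0 (r0 / 2)
  have m3 : 0 < min δ0 (r0 / 2) := by positivity
  obtain ⟨g, hgd⟩ : ∃ g, g = ((r0 / 20) ^ 2 / ρ3 ^ 2) ^ Fintype.card ι -
    ((r0 / 20) ^ 2 / r0 ^ 2) ^ Fintype.card ι := ⟨_, rfl⟩
  have g0 : 0 < g := hgd ▸ gpos (by positivity) (by linarith) (by linarith)
  refine ⟨c1 * min g 1, by positivity, fun v h x y σ a hx σ0 a0 h1 h2 ha => ?_⟩
  have k0 : ∀ s, 0 < s → s ≤ 1 → σ ^ p ≤ (σ / s) ^ p := fun s s0 s1 =>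
    pow_le_pow_left₀ σ0.le (le_div_self σ0.le s0 s1) _
  have dxy := dist_nonneg (x := y) (y := x)
  rcases le_total (r0 / 200) (dl Ω x) with h4 | h4
  · have := hc v x (r0 / 200) (h.sh hf ((ball_subset_ball h4).trans (dl_ball Ω x))) y σ a σ0 a0
      (by linarith) ha x (mem_closedBall_self (by positivity))
    refine le_trans ?_ this
    have := k0 (r0 / 200) (by positivity) (by linarith [hg.r1])
    have := min_le_right g 1
    calc _ ≤ c1 * 1 * a * (σ / (r0 / 200)) ^ p := by gcongr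
      _ = _ := by ring
  obtain ⟨zx, nx, a1, a2, a3, a4⟩ := hg.near (subset_closure (dl_mem (δp.trans_le hx)))
  obtain ⟨zy, ny, b1, b2, b3, b4⟩ := hg.near (subset_closure (dl_mem (x := y) (by linarith)))
  have h5 := dl_lip Ω y x
  have δx := dl_nn Ω x
  have δy := dl_nn Ω y
  have e1 : dist y (zy + r0 • ny) = r0 - dl Ω y := by
    conv_lhs => rw [b2]
    rw [d_line _ _ b1, abs_of_nonpos (by linarith), neg_sub]
  have e2 : dist x (zx + r0 • nx) = r0 - dl Ω x := by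
    conv_lhs => rw [a2]
    rw [d_line _ _ a1, abs_of_nonpos (by linarith), neg_sub]
  have e3 : ‖zy - zx‖ ≤ r0 / 50 := by
    have : zy - zx = (y - x) + dl Ω x • nx - dl Ω y • ny := by
      conv_rhs => rw [a2, b2]
      rw [← a2, ← b2]
      nth_rewrite 1 [b2]; nth_rewrite 1 [a2]; abel
    rw [this]
    refine (norm_sub_le _ _).trans ((add_le_add_left (norm_add_le _ _) _).trans ?_)
    rw [norm_smul, norm_smul, a1, b1, Real.norm_of_nonneg δx, Real.norm_of_nonneg δy, ← dist_eq_norm]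
    linarith
  have e4 := (disjoint_ball_ball_iff r0p r0p).1 (disjoint_compl_right.mono b3 a4)
  rw [dist_eq_norm, show zy + r0 • ny - (zx - r0 • nx) = (zy - zx) + r0 • (ny + nx) by module] at e4
  have e5 := e4.trans (norm_add_le _ _)
  rw [norm_smul, Real.norm_of_nonneg r0p.le] at e5
  have e6 : 99 / 50 ≤ ‖ny + nx‖ := le_of_mul_le_mul_left (by linarith) r0p
  have e7 : ‖ny - nx‖ ≤ 3 / 10 := by
    have := parallelogram_law_with_norm ℝ ny nx
    rw [a1, b1] at this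
    exact abs_le_of_sq_le_sq' (by nlinarith) (by norm_num) |>.2
  have e8 : dist (zx + r0 • nx) (zy + r0 • ny) ≤ r0 / 50 + r0 * (3 / 10) := by
    rw [dist_comm, dist_eq_norm, show zy + r0 • ny - (zx + r0 • nx) = (zy - zx) + r0 • (ny - nx) by
      module]
    refine (norm_add_le _ _).trans (add_le_add e3 ?_)
    rw [norm_smul, Real.norm_of_nonneg r0p.le]; gcongr
  have k1 := hc v _ r0 (h.sh hf b3) y σ a σ0 a0 (by linarith) ha
  have k2 := (h.sh hf a3).grow (ρ1 := r0 / 20) (ρ3 := ρ3) (a := c1 * a * (σ / r0) ^ p)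
    (by positivity) (by linarith) (by linarith) (by positivity)
    (fun z hz => k1 z (closedBall_subset_closedBall' (by linarith) hz)) x
    (mem_closedBall.2 (by linarith))
  rw [← hgd] at k2
  refine le_trans ?_ k2
  have := k0 r0 r0p hg.r1
  have := min_le_left g 1
  calc _ ≤ c1 * g * a * (σ / r0) ^ p := by gcongr
    _ = _ := by ring

theorem harn (hf : Rx f L) (hg : Gm Ω r0) {δ0 : ℝ} (δp : 0 < δ0) : ∃ C ≥ 1, ∀ v, Sol Ω f v →
    ∀ x y, δ0 ≤ dl Ω x → dist y x ≤ r0 / 400 → v y ≤ C * v x := by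
  obtain ⟨p0, hp⟩ := low hf hg
  obtain ⟨c, c0, hc⟩ := hp δ0 δp
  obtain ⟨p, pe⟩ : ∃ p, p = p0 + 1 := ⟨_, rfl⟩
  have r0p := hg.r0
  have r1 := hg.r1
  have L0 : 0 ≤ L := zero_le_one.trans hf.L1
  have C1 := Cd1 (ι := ι) L0
  have d1 := dd1 (ι := ι)
  have p1 : (1 : ℝ) ≤ 2 ^ p := one_le_pow₀ one_le_two
  obtain ⟨θ, θ0, θ1⟩ : ∃ θ > 0, θ * (16 * (Cd ι L * 2 ^ p)) = 1 :=
    ⟨_, by positivity, inv_mul_cancel₀ (by positivity)⟩
  have θ2 : 16 * θ ≤ 1 := by nlinarith [one_le_mul_of_one_le_of_one_le C1 p1]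
  obtain ⟨κ, κ0, κ1⟩ : ∃ κ > 0, κ * (16 * (dd ι * (dd ι + L) * 2 ^ p)) = θ :=
    ⟨_, by positivity, div_mul_cancel₀ _ (by positivity)⟩
  have κ2 : 16 * κ ≤ θ := by
    nlinarith [one_le_mul_of_one_le_of_one_le (one_le_mul_of_one_le_of_one_le d1
      (by linarith : 1 ≤ dd ι + L)) p1]
  refine ⟨max 1 (2 / (c * κ ^ p * (r0 / 400) ^ p)), le_max_left _ _, fun v h x y hx hy => ?_⟩
  obtain ⟨y1, k1, k2⟩ := (isCompact_closedBall x (r0 / 200)).exists_isMaxOn
    ⟨x, mem_closedBall_self (by positivity)⟩ (f := fun z => (r0 / 200 - dist z x) ^ p * v z)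
    (Continuous.continuousOn (by have := h.c; fun_prop))
  obtain ⟨s, hs⟩ : ∃ s, s = r0 / 200 - dist y1 x := ⟨_, rfl⟩
  have k3 : ∀ z t, 0 ≤ t → t ≤ r0 / 200 - dist z x → t ^ p * v z ≤ s ^ p * v y1 := fun z t t0 t1 =>
    (mul_le_mul_of_nonneg_right (pow_le_pow_left₀ t0 t1 p) (h.mem z).1).trans
      (hs ▸ k2 (mem_closedBall.2 (by linarith)))
  have k4 := k3 y (r0 / 400) (by positivity) (by linarith)
  have x0 := (h.mem x).1
  rcases (h.mem y).1.eq_or_lt with y0 | y0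
  · rw [← y0]; positivity
  have k5 : 0 < s ^ p * v y1 := lt_of_lt_of_le (by positivity) k4
  have s0 : 0 < s := lt_of_le_of_ne (by linarith [mem_closedBall.1 k1]) fun e => by
    rw [← e, pe] at k5; simp at k5
  have M0 : 0 < v y1 := (pos_iff_pos_of_mul_pos k5).1 (pow_pos s0 p)
  have s1 : s ≤ r0 / 200 := by linarith [dist_nonneg (x := y1) (y := x)]
  have k6 : ∀ z ∈ closedBall y1 (s / 2), v z ≤ 2 ^ p * v y1 := fun z hz => by
    have := k3 z (s / 2) (by positivity) (by linarith [dist_triangle z y1 x, mem_closedBall.1 hz])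
    rw [div_pow, div_mul_eq_mul_div, div_le_iff₀ (by positivity)] at this
    exact le_of_mul_le_mul_left (by linarith) (pow_pos s0 p)
  have k7 := h.decay hf hg (x := y1) (ρ := s / 8) (by positivity) (by linarith)
    (fun z hz => k6 z (closedBall_subset_closedBall (by linarith) hz))
  have k8 : 2 * θ * s ≤ dl Ω y1 := by
    rw [← mul_div_assoc, le_div_iff₀ (by positivity)] at k7
    have := mul_le_mul_of_nonneg_left k7 θ0.le
    refine le_of_mul_le_mul_left ?_ M0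
    have e : θ * (Cd ι L * (2 ^ p * v y1) * dl Ω y1) = v y1 * dl Ω y1 / 16 := by
      rw [eq_div_iff (by norm_num), ← one_mul (v y1 * _), ← θ1]; ring
    linarith
  have θs : 0 < θ * s := by positivity
  have k9 : closedBall y1 (θ * s) ⊆ Ω := (closedBall_subset_ball (by linarith)).trans (dl_ball Ω y1)
  have l1 : ∀ z ∈ closedBall y1 (θ * s / 2), ‖fderiv ℝ v z‖ ≤
      dd ι * (dd ι + L) * (2 ^ p * v y1) / (θ * s / 2) := fun z hz => by
    have := closedBall_subset_closedBall' (show θ * s / 2 + dist z y1 ≤ θ * s by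
      linarith [mem_closedBall.1 hz])
    exact h.grad hf (by positivity) (by nlinarith) (this.trans k9) fun z' hz' =>
      k6 z' (closedBall_subset_closedBall (by nlinarith) (this hz'))
  have l2 := hc v h x y1 (κ * s) (v y1 / 2) hx (by positivity) (by positivity) (by nlinarith)
    (by nlinarith) fun z hz => by
      have := (convex_closedBall y1 (θ * s / 2)).norm_image_sub_le_of_norm_fderiv_le
        (fun z hz => (h.c2 z (k9 (closedBall_subset_closedBall (by linarith) hz))).differentiableAt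
          two_ne_zero) l1 (mem_closedBall_self (by positivity))
        (closedBall_subset_closedBall (by nlinarith) hz)
      have := this.trans (mul_le_mul_of_nonneg_left (mem_closedBall_iff_norm.1 hz) (by positivity))
      rw [show dd ι * (dd ι + L) * (2 ^ p * v y1) / (θ * s / 2) * (κ * s) = v y1 / 8 by
        rw [← κ1]; field_simp; ring] at this
      linarith [(abs_le.1 this).1]
  have l3 : (κ * s) ^ p ≤ (κ * s) ^ p0 := pow_le_pow_of_le_one (by positivity) (by nlinarith)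
    (by omega)
  refine le_trans ?_ (mul_le_mul_of_nonneg_right (le_max_right _ _) x0)
  rw [div_mul_eq_mul_div, le_div_iff₀ (by positivity)]
  rw [mul_pow] at l3
  calc _ = c * κ ^ p * ((r0 / 400) ^ p * v y) := by ring
    _ ≤ c * κ ^ p * (s ^ p * v y1) := by gcongr
    _ = 2 * (c * (v y1 / 2) * (κ ^ p * s ^ p)) := by ring
    _ ≤ _ := by gcongr; exact le_trans (by gcongr) l2

theorem doub (hf : Rx f L) (hg : Gm Ω r0) {r1 : ℝ} (h0 : 0 < r1) (h1 : r1 ≤ r0 / 1600) :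
    ∃ C ≥ 1, ∀ v, Sol Ω f v → ∀ x ∈ closure Ω, ∀ M, (∀ y ∈ closedBall x r1, v y ≤ M) →
      ∀ y ∈ closedBall x (2 * r1), v y ≤ C * M := by
  obtain ⟨C, C1, hC⟩ := harn hf hg h0
  refine ⟨C, C1, fun v h x hx M hM y hy => ?_⟩
  have y1 := mem_closedBall.1 hy
  suffices ∃ x' ∈ closedBall x r1, r1 ≤ dl Ω x' by
    obtain ⟨x', k1, k2⟩ := this
    exact (hC v h x' y k2 (by linarith [dist_triangle_right y x' x, mem_closedBall.1 k1])).trans
      (mul_le_mul_of_nonneg_left (hM x' k1) (by linarith))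
  rcases le_total r1 (dl Ω x) with h2 | h2
  · exact ⟨x, mem_closedBall_self h0.le, h2⟩
  obtain ⟨z, n, k1, k2, k3, -⟩ := hg.near hx
  refine ⟨z + r1 • n, ?_, hg.le_dl ((sub_ball k1 (by linarith [hg.r0])).trans k3)⟩
  rw [mem_closedBall]
  conv_lhs => rw [k2]
  rw [d_line _ _ k1, abs_of_nonneg (by linarith)]
  linarith [dl_nn Ω x]

end Pool.Agent.H.MP_0f8a1e_an
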