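import Pool.Agent.H.MP_0f8a1e_an.C

set_option linter.unusedSectionVars false
set_option linter.unusedVariables false
set_option linter.dupNamespace false
set_option linter.unusedSimpArgs false

namespace Pool.Agent.H.MP_0f8a1e_an

open Filter Topology Set Metric
open scoped RealInnerProductSpace

variable {ι : Type} [Fintype ι] [DecidableEq ι] [Nonempty ι]
variable {u v w w1 : Eu ι → ℝ} {c x y : Eu ι} {r : ℝ} {Ω : Set (Eu ι)} {f : ℝ → ℝ}
  {L r0 Λ Λ1 K K1 : ℝ}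

def Cv (w : Eu ι → ℝ) (x : Eu ι) (Λ K : ℝ) : Prop := (∀ᶠ y in 𝓝 x, ContinuousAt w y) ∧
  ∀ θ η : ℝ, 0 ≤ θ → θ ≤ 1 → 0 ≤ η → η ≤ 1 → ∀ (γ : ι → ℝ → Eu ι) (ξ ω : ι → Eu ι),
    (∀ i, J2 (γ i) (ξ i) (ω i) ∧ γ i 0 = x ∧ ‖ξ i - θ • eb i‖ ≤ η ∧ ‖ω i‖ ≤ η) →
    ∃ a b : ι → ℝ, (∀ i, J2 (fun τ => w (γ i τ)) (a i) (b i)) ∧ |∑ i, b i - θ ^ 2 * Λ| ≤ K * η

lemma Lap.uq (h : Lap w x Λ) (h' : Lap w x Λ1) : Λ = Λ1 := by
  have a := (h.sub h').min (by simpa using isLocalMin_const)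
  have b := (h'.sub h).min (by simpa using isLocalMin_const)
  linarith

lemma Cv.of (h : ContDiffAt ℝ 2 w x) (hL : Lap w x Λ) (h1 : ‖fderiv ℝ w x‖ ≤ K)
    (h2 : ‖fderiv ℝ (fderiv ℝ w) x‖ ≤ K) : Cv w x Λ (dd ι * (4 * K)) := by
  refine ⟨(h.eventually (by simp)).mono fun y hy => hy.continuousAt, fun θ η θ0 θ1 η0 η1 γ ξ ω H =>
    ⟨_, _, fun i => (H i).1.comp ((H i).2.1 ▸ h), ?_⟩⟩
  have K0 : 0 ≤ K := (norm_nonneg _).trans h1
  rw [hL.uq (Lap.of h), lap, Finset.mul_sum, ← Finset.sum_sub_distrib, mul_assoc, ← sum_c]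
  refine (Finset.abs_sum_le_sum_abs _ _).trans (Finset.sum_le_sum fun i _ => ?_)
  obtain ⟨-, e, k1, k2⟩ := H i
  obtain ⟨ζ, hζ⟩ : ∃ ζ, ξ i = θ • eb i + ζ := ⟨ξ i - θ • eb i, by simp⟩
  rw [hζ, add_sub_cancel_left] at k1
  have n1 : ‖θ • eb i‖ ≤ 1 := by rw [norm_smul, eb_n, Real.norm_of_nonneg θ0]; linarith
  have b : ∀ p q : Eu ι, ∀ s t : ℝ, ‖p‖ ≤ s → ‖q‖ ≤ t →
      |fderiv ℝ (fderiv ℝ w) x p q| ≤ K * s * t := fun p q s t hp hq =>
    ((fderiv ℝ (fderiv ℝ w) x).le_opNorm₂ p q).trans (by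
      have : 0 ≤ s := (norm_nonneg _).trans hp
      gcongr)
  have b1 := abs_le.1 (b _ _ _ _ n1 k1)
  have b2 := abs_le.1 (b _ _ _ _ k1 n1)
  have b3 := abs_le.1 (b _ _ _ _ k1 (k1.trans η1))
  have b4 := abs_le.1 (((fderiv ℝ w x).le_opNorm (ω i)).trans (mul_le_mul h1 k2 (norm_nonneg _) K0))
  have e2 : fderiv ℝ (fderiv ℝ w) x (θ • eb i) (θ • eb i) =
    θ ^ 2 * fderiv ℝ (fderiv ℝ w) x (eb i) (eb i) := by simp; ring
  rw [e, hζ, map_add, map_add, _root_.add_apply, _root_.add_apply, e2,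
    abs_le]
  constructor <;> linarith

lemma Cv.add (h : Cv w x Λ K) (h' : Cv w1 x Λ1 K1) :
    Cv (fun y => w y + w1 y) x (Λ + Λ1) (K + K1) := by
  refine ⟨(h.1.and h'.1).mono fun y hy => hy.1.add hy.2, fun θ η θ0 θ1 η0 η1 γ ξ ω H => ?_⟩
  obtain ⟨a, b, k1, k2⟩ := h.2 θ η θ0 θ1 η0 η1 γ ξ ω H
  obtain ⟨a', b', l1, l2⟩ := h'.2 θ η θ0 θ1 η0 η1 γ ξ ω H
  refine ⟨_, _, fun i => (k1 i).add (l1 i), ?_⟩
  rw [Finset.sum_add_distrib, abs_le]
  constructor <;> linarith [abs_le.1 k2, abs_le.1 l2]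

lemma Cv.cmul (h : Cv w x Λ K) (c : ℝ) : Cv (fun y => c * w y) x (c * Λ) (|c| * K) := by
  refine ⟨h.1.mono fun y hy => continuousAt_const.mul hy, fun θ η θ0 θ1 η0 η1 γ ξ ω H => ?_⟩
  obtain ⟨a, b, k1, k2⟩ := h.2 θ η θ0 θ1 η0 η1 γ ξ ω H
  refine ⟨_, _, fun i => (k1 i).cmul c, ?_⟩
  rw [← Finset.mul_sum, mul_left_comm, ← mul_sub, abs_mul, mul_assoc]
  gcongr

lemma Cv.const (c : ℝ) (x : Eu ι) : Cv (fun _ => c) x 0 0 :=
  ⟨.of_forall fun _ => continuousAt_const, fun θ η _ _ _ _ γ ξ ω H =>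
    ⟨_, _, fun i => J2.const c, by simp⟩⟩

lemma Cv.mono (h : Cv w x Λ K) (e : Λ = Λ1) (hK : K ≤ K1) : Cv w x Λ1 K1 :=
  ⟨h.1, fun θ η θ0 θ1 η0 η1 γ ξ ω H => by
    obtain ⟨a, b, k1, k2⟩ := h.2 θ η θ0 θ1 η0 η1 γ ξ ω H
    exact ⟨a, b, k1, e ▸ k2.trans (by gcongr)⟩⟩

lemma Cv.shift (h : Cv w (x - c) Λ K) : Cv (fun y => w (y - c)) x Λ K :=
  ⟨((continuous_sub_right c).continuousAt.eventually h.1).mono fun y hy =>
    hy.comp (f := fun y => y - c) (by fun_prop), fun θ η θ0 θ1 η0 η1 γ ξ ω H =>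
    h.2 θ η θ0 θ1 η0 η1 (fun i τ => γ i τ - c) ξ ω fun i =>
      ⟨by simpa [sub_eq_add_neg] using (H i).1.add (J2.const (-c)), by rw [(H i).2.1], (H i).2.2⟩⟩

lemma cv_cpt {S : Set (Eu ι)} (hS : IsCompact S) (h : ∀ y ∈ S, ContDiffAt ℝ 2 w y) :
    ∃ C ≥ 0, ∀ y ∈ S, ∀ Λ, Lap w y Λ → Cv w y Λ C := by
  obtain ⟨A, hA⟩ := hS.exists_bound_of_continuousOn (f := fderiv ℝ w) fun y hy =>
    ((h y hy).fderiv_right (m := 1) le_rfl).continuousAt.continuousWithinAt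
  obtain ⟨B, hB⟩ := hS.exists_bound_of_continuousOn (f := fderiv ℝ (fderiv ℝ w)) fun y hy =>
    (((h y hy).fderiv_right (m := 1) le_rfl).fderiv_right (m := 0)
      le_rfl).continuousAt.continuousWithinAt
  have := dd1 (ι := ι)
  exact ⟨dd ι * (4 * (|A| + |B|)), by positivity, fun y hy Λ hL => Cv.of (h y hy) hL
    (by linarith [hA y hy, le_abs_self A, abs_nonneg B])
    (by linarith [hB y hy, le_abs_self B, abs_nonneg A])⟩

noncomputable def Sc (o : Eu ι) (θ : ℝ) (y : Eu ι) : Eu ι := o + θ • (y - o)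

noncomputable def Gl (o : Eu ι) (η : ℝ) (y : Eu ι) : ℝ := η * Real.log (1 + ‖y - o‖ ^ 2)

lemma Gl_c (o : Eu ι) (η : ℝ) : Continuous (Gl o η) :=
  continuous_const.mul (Continuous.log (by fun_prop) fun y => by positivity)

lemma touch {o y0 : Eu ι} {θ0 η Lu : ℝ} (t0 : 0 ≤ θ0) (t1 : θ0 ≤ 1) (η0 : 0 ≤ η) (η1 : 5 * η ≤ 1)
    (hL : Lap u y0 Lu) (hW : Cv w (Sc o θ0 y0) Λ K) (h0 : u y0 + w (Sc o θ0 y0) ≤ 0)
    (h : ∀ᶠ p : Eu ι × ℝ in 𝓝 (y0, θ0), p.2 + Gl o η p.1 < θ0 + Gl o η y0 →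
      0 ≤ u p.1 + w (Sc o p.2 p.1)) :
    u y0 + w (Sc o θ0 y0) = 0 ∧ 0 ≤ Lu + θ0 ^ 2 * Λ + K * (5 * η) := by
  have Sc_c : Continuous fun p : Eu ι × ℝ => Sc o p.2 p.1 := by unfold Sc; fun_prop
  have T : Tendsto (fun y => (y, θ0 + Gl o η y0 - Gl o η y)) (𝓝 y0) (𝓝 (y0, θ0)) := by
    have := Gl_c o η
    simpa using (show Continuous fun y => (y, θ0 + Gl o η y0 - Gl o η y) by fun_prop).tendsto y0
  have key : ∀ᶠ y in 𝓝 y0, 0 ≤ u y + w (Sc o (θ0 + Gl o η y0 - Gl o η y) y) := by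
    filter_upwards [T.eventually (h.eventually_nhds.and ((Sc_c.tendsto _).eventually hW.1))]
      with y hy
    have t2 : Tendsto (fun θ : ℝ => (y, θ)) (𝓝[<] (θ0 + Gl o η y0 - Gl o η y)) (𝓝 _) :=
      ((Continuous.prodMk_right y).tendsto _).mono_left nhdsWithin_le_nhds
    refine ge_of_tendsto ((hy.2.tendsto.comp ((Sc_c.tendsto _).comp t2)).const_add (u y)) ?_
    filter_upwards [t2.eventually hy.1, self_mem_nhdsWithin] with θ k1 k2
    exact k1 (lt_sub_iff_add_lt.1 k2)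
  have e0 := le_antisymm h0 (by simpa using key.self_of_nhds)
  refine ⟨e0, ?_⟩
  obtain ⟨t, ht⟩ : ∃ t, t = ‖y0 - o‖ := ⟨_, rfl⟩
  have tn : 0 ≤ t := ht ▸ norm_nonneg _
  have D0 : 0 < 1 + t ^ 2 := by positivity
  obtain ⟨D, D1, D2⟩ : ∃ D > 0, D * (1 + t ^ 2) = 1 := ⟨_, inv_pos.2 D0, inv_mul_cancel₀ D0.ne'⟩
  have D3 : (1 + t ^ 2)⁻¹ = D := inv_eq_of_mul_eq_one_left D2
  have J : ∀ i, J2 (fun τ : ℝ => θ0 + Gl o η y0 - Gl o η (y0 + τ • eb i))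
      (-η * (2 * D * (y0 - o) i)) (-η * (2 * D - (2 * D * (y0 - o) i) ^ 2)) := fun i => by
    have := (J2.const (θ0 + Gl o η y0)).add ((((J2.line y0 (eb i)).nsq o).scomp
      (ψ := fun s => Real.log (1 + s)) (ψ' := fun s => (1 + s)⁻¹) (c := -D ^ 2) (by
        simp only [zero_smul, add_zero, ← ht]
        filter_upwards [lt_mem_nhds (show -1 < t ^ 2 by linarith)] with s hs
        simpa using ((hasDerivAt_id s).const_add 1).log (by simp; linarith)) (by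
        simp only [zero_smul, add_zero, ← ht]
        exact (((hasDerivAt_id _).const_add 1).inv D0.ne').congr_deriv (by
          simp [← D3, neg_div]))).cmul (-η))
    simp only [zero_smul, add_zero, ← ht, D3, eb_i, eb_n, inner_zero_right] at this
    exact (this.cast (by ring) (by ring)).congr (.of_forall fun τ => by simp only [Gl]; ring)
  obtain ⟨a, b, k1, k2⟩ := hW.2 θ0 (5 * η) t0 t1 (by positivity) η1
    (fun i τ => Sc o (θ0 + Gl o η y0 - Gl o η (y0 + τ • eb i)) (y0 + τ • eb i)) _ _ fun i => ⟨by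
      simpa only [Sc, add_sub_right_comm] using (J2.const o).add ((J i).smul
        (J2.line (y0 - o) (eb i))), by simp, by
      have c1 : |(y0 - o) i| ≤ t := ht ▸ co_le _ i
      simp only [zero_smul, add_zero, sub_add_cancel, zero_add, add_sub_cancel_left, norm_smul,
        ← ht, norm_mul, norm_neg, Real.norm_eq_abs, abs_of_nonneg η0, abs_of_pos D1, abs_two]
      nlinarith [mul_le_mul_of_nonneg_left c1 (show 0 ≤ η * D * t by positivity),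
        mul_nonneg η0 D1.le], by
      have c1 : |(y0 - o) i| ≤ t := ht ▸ co_le _ i
      obtain ⟨g, hg⟩ : ∃ g, g = 2 * D * (y0 - o) i := ⟨_, rfl⟩
      have g0 : |g| ≤ 2 * D * t := by
        rw [hg, abs_mul, abs_of_pos (by positivity : 0 < 2 * D)]; gcongr
      have g1 : 2 * D * t ≤ 1 := by nlinarith [mul_nonneg D1.le (sq_nonneg (t - 1))]
      have g2 : |2 * D - g ^ 2| * t ≤ 3 := by
        have := abs_sub (2 * D) (g ^ 2)
        rw [abs_of_pos (by positivity : 0 < 2 * D), abs_pow] at this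
        have g3 : |g| * t ≤ 2 := by nlinarith [mul_le_mul_of_nonneg_right g0 tn]
        nlinarith [mul_le_mul_of_nonneg_right this tn, mul_le_mul (g0.trans g1) g3
          (by positivity) zero_le_one]
      simp only [zero_smul, add_zero, smul_zero, zero_add, ← hg]
      refine (norm_add_le _ _).trans ?_
      simp only [norm_smul, ← ht, norm_mul, norm_neg, Real.norm_eq_abs, abs_of_nonneg η0, abs_two,
        eb_n]
      nlinarith [mul_le_mul_of_nonneg_left g2 η0, mul_le_mul_of_nonneg_left (g0.trans g1) η0]⟩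
  obtain ⟨a', b', l1, rfl⟩ := hL
  have := Finset.sum_nonneg fun i (_ : i ∈ Finset.univ) => ((l1 i).add (k1 i)).min (by
    filter_upwards [(line_t y0 (eb i)).eventually key] with τ hτ
    simpa [e0] using hτ)
  rw [Finset.sum_add_distrib] at this
  linarith [abs_le.1 k2]

end Pool.Agent.H.MP_0f8a1e_an
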