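import Pool.Agent.H.MP_0f8a1e_an.D

set_option linter.unusedSectionVars false
set_option linter.unusedVariables false
set_option linter.dupNamespace false
set_option linter.unusedSimpArgs false

namespace Pool.Agent.H.MP_0f8a1e_an

open Filter Topology Set Metric
open scoped RealInnerProductSpace

variable {ι : Type} [Fintype ι] [DecidableEq ι] [Nonempty ι]
variable {u v w w1 : Eu ι → ℝ} {c x y : Eu ι} {r : ℝ} {Ω : Set (Eu ι)} {f : ℝ → ℝ}
  {L r0 Λ Λ1 K K1 : ℝ}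

lemma mu (hv : Continuous v) (hr : 0 ≤ r) : ∃ μ : Eu ι → ℝ, Continuous μ ∧
    (∀ z, ∀ y ∈ closedBall z r, v y ≤ μ z) ∧ ∀ z, ∃ y ∈ closedBall z r, μ z = v y := by
  have k := fun z => (isCompact_closedBall (0 : Eu ι) r).exists_sSup_image_eq_and_ge
    ⟨0, mem_closedBall_self hr⟩ (f := fun k => v (z + k)) (Continuous.continuousOn (by fun_prop))
  refine ⟨fun z => sSup ((fun k => v (z + k)) '' closedBall 0 r),
    (isCompact_closedBall (0 : Eu ι) r).continuous_sSup (f := fun z k => v (z + k)) (by fun_prop),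
    fun z y hy => ?_, fun z => ?_⟩ <;> obtain ⟨k, k1, k2, k3⟩ := k z
  · simpa [k2] using k3 (y - z) (by simpa [dist_eq_norm] using hy)
  · exact ⟨z + k, by simpa [dist_eq_norm] using k1, k2⟩

lemma Gm.dl_pos (hg : Gm Ω r0) (hx : x ∈ Ω) : 0 < dl Ω x :=
  (hg.op.isClosed_compl.notMem_iff_infDist_pos hg.ne).1 (not_not.2 hx)

lemma zeta (hf : Rx f L) (hg : Gm Ω r0) (h : Sol Ω f v) {σ : ℝ} (σ1 : σ ≤ 1 / 2) :
    ∃ r1 > 0, r1 ≤ r0 ∧ ∃ Z : Eu ι → Eu ι → ℝ, ∃ K ≥ 0, ∃ C ≥ 0, Continuous ↿Z ∧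
      (∀ k x, Z k x ≤ 1 / 2) ∧ (∀ x ∈ closure Ω, ∀ k, ‖k‖ ≤ r1 → ∃ M > 0,
        (∀ y ∈ closedBall x r1, v y ≤ M) ∧ M / 2 ≤ Z k x) ∧
      ∀ x ∈ Ω, ∀ k, ‖k‖ ≤ r1 → ∃ (ζ : Eu ι → ℝ) (Λ M : ℝ), 0 ≤ ζ x ∧ ζ x ≤ Z k x ∧
        (∀ᶠ y in 𝓝 x, ∃ k', ‖k'‖ ≤ r1 ∧ Z k' y ≤ ζ y) ∧ Cv ζ x Λ (K * M) ∧ 0 < M ∧ M ≤ 1 ∧
        (∀ y ∈ closedBall x r1, v y ≤ M) ∧ ((1 - σ ≤ v x ∧ ζ x = 1 / 2 ∧ Λ = 0) ∨
          (v x ≤ 1 - σ ∧ ζ x ≤ C * v x ∧ Λ ≤ C * v x ∧ M ≤ C * v x) ∨ Λ + L * ζ x ≤ -M) := by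
  have r0p := hg.r0
  have r01 := hg.r1
  have L0 : 0 ≤ L := zero_le_one.trans hf.L1
  have C1 := Cd1 (ι := ι) L0
  have d1 := dd1 (ι := ι)
  obtain ⟨r1, p1, e1⟩ : ∃ r1 > 0, r1 * (1600 * Cd ι L) = r0 :=
    ⟨_, by positivity, div_mul_cancel₀ _ (by positivity)⟩
  have p2 : r1 ≤ r0 / 1600 := by nlinarith
  obtain ⟨D, D1, hD⟩ := doub hf hg p1 p2
  obtain ⟨μ, μc, μ1, μ2⟩ := mu h.c (r := 2 * r1) (by linarith)
  obtain ⟨a, a0, ha⟩ : ∃ a > 0, a * r1 ^ 2 = 4 * D :=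
    ⟨_, by positivity, div_mul_cancel₀ _ (by positivity)⟩
  obtain ⟨P, P0, hP⟩ : ∃ P > 0, P * ((1 / 4) ^ Fintype.card ι / 4) = 2 * dd ι * a + 2 * L * D + 1 :=
    ⟨_, by positivity, div_mul_cancel₀ _ (by positivity)⟩
  have q4 := pow_le_of_le_one (by norm_num : (0 : ℝ) ≤ 1 / 4) (by norm_num)
    (Fintype.card_ne_zero (α := ι))
  have P2 : 2 ≤ P := by nlinarith [mul_pos a0 (zero_lt_one.trans_le d1), mul_nonneg L0 (zero_le_one.trans D1)]
  obtain ⟨g, gd⟩ : ∃ g : ℝ → ℝ, g = fun s => P * (1 - (r0 ^ 2 / s ^ 2) ^ Fintype.card ι) := ⟨_, rfl⟩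
  have gm : ∀ s t, 0 < s → s ≤ t → g s ≤ g t := fun s t s0 st => by simp only [gd]; gcongr
  have g0 : g r0 = 0 := by simp [gd, r0p.ne']
  have gc : ∀ s, 0 < s → ContinuousAt g s := fun s s0 => by
    rw [gd]; exact continuousAt_const.mul (continuousAt_const.sub ((continuousAt_const.div
      (by fun_prop) (by positivity)).pow _))
  have g2 : 1 ≤ g (2 * r0) := by
    simp only [gd, show r0 ^ 2 / (2 * r0) ^ 2 = 1 / 4 by field_simp; norm_num]; nlinarith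
  obtain ⟨δ, δ0, hδ⟩ := Metric.eventually_nhds_iff.1 ((gc r0 r0p).eventually_lt
    (continuousAt_const (y := (1 : ℝ))) (by rw [g0]; exact one_pos))
  obtain ⟨H, H1, hH⟩ := harn hf hg (δ0 := min δ r1) (by positivity)
  obtain ⟨K1, K10, hK1⟩ := cv_cpt (isCompact_closedBall (0 : Eu ι) r1) (w := fun y => ‖y - 0‖ ^ 2)
    fun y _ => ((contDiff_norm_sq ℝ).comp (contDiff_id.sub contDiff_const)).contDiffAt
  obtain ⟨K2, K20, hK2⟩ := cv_cpt ((isCompact_closedBall (0 : Eu ι) (2 * r0)).diff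
    (isOpen_ball (x := 0) (ε := r0))) (w := fun y => (r0 ^ 2 / ‖y - 0‖ ^ 2) ^ Fintype.card ι)
    fun y hy => (contDiffAt_const.div ((contDiff_norm_sq ℝ).comp (contDiff_id.sub
      contDiff_const)).contDiffAt (pow_pos (r0p.trans_le (by simpa using hy.2)) 2).ne').pow _
  obtain ⟨ρ, ρd⟩ : ∃ ρ : Eu ι → ℝ, ρ = fun x => min 1 (g (r0 + dl Ω x)) := ⟨_, rfl⟩
  have ρc : Continuous ρ := ρd ▸ continuous_const.min (continuous_iff_continuousAt.2 fun x =>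
    (gc _ (by linarith [dl_nn Ω x])).comp (f := fun x => r0 + dl Ω x)
      (continuous_const.add (continuous_infDist_pt _)).continuousAt)
  have ρ0 : ∀ x, 0 ≤ ρ x := fun x => ρd ▸ le_min zero_le_one
    (g0 ▸ gm _ _ r0p (by linarith [dl_nn Ω x]))
  have ρ1 : ∀ x, ρ x ≤ 1 := fun x => ρd ▸ min_le_left _ _
  obtain ⟨T, Td⟩ : ∃ T : Eu ι → Eu ι → ℝ, T = fun k x => μ (x + k) * (1 + a * ‖k‖ ^ 2 + ρ x) :=
    ⟨_, rfl⟩
  have μ0 : ∀ z, 0 ≤ μ z := fun z => by obtain ⟨y, -, e⟩ := μ2 z; exact e ▸ (h.mem y).1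
  have μ3 : ∀ z, μ z ≤ 1 := fun z => by obtain ⟨y, -, e⟩ := μ2 z; exact e ▸ h.le y
  have μ4 : ∀ x k, ‖k‖ ≤ r1 → ∀ y ∈ closedBall x r1, v y ≤ μ (x + k) := fun x k hk y hy =>
    μ1 _ y (closedBall_subset_closedBall' (by simp; linarith) hy)
  have μ5 : ∀ x ∈ closure Ω, ∀ k, ‖k‖ ≤ r1 → 0 < μ (x + k) := fun x hx k hk => by
    obtain ⟨y, y1, y2⟩ := Metric.mem_closure_iff.1 hx r1 p1
    exact (h.pos y y1).trans_le (μ4 x k hk y (mem_closedBall'.2 y2.le))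
  have T1 : ∀ k x, μ (x + k) ≤ T k x := fun k x => Td ▸ le_mul_of_one_le_right (μ0 _)
    (by linarith [ρ0 x, show 0 ≤ a * ‖k‖ ^ 2 by positivity])
  refine ⟨r1, p1, by linarith, fun k x => min (T k x) (1 / 2), a * K1 + P * K2, by positivity,
    2 * H + 2 * dd ι * a * H, by positivity, Continuous.min (by rw [Td]; fun_prop) continuous_const,
    fun k x => min_le_right _ _, fun x hx k hk => ⟨_, μ5 x hx k hk, μ4 x k hk, le_min
      (by linarith [T1 k x, μ0 (x + k)]) (by linarith [μ3 (x + k)])⟩, fun x hx k0 hk0 => ?_⟩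
  obtain ⟨k, hk, k1, k2⟩ : ∃ k, ‖k‖ ≤ r1 ∧ T k x ≤ T k0 x ∧ T k x ≤ T 0 x := by
    rcases le_total (T k0 x) (T 0 x) with e | e
    exacts [⟨k0, hk0, le_rfl, e⟩, ⟨0, by simpa using p1.le, e, le_rfl⟩]
  obtain ⟨M, hM⟩ : ∃ M, M = μ (x + k) := ⟨_, rfl⟩
  have M0 : 0 < M := hM ▸ μ5 x (subset_closure hx) k hk
  have M1 := μ4 x k hk
  have M2 := T1 k x
  have Tk : T k x = M * (1 + a * ‖k‖ ^ 2 + ρ x) := by rw [Td, hM]
  rw [← hM] at M1 M2
  have T0 : T 0 x ≤ 2 * μ x := by simp only [Td]; simp; linarith [mul_le_mul_of_nonneg_left (ρ1 x) (μ0 x)]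
  have T2 : μ x ≤ D * M := by
    obtain ⟨y, y1, e⟩ := μ2 x; exact e ▸ hD v h x (subset_closure hx) M M1 y y1
  have T3 : min δ r1 ≤ dl Ω x → μ x ≤ H * v x := fun e => by
    obtain ⟨y, y1, e'⟩ := μ2 x
    exact e' ▸ hH v h x y e (by linarith [mem_closedBall.1 y1])
  have v0 := h.pos x hx
  have c0 : 0 ≤ 2 * dd ι * a * H * v x := by positivity
  have KM : 0 ≤ (a * K1 + P * K2) * M := by positivity
  rcases le_total (1 / 2) (T k x) with c1 | c1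
  · refine ⟨fun _ => 1 / 2, 0, M, by norm_num, le_min (c1.trans k1) le_rfl, .of_forall fun y =>
      ⟨0, by simpa using p1.le, min_le_right _ _⟩, (Cv.const _ _).mono rfl KM, M0, hM ▸ μ3 _, M1, ?_⟩
    rcases le_total (1 - σ) (v x) with c2 | c2
    · exact .inl ⟨c2, rfl, rfl⟩
    have := T3 ((min_le_right _ _).trans (not_lt.1 fun c3 => by
      obtain ⟨y, y1, e⟩ := μ2 x
      have l1 := h.decay hf hg (x := y) r0p le_rfl fun z _ => h.le z
      have l2 : dl Ω y / r0 ≤ 3 * r1 / r0 := by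
        gcongr; linarith [dl_lip Ω y x, mem_closedBall.1 y1]
      have l3 : Cd ι L * 1 * (3 * r1 / r0) = 3 / 1600 := by rw [← e1]; field_simp
      linarith [mul_le_mul_of_nonneg_left l2 (show 0 ≤ Cd ι L * 1 by positivity)]))
    exact .inr (.inl ⟨c2, by linarith, by positivity, by linarith⟩)
  have k3 : ‖k‖ < r1 := lt_of_le_of_ne hk fun e => by
    rw [e, ha] at Tk; linarith [mul_nonneg M0.le (ρ0 x), mul_pos M0 (zero_lt_one.trans_le D1)]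
  have k4 : ∀ᶠ y in 𝓝 x, ‖x + k - y‖ < r1 := (show ContinuousAt (fun y => ‖x + k - y‖) x by
    fun_prop).eventually_lt continuousAt_const (by simpa using k3)
  have k5 : Cv (fun y => 1 + a * ‖y - (x + k) - 0‖ ^ 2) x (0 + a * (2 * dd ι)) (0 + |a| * K1) :=
    (Cv.const _ _).add ((hK1 _ (by simpa using hk) _ (Lap.nsq _ _)).shift.cmul a)
  have k6 : ∀ y, T (x + k - y) y = M * (1 + a * ‖y - (x + k) - 0‖ ^ 2 + ρ y) := fun y => by
    simp [Td, hM, norm_sub_rev]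
  have k7 : T k x = M * (1 + a * ‖x - (x + k) - 0‖ ^ 2 + ρ x) := by simpa using k6 x
  have k8 : T k x ≤ min (T k0 x) (1 / 2) := le_min k1 c1
  rw [abs_of_pos a0] at k5
  have Hv := mul_pos (zero_lt_one.trans_le H1) v0
  have vM := M1 x (mem_closedBall_self p1.le)
  rcases le_or_gt 1 (g (r0 + dl Ω x)) with c2 | c2
  · have e : ρ x = 1 := by rw [ρd]; exact min_eq_left c2
    have := T3 ((min_le_left _ _).trans (not_lt.1 fun c3 => absurd (hδ (y := r0 + dl Ω x) (by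
      rwa [Real.dist_eq, add_sub_cancel_left, abs_of_nonneg (dl_nn Ω x)])) (not_lt.2 c2)))
    rw [e] at k7
    have M3 : M ≤ μ x := by
      have : T 0 x = μ x * 2 := by simp only [Td]; simp [e]; norm_num
      rw [e] at Tk
      linarith [mul_nonneg M0.le (show 0 ≤ a * ‖k‖ ^ 2 by positivity)]
    have k9 := mul_nonneg (mul_nonneg P0.le K20) M0.le
    refine ⟨fun y => M * (1 + a * ‖y - (x + k) - 0‖ ^ 2 + 1), _, M, by positivity, k7.ge.trans k8,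
      k4.mono fun y hy => ⟨_, hy.le, (min_le_left _ _).trans
      (k6 y ▸ mul_le_mul_of_nonneg_left (add_le_add_right (ρ1 y) _) M0.le)⟩,
      ((k5.add (Cv.const 1 x)).cmul M).mono rfl (by rw [abs_of_pos M0]; linarith), M0, hM ▸ μ3 _,
      M1, .inr (.inl ⟨by linarith, by linarith, ?_, by linarith⟩)⟩
    linarith [mul_le_mul_of_nonneg_left (M3.trans this) (show 0 ≤ 2 * dd ι * a by positivity)]
  obtain ⟨z, n, n1, n2, -, n4⟩ := hg.near (subset_closure hx)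
  have δ1 := dl_nn Ω x
  have e : ‖x - (z - r0 • n) - 0‖ = r0 + dl Ω x := by
    conv_lhs => rw [n2]
    rw [sub_zero, ← dist_eq_norm, sub_eq_add_neg, ← neg_smul, d_line _ _ n1, abs_of_nonneg
      (by linarith)]; ring
  have δ2 : dl Ω x ≤ r0 :=
    not_lt.1 fun c4 => absurd (g2.trans (gm _ _ (by linarith) (by linarith))) (not_le.2 c2)
  have e2 : ρ x = g ‖x - (z - r0 • n) - 0‖ := by rw [ρd, e]; exact min_eq_right c2.le
  have l1 := ((k5.add (((Cv.const 1 x).add ((hK2 (x - (z - r0 • n)) ⟨by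
    rw [mem_closedBall_iff_norm, e]; linarith, by rw [mem_ball_iff_norm, e]; linarith⟩ _
      (Lap.pw _ (by rw [e]; linarith))).shift.cmul (-1))).cmul P)).cmul M)
  have l2 : ∀ y, M * (1 + a * ‖y - (x + k) - 0‖ ^ 2 + P * (1 + -1 * (r0 ^ 2 /
      ‖y - (z - r0 • n) - 0‖ ^ 2) ^ Fintype.card ι)) = M * (1 + a * ‖y - (x + k) - 0‖ ^ 2 +
        g ‖y - (z - r0 • n) - 0‖) := fun y => by simp only [gd]; ring
  simp only [l2] at l1
  refine ⟨_, _, M, ?_, ?_, ?_, l1.mono rfl (by simp [abs_of_pos M0, abs_of_pos P0, mul_comm]), M0,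
    hM ▸ μ3 _, M1, .inr (.inr ?_)⟩
  · rw [← e2, ← k7]; linarith
  · rw [← e2, ← k7]; exact k8
  · filter_upwards [k4, hg.op.mem_nhds hx] with y y1 y2
    refine ⟨_, y1.le, (min_le_left _ _).trans (k6 y ▸ mul_le_mul_of_nonneg_left (add_le_add_right
      (ρd ▸ (min_le_right _ _).trans (gm _ _ (by linarith [dl_nn Ω y]) ?_)) _) M0.le)⟩
    have y3 : r0 ≤ dist y (z - r0 • n) := not_lt.1 fun y3 => n4 y3 y2
    obtain ⟨p, q1, q2⟩ := exists_dist_le_le (sub_nonneg.2 y3) r0p.le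
      (show dist y (z - r0 • n) ≤ _ by linarith)
    have : dl Ω y ≤ dist y p := infDist_le_dist_of_mem (closure_minimal n4 hg.op.isClosed_compl
      (by rwa [closure_ball _ r0p.ne']))
    rw [sub_zero, ← dist_eq_norm]; linarith
  · rw [← e2, ← k7, e]
    have q : (r0 + dl Ω x) ^ 2 ≤ 4 * r0 ^ 2 := by
      linarith [pow_le_pow_left₀ (by linarith) (show r0 + dl Ω x ≤ 2 * r0 by linarith) 2]
    have t2 : (1 / 4) ^ Fintype.card ι ≤ (r0 ^ 2 / (r0 + dl Ω x) ^ 2) ^ Fintype.card ι :=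
      pow_le_pow_left₀ (by norm_num) (by rw [div_le_div_iff₀ (by norm_num) (by positivity)]; linarith) _
    have t3 : (1 / 4) ^ Fintype.card ι / 4 ≤ (2 * dd ι ^ 2 + 4 * dd ι) *
        (r0 ^ 2 / (r0 + dl Ω x) ^ 2) ^ Fintype.card ι / (r0 + dl Ω x) ^ 2 :=
      div_le_div₀ (by positivity) (t2.trans (le_mul_of_one_le_left (by positivity) (by
        linarith [sq_nonneg (dd ι)]))) (by positivity) (by linarith [pow_le_one₀ r0p.le r01 (n := 2)])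
    have t4 := mul_le_mul_of_nonneg_left (hP ▸ mul_le_mul_of_nonneg_left t3 P0.le) M0.le
    linarith [mul_le_mul_of_nonneg_left (show T k x ≤ 2 * (D * M) by linarith) L0]

end Pool.Agent.H.MP_0f8a1e_an
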