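import Pool.Agent.H.MP_0f8a1e_an.E

set_option linter.unusedSectionVars false
set_option linter.unusedVariables false
set_option linter.dupNamespace false
set_option linter.unusedSimpArgs false

namespace Pool.Agent.H.MP_0f8a1e_an

open Filter Topology Set Metric
open scoped RealInnerProductSpace

variable {ι : Type} [Fintype ι] [DecidableEq ι] [Nonempty ι]
variable {u v w w1 : Eu ι → ℝ} {c x y o : Eu ι} {r : ℝ} {Ω : Set (Eu ι)} {f : ℝ → ℝ}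
  {L r0 Λ Λ1 K K1 : ℝ}

lemma small (A : ℝ) {B : ℝ} (h : 0 < B) : ∀ᶠ η in 𝓝[>] (0 : ℝ), η * A < B :=
  eventually_nhdsWithin_of_eventually_nhds ((show ContinuousAt (fun η : ℝ => η * A) 0 by
    fun_prop).eventually_lt continuousAt_const (by simpa using h))

lemma star (hs : StarConvex ℝ o Ωᶜ) {θ : ℝ} (h0 : 0 ≤ θ) (h1 : θ ≤ 1) (h : Sc o θ y ∈ Ω) : y ∈ Ω := by
  by_contra hy
  refine hs hy (sub_nonneg.2 h1) h0 (sub_add_cancel _ _) ?_
  convert h using 1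
  unfold Sc; module

lemma Sc_d (o : Eu ι) {θ : ℝ} (h0 : 0 ≤ θ) (x y : Eu ι) :
    dist (Sc o θ x) (Sc o θ y) = θ * dist x y := by
  rw [Sc, Sc, dist_add_left, dist_smul₀, dist_sub_right, Real.norm_of_nonneg h0]

lemma Sol.cv (hf : Rx f L) {ρ : ℝ} (ρ0 : 0 < ρ) (ρ1 : ρ ≤ 1) : ∃ K ≥ 0, ∀ (Ω : Set (Eu ι)) v,
    Sol Ω f v → ∀ x M, closedBall x (2 * ρ) ⊆ Ω → (∀ y ∈ closedBall x (2 * ρ), v y ≤ M) →
      Cv v x (-f (v x)) (K * M) := by
  have L0 : 0 ≤ L := zero_le_one.trans hf.L1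
  have d1 := dd1 (ι := ι)
  refine ⟨dd ι * (4 * (dd ι * (dd ι + L) / ρ + dd ι * (2 * dd ι / ρ + L) * (dd ι * (dd ι + L) / ρ))),
    by positivity, fun Ω v h x M h1 h2 => ?_⟩
  have s1 := closedBall_subset_closedBall (x := x) (show ρ ≤ 2 * ρ by linarith)
  have x0 := mem_closedBall_self (x := x) ρ0.le
  have M0 : 0 ≤ M := (h.mem x).1.trans (h2 x (s1 x0))
  have a := h.grad hf ρ0 ρ1 (s1.trans h1) fun y hy => h2 y (s1 hy)
  have b := h.hess hf ρ0 ρ1 h1 h2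
  rw [mul_div_right_comm] at a
  exact (Cv.of (h.c2 x (h1 (s1 x0))) (h.lp (h1 (s1 x0))) (a.trans (le_add_of_nonneg_right
    (by positivity))) (b.trans (le_add_of_nonneg_left (by positivity)))).mono rfl (le_of_eq (by ring))

lemma slide1 (hf : Rx f L) (hg : Gm Ω r0) (hs : StarConvex ℝ o Ωᶜ) (hu : Sol Ω f u) (h : Sol Ω f v)
    {θ1 : ℝ} (t0 : 0 < θ1) (t1 : θ1 < 1) (y1 : Eu ι) : v (Sc o θ1 y1) ≤ u y1 := by
  by_cases hy : Sc o θ1 y1 ∈ Ω
  swap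
  · rw [h.z _ hy]; exact (hu.mem _).1
  have L0 : 0 ≤ L := zero_le_one.trans hf.L1
  have C1 := Cd1 (ι := ι) L0
  obtain ⟨σ', σ0', c, c0, hc⟩ := hf.hi
  obtain ⟨σ, σ0, σ1, σ2⟩ : ∃ σ > 0, σ ≤ σ' ∧ σ ≤ 1 / 2 :=
    ⟨min σ' (1 / 2), by positivity, min_le_left _ _, min_le_right _ _⟩
  obtain ⟨l, l0, hl⟩ := hf.lo σ σ0
  obtain ⟨r1, p1, p2, Z, K, K0, C, C0, Zc, Z1, Z2, Z3⟩ := zeta hf hg h σ2
  obtain ⟨γ, γd⟩ : ∃ γ, γ = (1 - ((1 + θ1) / 2) ^ 2) * l := ⟨_, rfl⟩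
  have γ0 : 0 < γ := γd ▸ mul_pos (sub_pos.2 (pow_lt_one₀ (by positivity) (by linarith)
    two_ne_zero)) l0
  refine ge_of_tendsto (x := 𝓝[>] 0) (f := fun ε : ℝ => u y1 + ε * (1 / 2)) (by
    simpa using (show Continuous fun ε : ℝ => u y1 + ε * (1 / 2) by fun_prop).tendsto 0
      |>.mono_left nhdsWithin_le_nhds) ?_
  filter_upwards [small 1 σ0, small (L * C + C) (half_pos γ0), self_mem_nhdsWithin]
    with ε ε1 ε2 (ε0 : 0 < ε)
  by_contra hb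
  obtain ⟨δ, δ0, δd⟩ : ∃ δ > 0, δ * (8 * Cd ι L) = ε * r1 :=
    ⟨_, by positivity, div_mul_cancel₀ _ (by positivity)⟩
  obtain ⟨R, R0, hR⟩ := hair (ι := ι) hf (half_pos ε0)
  obtain ⟨θK, θ0, θd⟩ : ∃ θK > 0, θK * (2 * R) = δ :=
    ⟨_, by positivity, div_mul_cancel₀ _ (by positivity)⟩
  obtain ⟨Kv, Kv0, hKv⟩ := Sol.cv (ι := ι) hf (ρ := min (δ / 4) (r1 / 2)) (by positivity)
    ((min_le_right _ _).trans (by linarith [hg.r1]))
  have F1 : ∀ θ y k, 0 ≤ θ → θ ≤ 1 → Sc o θ y ∈ closure Ω → ‖k‖ ≤ r1 →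
      u y + (ε * Z k (Sc o θ y) - v (Sc o θ y)) ≤ 0 → δ ≤ dl Ω (Sc o θ y) ∧ θK < θ :=
    fun θ y k a0 a1 a2 a3 a4 => by
    obtain ⟨M, M0, M1, M2⟩ := Z2 _ a2 k a3
    have b1 := h.decay hf hg (x := Sc o θ y) (ρ := r1 / 4) (by positivity) (by linarith)
      fun z hz => M1 z (closedBall_subset_closedBall (by linarith) hz)
    have b2 := mul_le_mul_of_nonneg_left M2 ε0.le
    have b3 : δ ≤ dl Ω (Sc o θ y) := by
      rw [← mul_div_assoc, le_div_iff₀ (by positivity)] at b1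
      refine le_of_mul_le_mul_left (a := Cd ι L * M) ?_ (by positivity)
      have : Cd ι L * M * δ = ε * (M / 2) * (r1 / 4) := by linear_combination M / 8 * δd
      linarith [mul_le_mul_of_nonneg_right (show ε * (M / 2) ≤ v (Sc o θ y) by
        linarith [(hu.mem y).1]) (show 0 ≤ r1 / 4 by positivity)]
    refine ⟨b3, not_le.1 fun a5 => ?_⟩
    have := hR Ω u hu y fun z hz => star hs a0 a1 (dl_ball Ω (Sc o θ y) (by
      rw [mem_ball, Sc_d o a0]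
      linarith [mul_le_mul a5 (mem_closedBall.1 hz) dist_nonneg θ0.le, mul_pos θ0 R0]))
    linarith [mul_le_mul_of_nonneg_left (M1 _ (mem_closedBall_self p1.le)) ε0.le, mul_nonneg
      (show 0 ≤ 1 - ε / 2 by linarith) (sub_nonneg.2 (h.le (Sc o θ y)))]
  obtain ⟨η, ⟨⟨⟨⟨η1, η2⟩, η3⟩, η4⟩, η5⟩, (η0 : 0 < η)⟩ := (((((small 5 one_pos).and
    (small (Real.log (1 + ‖y1 - o‖ ^ 2)) (half_pos (sub_pos.2 t1)))).and
    (small (5 * (ε * K + Kv)) (mul_pos c0 (half_pos ε0)))).and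
    (small (5 * (ε * K + Kv) * C) (half_pos γ0))).and
    (small (5 * (ε * K + Kv)) (mul_pos (pow_pos θ0 2) ε0)) |>.and self_mem_nhdsWithin).exists
  have G0 : ∀ y, 0 ≤ Gl o η y := fun y =>
    mul_nonneg η0.le (Real.log_nonneg (le_add_of_nonneg_right (sq_nonneg _)))
  have G1 : ∀ y, Gl o η y ≤ 1 → y ∈ closedBall o (Real.exp (1 / η)) := fun y hy => by
    rw [Gl, ← le_div_iff₀' η0, Real.log_le_iff_le_exp (by positivity)] at hy
    rw [mem_closedBall_iff_norm]; linarith [sq_nonneg (‖y - o‖ - 1), norm_nonneg (y - o)]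
  have G2 : θ1 + Gl o η y1 < (1 + θ1) / 2 := by unfold Gl; linarith
  have Sc_c : Continuous fun p : Eu ι × ℝ × Eu ι => Sc o p.2.1 p.1 := by unfold Sc; fun_prop
  have hb' : u y1 + (ε * Z 0 (Sc o θ1 y1) - v (Sc o θ1 y1)) ≤ 0 := by
    linarith [mul_le_mul_of_nonneg_left (Z1 0 (Sc o θ1 y1)) ε0.le]
  have i1 : (y1, θ1, (0 : Eu ι)) ∈ (closedBall o (Real.exp (1 / η)) ×ˢ Icc (0 : ℝ) 1 ×ˢ
      closedBall (0 : Eu ι) r1) ∩ ({p : Eu ι × ℝ × Eu ι | Sc o p.2.1 p.1 ∈ closure Ω} ∩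
        {p | u p.1 + (ε * Z p.2.2 (Sc o p.2.1 p.1) - v (Sc o p.2.1 p.1)) ≤ 0}) :=
    ⟨⟨G1 y1 (by linarith), ⟨t0.le, t1.le⟩, mem_closedBall_self p1.le⟩, subset_closure hy, hb'⟩
  obtain ⟨⟨y0, θ, k⟩, ⟨⟨-, a1, a2⟩, a3, a4⟩, a5⟩ := (((isCompact_closedBall _ _).prod
    (isCompact_Icc.prod (isCompact_closedBall _ _))).inter_right ((isClosed_closure.preimage
      Sc_c).inter (isClosed_le ((hu.c.comp continuous_fst).add ((continuous_const.mul (Zc.comp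
        (continuous_snd.snd.prodMk Sc_c))).sub (h.c.comp Sc_c))) continuous_const))).exists_isMinOn
    ⟨_, i1⟩ (f := fun p => p.2.1 + Gl o η p.1) (Continuous.continuousOn (by
      have := Gl_c o η; fun_prop))
  have a6 : θ + Gl o η y0 ≤ θ1 + Gl o η y1 := a5 i1
  have a7 : ‖k‖ ≤ r1 := by simpa using a2
  obtain ⟨b1, b2⟩ := F1 θ y0 k a1.1 a1.2 a3 a7 a4
  have b3 := dl_mem (δ0.trans_le b1)
  have b4 := star hs a1.1 a1.2 b3
  have b5 : θ < (1 + θ1) / 2 := by linarith [G0 y0]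
  obtain ⟨ζ, Λ, M, z0, z1, z2, z3, M0, M1, M2, z4⟩ := Z3 _ b3 k a7
  have b6 := hKv Ω v h _ M ((closedBall_subset_ball (by
    linarith [min_le_left (δ / 4) (r1 / 2)])).trans (dl_ball Ω _)) fun y hy => M2 y
      (closedBall_subset_closedBall (by linarith [min_le_right (δ / 4) (r1 / 2)]) hy)
  have Sc2 : Continuous fun p : Eu ι × ℝ => Sc o p.2 p.1 := by unfold Sc; fun_prop
  obtain ⟨e1, e2⟩ := touch (o := o) a1.1 a1.2 η0.le (by linarith) (hu.lp b4)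
    ((z3.cmul ε).add (b6.cmul (-1))) (by
      have : u y0 + (ε * Z k (Sc o θ y0) - v (Sc o θ y0)) ≤ 0 := a4
      linarith [mul_le_mul_of_nonneg_left z1 ε0.le]) (by
      filter_upwards [(Sc2.tendsto (y0, θ)).eventually (z2.and (hg.op.mem_nhds b3)),
        (continuous_snd.tendsto (y0, θ)).eventually (lt_mem_nhds (θ0.trans b2))] with p q1 q2 q3
      obtain ⟨⟨k', q4, q5⟩, q6⟩ := q1
      have q7 := G0 p.1
      by_contra q8
      have := a5 (show (p.1, p.2, k') ∈ _ from ⟨⟨G1 _ (by linarith), ⟨q2.le, by linarith⟩, by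
        simpa using q4⟩, subset_closure q6, by
          show u p.1 + (ε * Z k' (Sc o p.2 p.1) - v (Sc o p.2 p.1)) ≤ 0
          linarith [mul_le_mul_of_nonneg_left q5 ε0.le]⟩)
      exact absurd q3 (not_lt.2 this))
  simp only [abs_of_pos ε0, abs_neg, abs_one] at e1 e2
  obtain ⟨V, hV⟩ : ∃ V, V = v (Sc o θ y0) := ⟨_, rfl⟩
  have V1 := h.mem (Sc o θ y0)
  have V0 := h.pos _ b3
  have U1 := hu.mem y0
  rw [← hV] at e1 e2 z4 V1 V0
  have f1 := hf.nn _ V1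
  have f2 := hf.nn _ U1
  have f3 := (abs_le.1 (hf.lip _ V1 _ U1)).2
  rw [show V - u y0 = ε * ζ (Sc o θ y0) by linarith, abs_of_nonneg (by positivity)] at f3
  have θ2 : θ ^ 2 ≤ 1 := pow_le_one₀ a1.1 a1.2
  have KK : 0 ≤ η * (5 * (ε * K + Kv)) := by positivity
  rcases z4 with ⟨c1, c2, c3⟩ | ⟨c1, c2, c3, c4⟩ | c1
  · rw [c2] at e1
    have := hc (u y0) V (by linarith) (by linarith) V1.2
    rw [show V - u y0 = ε / 2 by linarith] at this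
    rw [c3] at e2
    linarith [mul_le_mul_of_nonneg_right θ2 f1, mul_le_mul_of_nonneg_left M1 KK]
  · have g1 : γ * V ≤ (1 - θ ^ 2) * f V := by
      rw [γd, mul_assoc]
      exact mul_le_mul (sub_le_sub_left (pow_le_pow_left₀ a1.1 b5.le 2) 1) (hl V ⟨V1.1, c1⟩) (by positivity) (by linarith)
    have g2 : θ ^ 2 * Λ ≤ C * V := (mul_le_mul_of_nonneg_left c3 (sq_nonneg _)).trans
      (mul_le_of_le_one_left (by positivity) θ2)
    linarith [mul_le_mul_of_nonneg_left g2 ε0.le, mul_le_mul_of_nonneg_left c4 KK,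
      mul_le_mul_of_nonneg_left c2 (mul_nonneg L0 ε0.le), mul_lt_mul_of_pos_right ε2 V0,
      mul_lt_mul_of_pos_right η4 V0]
  · have g1 : θK ^ 2 ≤ θ ^ 2 := pow_le_pow_left₀ θ0.le b2.le 2
    linarith [mul_le_mul_of_nonneg_right θ2 f2, mul_le_mul_of_nonneg_left f3 (sq_nonneg θ),
      mul_le_mul_of_nonneg_left c1 (mul_nonneg (sq_nonneg θ) ε0.le), mul_lt_mul_of_pos_right η5 M0,
      mul_le_mul_of_nonneg_right g1 (mul_pos ε0 M0).le]

theorem slide (hf : Rx f L) (hg : Gm Ω r0) (hs : StarConvex ℝ o Ωᶜ) (hu : Sol Ω f u)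
    (h : Sol Ω f v) (y : Eu ι) : v y ≤ u y := by
  have t : Tendsto (fun θ => v (Sc o θ y)) (𝓝[<] 1) (𝓝 (v y)) := by
    have := h.c
    simpa [Sc] using (show Continuous fun θ : ℝ => v (o + θ • (y - o)) by fun_prop).tendsto 1
      |>.mono_left nhdsWithin_le_nhds
  exact le_of_tendsto t (Filter.Eventually.mono (Ioo_mem_nhdsLT one_pos) fun θ hθ => slide1 hf hg hs hu h hθ.1 hθ.2 y)

end Pool.Agent.H.MP_0f8a1e_an
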