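import Pool.Agent.H.MP_0f8a1e_an.F

set_option linter.unusedSectionVars false
set_option linter.unusedVariables false
set_option linter.dupNamespace false
set_option linter.unusedSimpArgs false

namespace Pool.Agent.H.MP_0f8a1e_an

open Filter Topology Set Metric
open scoped RealInnerProductSpace ContDiff Laplacian

variable {ι : Type} [Fintype ι] [DecidableEq ι] [Nonempty ι]

lemma lap_eq (u : Eu ι → ℝ) (x : Eu ι) :
    lap u x = ∑ i, iteratedFDeriv ℝ 2 u x (fun _ => EuclideanSpace.single i (1 : ℝ)) := by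
  simp [lap, iteratedFDeriv_two_apply, eb]

lemma resolv {Λ : ℝ} (hΛ : 0 < Λ) {g : Eu ι → ℝ} (hg : ContDiff ℝ ∞ g) (hc : HasCompactSupport g) :
    ∃ u : Eu ι → ℝ, ContDiff ℝ ∞ u ∧ (∃ B, ∀ x, |u x| ≤ B) ∧ ∀ x, lap u x = Λ * u x - g x := by
  obtain ⟨m, md⟩ : ∃ m : Eu ι → ℝ, m = fun ξ => Λ⁻¹ * (1 + ‖(2 * Real.pi / √Λ) • ξ‖ ^ 2) ^ (-1 : ℝ) :=
    ⟨_, rfl⟩
  have hm : m.HasTemperateGrowth := md ▸ (Function.HasTemperateGrowth.const _).mul
    ((Function.hasTemperateGrowth_one_add_norm_sq_rpow (Eu ι) (-1)).comp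
      ((2 * Real.pi / √Λ) • ContinuousLinearMap.id ℝ (Eu ι)).hasTemperateGrowth)
  have e : ∀ ξ, -(2 * Real.pi) ^ 2 * (‖ξ‖ ^ 2 * m ξ) = Λ * m ξ - 1 := fun ξ => by
    simp only [md, Real.rpow_neg_one, norm_smul, mul_pow, Real.norm_eq_abs, sq_abs, div_pow,
      Real.sq_sqrt hΛ.le]
    field_simp; ring
  obtain ⟨G, Gd⟩ : ∃ G : SchwartzMap (Eu ι) ℂ, ∀ x, G x = g x :=
    ⟨(hc.comp_left (g := Complex.ofReal) rfl).toSchwartzMap (Complex.ofRealCLM.contDiff.comp hg),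
      fun x => rfl⟩
  obtain ⟨U, Ud⟩ : ∃ U, U = SchwartzMap.fourierMultiplierCLM ℂ m G := ⟨_, rfl⟩
  have key : Δ U = Λ • U - G := by
    rw [SchwartzMap.laplacian_eq_fourierMultiplierCLM, Ud,
      SchwartzMap.fourierMultiplierCLM_fourierMultiplierCLM_apply (by fun_prop) hm]
    conv_rhs => rw [← FourierTransform.fourierInv_fourier_eq (F := SchwartzMap (Eu ι) ℂ) G]
    simp only [SchwartzMap.fourierMultiplierCLM_apply, FourierTransform.fourier_fourierInv_eq]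
    rw [← FourierTransform.fourierInv_smul, ← FourierTransform.fourierInv_smul, sub_eq_add_neg,
      ← neg_one_smul ℝ (FourierTransformInv.fourierInv _), ← FourierTransform.fourierInv_smul, ← FourierTransform.fourierInv_add]
    congr 1
    ext ξ
    have : ((fun ξ : Eu ι => ‖ξ‖ ^ 2) * m).HasTemperateGrowth := by fun_prop
    simp only [_root_.smul_apply, _root_.add_apply,
      SchwartzMap.smulLeftCLM_apply_apply this, SchwartzMap.smulLeftCLM_apply_apply hm, smul_smul,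
      Pi.mul_apply, e, ← add_smul, sub_eq_add_neg]
  obtain ⟨B, -, hB⟩ := U.decay 0 0
  refine ⟨Complex.reCLM ∘ U, Complex.reCLM.contDiff.comp (U.smooth ⊤), ⟨B, fun x =>
    (Complex.abs_re_le_norm _).trans (by simpa using hB x)⟩, fun x => ?_⟩
  have := (U.smooth 2).contDiffAt.laplacian_CLM_comp_left (l := Complex.reCLM) (x := x)
  rw [InnerProductSpace.laplacian_eq_iteratedFDeriv_orthonormalBasis _
    (EuclideanSpace.basisFun ι ℝ), Function.comp_apply, ← SchwartzMap.laplacian_apply, key] at this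
  simpa [lap, iteratedFDeriv_two_apply, eb, Gd] using this

lemma cmp {W : Eu ι → ℝ} {Λ B : ℝ} (hΛ : 0 < Λ) (hc : Continuous W) (hB : ∀ x, B ≤ W x)
    (h : ∀ x, ∃ L ≤ Λ * W x, Lap W x L) (x : Eu ι) : 0 ≤ W x := not_lt.1 fun h0 =>
  oy isClosed_univ hc.continuousOn (fun x _ => hB x) (mem_univ x) (κ := -(Λ * W x))
    (neg_pos.2 (mul_neg_of_pos_of_neg hΛ h0)) fun y _ hy => ⟨univ_mem, by
      obtain ⟨L, h1, h2⟩ := h y
      exact ⟨L, h1.trans (by rw [neg_neg]; gcongr), h2⟩⟩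

variable {l : Filter ℕ} [NeBot l] {U : Set (Eu ι)} {w g : ℕ → Eu ι → ℝ} {w0 g0 : Eu ι → ℝ}

lemma tlu_c {Y : Type} [NormedAddCommGroup Y] [CompleteSpace Y] {F : ℕ → Eu ι → Y}
    (h : ∀ ε > 0, ∀ x ∈ U, ∃ t ∈ 𝓝 x, ∀ᶠ p in l ×ˢ l, ∀ y ∈ t, ‖F p.1 y - F p.2 y‖ ≤ ε) :
    ∃ G, TendstoLocallyUniformlyOn F G l U := by
  have : ∀ x, ∃ a, x ∈ U → Tendsto (F · x) l (𝓝 a) := fun x => by
    by_cases hx : x ∈ U
    · obtain ⟨a, ha⟩ := cauchy_map_iff_exists_tendsto.1 (cauchy_map_iff'.2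
        (uniformity_basis_dist_le.tendsto_right_iff.2 fun ε ε0 => by
          obtain ⟨t, t1, t2⟩ := h ε ε0 x hx
          exact t2.mono fun p hp => by simpa [dist_eq_norm] using hp x (mem_of_mem_nhds t1)) :
            Cauchy (l.map (F · x)))
      exact ⟨a, fun _ => ha⟩
    · exact ⟨0, fun h' => absurd h' hx⟩
  choose G hG using this
  refine ⟨G, Metric.tendstoLocallyUniformlyOn_iff.2 fun ε ε0 x hx => ?_⟩
  obtain ⟨t, t1, t2⟩ := h (ε / 2) (half_pos ε0) x hx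
  refine ⟨t ∩ U, inter_mem (mem_nhdsWithin_of_mem_nhds t1) self_mem_nhdsWithin,
    t2.curry.mono fun n hn y hy => ?_⟩
  rw [dist_comm, dist_eq_norm]
  exact (le_of_tendsto ((hG y hy.2).const_sub _).norm (hn.mono fun m hm => hm y hy.1)).trans_lt
    (half_lt_self ε0)

lemma uc {Y : Type} [NormedAddCommGroup Y] {F : ℕ → Eu ι → Y} {G : Eu ι → Y} (hU : IsOpen U)
    (h : TendstoLocallyUniformlyOn F G l U) {x : Eu ι} {r ε : ℝ} (hK : closedBall x r ⊆ U)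
    (ε0 : 0 < ε) : ∀ᶠ p in l ×ˢ l, ∀ y ∈ closedBall x r, ‖F p.1 y - F p.2 y‖ ≤ ε :=
  (((tendstoLocallyUniformlyOn_iff_forall_isCompact hU).1 h _ hK
    (isCompact_closedBall x r)).uniformCauchySeqOn _ (dist_mem_uniformity ε0)).mono
      fun p hp y hy => by rw [← dist_eq_norm]; exact le_of_lt (hp y hy)

lemma ball2 (hU : IsOpen U) {x : Eu ι} (hx : x ∈ U) (k : ℝ) (hk : 0 < k) :
    ∃ ρ > 0, closedBall x (k * ρ) ⊆ U := by
  obtain ⟨r, r0, hr⟩ := nhds_basis_closedBall.mem_iff.1 (hU.mem_nhds hx)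
  exact ⟨r / k, by positivity, by rwa [mul_div_cancel₀ _ hk.ne']⟩

lemma cb {x y : Eu ι} {ρ s : ℝ} (hy : y ∈ closedBall x ρ) : closedBall y s ⊆ closedBall x (s + ρ) :=
  closedBall_subset_closedBall' (by linarith [mem_closedBall.1 hy])

lemma L0 (hw : ∀ x ∈ U, ∃ ρ > 0, ∃ N, ∀ᶠ n in l, ∀ y ∈ closedBall x (ρ + ρ),
      ContDiffAt ℝ 2 (w n) y ∧ |w n y| ≤ 1 ∧ |lap (w n) y| ≤ N)
    (hp : ∀ x ∈ U, ∃ a, Tendsto (w · x) l (𝓝 a)) : ∃ w0, TendstoLocallyUniformlyOn w w0 l U := by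
  refine tlu_c fun ε ε0 x hx => ?_
  obtain ⟨ρ, ρ0, N, h⟩ := hw x hx
  obtain ⟨a, ha⟩ := hp x hx
  obtain ⟨K, hK⟩ : ∃ K, K = dd ι * (dd ι * 1 / ρ + N * ρ / 2) := ⟨_, rfl⟩
  obtain ⟨s, ⟨s1, s2⟩, (s0 : 0 < s)⟩ := ((small |K| (show 0 < ε / 4 by positivity)).and
    (small 1 ρ0) |>.and self_mem_nhdsWithin).exists
  have h2 : ∀ᶠ n in l, ∀ y ∈ closedBall x s, |w n y - a| ≤ ε / 2 := by
    filter_upwards [h, Metric.tendsto_nhds.1 ha (ε / 4) (by positivity)] with n h1 h2 y hy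
    have s3 := closedBall_subset_closedBall (x := x) (show ρ ≤ ρ + ρ by linarith)
    have := (convex_closedBall x ρ).norm_image_sub_le_of_norm_fderiv_le (C := |K|) (f := w n)
      (fun z hz => (h1 z (s3 hz)).1.differentiableAt two_ne_zero) (fun z hz => (gb (N := N) ρ0
        (fun z' hz' => (h1 z' (cb hz hz')).1.continuousAt.continuousWithinAt) (fun z' hz' =>
          ⟨_, Lap.of (h1 z' (cb hz (ball_subset_closedBall hz'))).1,
            (h1 z' (cb hz (ball_subset_closedBall hz'))).2.2⟩) (fun z' hz' => (h1 z' (cb hz hz')).2.1)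
        ((h1 z (s3 hz)).1.differentiableAt two_ne_zero).hasFDerivAt).trans (hK ▸ le_abs_self K))
      (mem_closedBall_self ρ0.le) (closedBall_subset_closedBall (by linarith) hy)
    have := this.trans (mul_le_mul_of_nonneg_left (mem_closedBall_iff_norm.1 hy) (abs_nonneg _))
    rw [Real.dist_eq] at h2
    exact (abs_sub_le _ (w n x) _).trans (by rw [Real.norm_eq_abs] at this; linarith)
  refine ⟨_, closedBall_mem_nhds x s0, (h2.prod_mk h2).mono fun p hp y hy => ?_⟩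
  exact (abs_sub_le _ a _).trans (by linarith [hp.1 y hy, hp.2 y hy, abs_sub_comm a (w p.2 y)])

lemma L1 (hU : IsOpen U) (hw : ∀ᶠ n in l, ∀ y ∈ U, ContDiffAt ℝ 2 (w n) y ∧ lap (w n) y = g n y)
    (h1 : TendstoLocallyUniformlyOn w w0 l U) (h2 : TendstoLocallyUniformlyOn g g0 l U) :
    ∃ D, TendstoLocallyUniformlyOn (fun n => fderiv ℝ (w n)) D l U := by
  refine tlu_c fun ε ε0 x hx => ?_
  obtain ⟨ρ, ρ0, hρ⟩ := ball2 hU hx 2 two_pos
  rw [two_mul] at hρ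
  obtain ⟨η, η1, (η0 : 0 < η)⟩ := ((small (dd ι * (dd ι / ρ + ρ / 2)) ε0).and
    self_mem_nhdsWithin).exists
  refine ⟨_, closedBall_mem_nhds x ρ0, ?_⟩
  filter_upwards [hw.prod_mk hw, uc hU h1 hρ η0, uc hU h2 hρ η0] with p k1 k2 k3 y hy
  have s := (cb (s := ρ) hy).trans hρ
  have y0 := s (mem_closedBall_self ρ0.le)
  refine (gb (w := fun z => w p.1 z - w p.2 z) (M := η) (N := η) ρ0 (fun z hz =>
    ((k1.1 z (s hz)).1.sub (k1.2 z (s hz)).1).continuousAt.continuousWithinAt) (fun z hz => ?_)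
    (fun z hz => k2 z (cb hy hz)) (((k1.1 y y0).1.differentiableAt two_ne_zero).hasFDerivAt.sub
      ((k1.2 y y0).1.differentiableAt two_ne_zero).hasFDerivAt)).trans (by
        rw [mul_div_right_comm]; linarith)
  have z0 := ball_subset_closedBall hz
  exact ⟨_, (Lap.of (k1.1 z (s z0)).1).sub (Lap.of (k1.2 z (s z0)).1), by
    rw [(k1.1 z (s z0)).2, (k1.2 z (s z0)).2]; exact k3 z (cb hy z0)⟩

lemma fd_lim {Y : Type} [NormedAddCommGroup Y] [NormedSpace ℝ Y] {F : ℕ → Eu ι → Y} {G : Eu ι → Y}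
    {D : Eu ι → Eu ι →L[ℝ] Y} (hU : IsOpen U) (hw : ∀ᶠ n in l, ∀ y ∈ U, DifferentiableAt ℝ (F n) y)
    (h1 : TendstoLocallyUniformlyOn F G l U)
    (h2 : TendstoLocallyUniformlyOn (fun n => fderiv ℝ (F n)) D l U) {x : Eu ι} (hx : x ∈ U) :
    HasFDerivAt G (D x) x :=
  hasFDerivAt_of_tendstoUniformlyOnFilter (by
    simpa [hU.nhdsWithin_eq hx] using tendstoLocallyUniformlyOn_iff_filter.1 h2 x hx)
    ((hw.prod_mk (hU.mem_nhds hx)).mono fun p hp => (hp.1 _ hp.2).hasFDerivAt)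
    (mem_of_superset (hU.mem_nhds hx) fun y hy => h1.tendsto_at hy)

lemma L2 (hU : IsOpen U) (hw : ∀ᶠ n in l, ∀ y ∈ U, ContDiffAt ℝ 2 (w n) y ∧ lap (w n) y = g n y)
    (h1 : TendstoLocallyUniformlyOn w w0 l U) (h2 : TendstoLocallyUniformlyOn g g0 l U)
    {g' : ℕ → Eu ι → Eu ι →L[ℝ] ℝ} {G : Eu ι → Eu ι →L[ℝ] ℝ}
    (hg : ∀ n, ∀ y ∈ U, HasFDerivAt (g n) (g' n y) y) (h3 : TendstoLocallyUniformlyOn g' G l U) :
    ∀ x ∈ U, ContDiffAt ℝ 2 w0 x ∧ lap w0 x = g0 x := by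
  obtain ⟨D, hD⟩ := L1 hU hw h1 h2
  have d1 := dd1 (ι := ι)
  obtain ⟨D2, hD2⟩ : ∃ D2, TendstoLocallyUniformlyOn (fun n => fderiv ℝ (fderiv ℝ (w n))) D2 l U := by
    refine tlu_c (Y := Eu ι →L[ℝ] Eu ι →L[ℝ] ℝ) fun ε ε0 x hx => ?_
    obtain ⟨ρ, ρ0, hρ⟩ := ball2 hU hx 2 two_pos
    rw [two_mul] at hρ
    obtain ⟨η, η1, (η0 : 0 < η)⟩ := ((small (dd ι * (dd ι / (ρ / 2) + ρ / 2 / 2)) ε0).and
      self_mem_nhdsWithin).exists
    refine ⟨_, closedBall_mem_nhds x ρ0, ?_⟩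
    filter_upwards [hw.prod_mk hw, uc hU hD hρ η0, uc hU h3 hρ η0] with p k1 k2 k3 y hy
    have s := (cb (s := ρ) hy).trans hρ
    have y0 := s (mem_closedBall_self ρ0.le)
    have e : ∀ z ∈ U, fderiv ℝ (fun z => w p.1 z - w p.2 z) z = fderiv ℝ (w p.1) z -
        fderiv ℝ (w p.2) z := fun z hz => fderiv_fun_sub ((k1.1 z hz).1.differentiableAt two_ne_zero)
          ((k1.2 z hz).1.differentiableAt two_ne_zero)
    have e2 : ∀ z ∈ U, lap (fun z => w p.1 z - w p.2 z) z = g p.1 z - g p.2 z := fun z hz => by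
      rw [← (k1.1 z hz).2, ← (k1.2 z hz).2]
      exact (Lap.of ((k1.1 z hz).1.sub (k1.2 z hz).1)).uq ((Lap.of (k1.1 z hz).1).sub
        (Lap.of (k1.2 z hz).1))
    have := hb (w := fun z => w p.1 z - w p.2 z) (G := η) (N := η) ρ0 (fun z hz =>
      (k1.1 z (s hz)).1.sub (k1.2 z (s hz)).1) (fun z hz => e z (s hz) ▸ k2 z (cb hy hz))
      (fun z hz z' hz' => by
        rw [e2 z (s hz), e2 z' (s hz')]
        exact (convex_closedBall y ρ).norm_image_sub_le_of_norm_hasFDerivWithin_le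
          (f := fun z => g p.1 z - g p.2 z) (fun a ha => ((hg _ a (s ha)).sub
            (hg _ a (s ha))).hasFDerivWithinAt) (fun a ha => k3 a (cb hy ha)) hz' hz) η0.le
    rw [Filter.EventuallyEq.fderiv_eq (mem_of_superset (hU.mem_nhds y0) e), fderiv_fun_sub
      (((k1.1 y y0).1.fderiv_right (m := 1) le_rfl).differentiableAt one_ne_zero)
      (((k1.2 y y0).1.fderiv_right (m := 1) le_rfl).differentiableAt one_ne_zero)] at this
    exact this.trans (by rw [mul_div_right_comm]; linarith)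
  have a1 := fun x hx => fd_lim hU (hw.mono fun n hn y hy => (hn y hy).1.differentiableAt
    two_ne_zero) h1 hD (x := x) hx
  have a2 := fun x hx => fd_lim hU (hw.mono fun n hn y hy => ((hn y hy).1.fderiv_right (m := 1)
    le_rfl).differentiableAt one_ne_zero) hD hD2 (x := x) hx
  have a3 := hD2.continuousOn (hw.mono fun n hn y hy => (((hn y hy).1.fderiv_right (m := 1)
    le_rfl).fderiv_right (m := 0) le_rfl).continuousAt.continuousWithinAt).frequently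
  intro x hx
  have x0 := hU.mem_nhds hx
  refine ⟨contDiffAt_succ_iff_hasFDerivAt.2 ⟨D, ⟨U, x0, a1⟩, contDiffAt_succ_iff_hasFDerivAt.2
    ⟨D2, ⟨U, x0, a2⟩, contDiffAt_zero.2 ⟨U, x0, a3⟩⟩⟩, ?_⟩
  have e : fderiv ℝ (fderiv ℝ w0) x = D2 x := by
    rw [Filter.EventuallyEq.fderiv_eq (mem_of_superset x0 fun y hy => (a1 y hy).fderiv),
      (a2 x hx).fderiv]
  refine tendsto_nhds_unique (((show Continuous fun A : Eu ι →L[ℝ] Eu ι →L[ℝ] ℝ =>
    ∑ i, A (eb i) (eb i) by fun_prop).tendsto _).comp (e ▸ hD2.tendsto_at hx))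
    ((h2.tendsto_at hx).congr' (hw.mono fun n hn => (hn x hx).2.symm))

lemma tlu_comp {F : ℕ → ℝ → ℝ} {F0 : ℝ → ℝ} (h1 : TendstoLocallyUniformlyOn w w0 l U)
    (hw : ∀ n y, w n y ∈ Icc (0 : ℝ) 1) (hF : TendstoUniformlyOn F F0 l (Icc 0 1))
    (hc : Continuous F0) :
    TendstoLocallyUniformlyOn (fun n y => F n (w n y)) (fun y => F0 (w0 y)) l U := by
  rw [Metric.tendstoLocallyUniformlyOn_iff] at h1 ⊢
  intro ε ε0 x hx
  obtain ⟨δ, δ0, hδ⟩ := Metric.uniformContinuousOn_iff.1 ((isCompact_Icc (a := (-1 : ℝ))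
    (b := 2)).uniformContinuousOn_of_continuous hc.continuousOn) (ε / 2) (half_pos ε0)
  obtain ⟨t, t1, t2⟩ := h1 (min δ 1) (by positivity) x hx
  refine ⟨t, t1, ?_⟩
  filter_upwards [t2, Metric.tendstoUniformlyOn_iff.1 hF (ε / 2) (half_pos ε0)] with n k1 k2 y hy
  have a := abs_lt.1 ((k1 y hy).trans_le (min_le_right _ _))
  have b := hw n y
  linarith [dist_triangle (F0 (w0 y)) (F0 (w n y)) (F n (w n y)), k2 _ b, hδ (w0 y)
    ⟨by linarith [b.1], by linarith [b.2]⟩ (w n y) ⟨by linarith [b.1], by linarith [b.2]⟩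
    ((k1 y hy).trans_le (min_le_left _ _))]

end Pool.Agent.H.MP_0f8a1e_an
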