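import Pool.Agent.H.MP_0f8a1e_an.G

set_option linter.unusedSectionVars false
set_option linter.unusedVariables false
set_option linter.dupNamespace false
set_option linter.unusedSimpArgs false

namespace Pool.Agent.H.MP_0f8a1e_an

open Filter Topology Set Metric
open scoped RealInnerProductSpace ContDiff Manifold

variable {ι : Type} [Fintype ι] [DecidableEq ι] [Nonempty ι]

lemma mono' {φ φ' : ℝ → ℝ} (h : ∀ s, HasDerivAt φ (φ' s) s) (h0 : ∀ s ∈ Icc (0 : ℝ) 1, 0 ≤ φ' s) :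
    MonotoneOn φ (Icc 0 1) :=
  monotoneOn_of_deriv_nonneg (convex_Icc 0 1) (fun s _ => (h s).continuousAt.continuousWithinAt)
    (fun s _ => (h s).differentiableAt.differentiableWithinAt) fun s hs =>
      (h s).deriv ▸ h0 s (interior_subset hs)

lemma tu {F : ℕ → ℝ → ℝ} {F0 : ℝ → ℝ} (h : ∀ k, ∀ s ∈ Icc (0 : ℝ) 1, |F0 s - F k s| ≤ 3 * (1 / 4) ^ k) :
    TendstoUniformlyOn F F0 atTop (Icc 0 1) :=
  Metric.tendstoUniformlyOn_iff.2 fun ε ε0 => (((tendsto_pow_atTop_nhds_zero_of_lt_one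
    (r := (1 / 4 : ℝ)) (by norm_num) (by norm_num)).const_mul 3).eventually (gt_mem_nhds
      (by simpa using ε0))).mono fun k hk s hs => (h k s hs).trans_lt hk

lemma approx {G0 : ℝ → ℝ} (hG : ContDiff ℝ 1 G0) (h3 : ∀ s ∈ Icc (0 : ℝ) 1, 3 ≤ deriv G0 s) :
    ∃ G r : ℕ → ℝ → ℝ, (∀ k, ContDiff ℝ ∞ (G k)) ∧ (∀ k s, HasDerivAt (G k) (r k s) s) ∧
      (∀ k, G k 1 = G0 1) ∧ (∀ k, MonotoneOn (G k) (Icc 0 1)) ∧
      (∀ k, ∀ s ∈ Icc (0 : ℝ) 1, G0 s ≤ G k s ∧ G (k + 1) s ≤ G k s) ∧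
      TendstoUniformlyOn G G0 atTop (Icc 0 1) ∧ TendstoUniformlyOn r (deriv G0) atTop (Icc 0 1) := by
  choose p hp using fun k : ℕ => exists_polynomial_near_of_continuousOn 0 1 (deriv G0)
    (hG.continuous_deriv le_rfl).continuousOn ((1 / 4) ^ k) (by positivity)
  obtain ⟨r, rd⟩ : ∃ r : ℕ → ℝ → ℝ, r = fun k t => (p k).eval t - 2 * (1 / 4) ^ k := ⟨_, rfl⟩
  have rs : ∀ k, ContDiff ℝ ∞ (r k) := fun k => by
    rw [rd]; exact ContDiff.sub (by simpa using (p k).contDiff_aeval (𝕜 := ℝ) ∞) contDiff_const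
  have r1 : ∀ k, ∀ s ∈ Icc (0 : ℝ) 1, deriv G0 s - 3 * (1 / 4) ^ k ≤ r k s ∧
      r k s ≤ deriv G0 s - (1 / 4) ^ k := fun k s hs => by
    have := abs_lt.1 (hp k s hs)
    simp only [rd]; constructor <;> linarith
  obtain ⟨G, Gd⟩ : ∃ G : ℕ → ℝ → ℝ, G = fun k s => G0 1 + ∫ t in (1 : ℝ)..s, r k t := ⟨_, rfl⟩
  have G1 : ∀ k s, HasDerivAt (G k) (r k s) s := fun k s => by
    rw [Gd]; exact ((rs k).continuous.integral_hasStrictDerivAt 1 s).hasDerivAt.const_add _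
  have G2 : ∀ k, G k 1 = G0 1 := fun k => by simp [Gd]
  have d0 : ∀ s, HasDerivAt G0 (deriv G0 s) s := fun s =>
    (hG.differentiable one_ne_zero s).hasDerivAt
  have o : (1 : ℝ) ∈ Icc (0 : ℝ) 1 := ⟨zero_le_one, le_rfl⟩
  have q : ∀ k : ℕ, (0 : ℝ) < (1 / 4) ^ k := fun k => by positivity
  have q1 : ∀ k : ℕ, (1 / 4 : ℝ) ^ k ≤ 1 := fun k => pow_le_one₀ (by norm_num) (by norm_num)
  have G3 : ∀ k, ∀ s ∈ Icc (0 : ℝ) 1, G0 s ≤ G k s := fun k s hs => by
    have := mono' (fun s => (d0 s).sub (G1 k s)) (fun s hs => by linarith [r1 k s hs, q k]) hs o hs.2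
    simp only [Pi.sub_apply, G2] at this; linarith
  refine ⟨G, r, fun k => contDiff_infty_iff_deriv.2 ⟨fun s => (G1 k s).differentiableAt,
    (funext fun s => (G1 k s).deriv : deriv (G k) = r k) ▸ rs k⟩, G1, G2, fun k => mono' (G1 k)
      fun s hs => by linarith [r1 k s hs, h3 s hs, q1 k], fun k s hs => ⟨G3 k s hs, ?_⟩, tu fun k s hs => ?_, tu fun k s hs => ?_⟩
  · have := mono' (fun s => (G1 (k + 1) s).sub (G1 k s)) (fun s hs => by
      linarith [r1 k s hs, r1 (k + 1) s hs, q k, pow_succ (1 / 4 : ℝ) k]) hs o hs.2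
    simp only [Pi.sub_apply, G2] at this; linarith
  · have := mono' (fun s => ((G1 k s).sub (d0 s)).add ((hasDerivAt_id s).const_mul
      (3 * (1 / 4) ^ k))) (fun s hs => by linarith [r1 k s hs]) hs o hs.2
    simp only [Pi.add_apply, Pi.sub_apply, G2, id] at this
    rw [abs_le]
    constructor <;> linarith [G3 k s hs, q k, mul_nonneg (q k).le hs.1]
  · rw [abs_le]
    constructor <;> linarith [r1 k s hs, q k]

lemma tlu_const {Y : Type} [UniformSpace Y] (b : Eu ι → Y) (l : Filter ℕ) (U : Set (Eu ι)) :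
    TendstoLocallyUniformlyOn (fun _ => b) b l U :=
  fun u hu x hx => ⟨univ, univ_mem, .of_forall fun n y _ => refl_mem_uniformity hu⟩

lemma tlu_sh {Y : Type} [UniformSpace Y] {F : ℕ → Eu ι → Y} {G : Eu ι → Y} {U : Set (Eu ι)}
    (h : TendstoLocallyUniformlyOn F G atTop U) :
    TendstoLocallyUniformlyOn (fun n => F (n + 1)) G atTop U := fun u hu x hx =>
  let ⟨t, t1, t2⟩ := h u hu x hx
  ⟨t, t1, (tendsto_add_atTop_nat 1).eventually t2⟩

variable {Ω : Set (Eu ι)} {f : ℝ → ℝ} {L r0 : ℝ}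

lemma pen (hf : Rx f L) (h1 : ContDiff ℝ 1 f) {Λ a l R : ℝ} {β : Eu ι → ℝ} {y0 : Eu ι} (Λ0 : 0 < Λ)
    (hΛ : ∀ s ∈ Icc (0 : ℝ) 1, 3 ≤ Λ + deriv f s) (b1 : ContDiff ℝ ∞ β) (b2 : HasCompactSupport β)
    (b3 : ∀ x, β x ∈ Icc (0 : ℝ) 1) (b4 : ∀ x ∈ closedBall y0 R, β x = 1) (R0 : 0 < R)
    (a0 : 0 < a) (a1 : a ≤ 1) (hl : ∀ s ∈ Icc 0 a, l * s ≤ f s) (hR : ∀ x : Eu ι, ∃ L,
      Lap (fun z => (1 - ‖z - y0‖ ^ 2 / R ^ 2) ^ 2) x L ∧ -L < l * (1 - ‖x - y0‖ ^ 2 / R ^ 2) ^ 2) :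
    ∃ u : Eu ι → ℝ, (∀ x, ContDiffAt ℝ 2 u x ∧ lap u x = Λ * u x - β x * (Λ * u x + f (u x))) ∧
      (∀ x, u x ∈ Icc (0 : ℝ) 1) ∧ a ≤ u y0 := by
  have c1 : ContDiff ℝ 1 fun s => Λ * s + f s := (contDiff_const.mul contDiff_id).add h1
  obtain ⟨G, r, G0, G1, G2, G3, G4, G5, G6⟩ := approx c1 fun s hs => by
    rw [(((hasDerivAt_id' s).const_mul Λ).fun_add (h1.differentiable one_ne_zero s).hasDerivAt).deriv]
    linarith [hΛ s hs]
  choose st s1 s2 s3 using fun (k : ℕ) (w : {w : Eu ι → ℝ // ContDiff ℝ ∞ w}) =>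
    resolv Λ0 (g := fun x => β x * G k (w.1 x)) (b1.mul ((G0 k).comp w.2)) b2.mul_right
  obtain ⟨u, u0, u1, u2, u3⟩ : ∃ u : ℕ → Eu ι → ℝ, u 0 = (fun _ => 1) ∧ (∀ k, ContDiff ℝ ∞ (u k)) ∧
      (∀ k, ∃ B, ∀ x, |u (k + 1) x| ≤ B) ∧
      ∀ k x, lap (u (k + 1)) x = Λ * u (k + 1) x - β x * G k (u k x) :=
    ⟨fun k => (Nat.rec ⟨fun _ => 1, contDiff_const⟩ (fun k w => ⟨st k w, s1 k w⟩) k :
      {w : Eu ι → ℝ // ContDiff ℝ ∞ w}).1, rfl, fun k => Subtype.prop _, fun k => s2 k _,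
        fun k => s3 k _⟩
  have u4 : ∀ k x, ContDiffAt ℝ 2 (u k) x := fun k x => ((u1 k).of_le (by norm_cast)).contDiffAt
  have u5 : ∀ k x, Lap (u (k + 1)) x (Λ * u (k + 1) x - β x * G k (u k x)) := fun k x =>
    u3 k x ▸ Lap.of (u4 _ x)
  have o : (1 : ℝ) ∈ Icc (0 : ℝ) 1 := ⟨zero_le_one, le_rfl⟩
  have G7 : ∀ k x, ∀ s ∈ Icc (0 : ℝ) 1, β x * G k s ∈ Icc 0 Λ := fun k x s hs => by
    have e1 : 0 ≤ G k s := le_trans (add_nonneg (mul_nonneg Λ0.le hs.1) (hf.nn s hs)) (G4 k s hs).1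
    have e2 := G3 k hs o hs.2
    rw [G2, hf.f1] at e2
    exact ⟨mul_nonneg (b3 x).1 e1, (mul_le_of_le_one_left e1 (b3 x).2).trans (by linarith)⟩
  have I0 : ∀ k x, u k x ∈ Icc (0 : ℝ) 1 := fun k => by
    induction k with
    | zero => simp [u0]
    | succ k ih =>
      obtain ⟨B, hB⟩ := u2 k
      exact fun x => ⟨cmp Λ0 (u1 _).continuous (fun x => (abs_le.1 (hB x)).1) (fun x =>
        ⟨_, sub_le_self _ (G7 k x _ (ih x)).1, u5 k x⟩) x, sub_nonneg.1 (cmp (B := 1 - B)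
          (W := fun x => 1 - u (k + 1) x) Λ0 (continuous_const.sub (u1 _).continuous) (fun x => by
            linarith [abs_le.1 (hB x)]) (fun x => ⟨_, by linarith [(G7 k x _ (ih x)).2],
              (Lap.const 1 x).sub (u5 k x)⟩) x)⟩
  have I1 : ∀ k x, u (k + 1) x ≤ u k x := fun k => by
    induction k with
    | zero => exact fun x => by simpa [u0] using (I0 1 x).2
    | succ k ih =>
      exact fun x => sub_nonneg.1 (cmp (B := -1) (W := fun x => u (k + 1) x - u (k + 2) x) Λ0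
        ((u1 _).continuous.sub (u1 _).continuous) (fun x => by
          linarith [(I0 (k + 1) x).1, (I0 (k + 2) x).2]) (fun x => ⟨_, by
            linarith [mul_le_mul_of_nonneg_left ((G4 k _ (I0 (k + 1) x)).2.trans
              (G3 k (I0 _ x) (I0 _ x) (ih x))) (b3 x).1], (u5 k x).sub (u5 (k + 1) x)⟩) x)
  have bb : ∀ x ∈ closedBall y0 R, a * (1 - ‖x - y0‖ ^ 2 / R ^ 2) ^ 2 ∈ Icc 0 a := fun x hx =>
    ⟨by positivity, mul_le_of_le_one_right a0.le (pow_le_one₀ (sub_nonneg.2 (div_le_one_of_le₀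
      (pow_le_pow_left₀ (norm_nonneg _) (mem_closedBall_iff_norm.1 hx) 2) (sq_nonneg _)))
        (sub_le_self _ (by positivity)))⟩
  have I2 : ∀ k, ∀ x ∈ closedBall y0 R, 0 ≤ u k x - a * (1 - ‖x - y0‖ ^ 2 / R ^ 2) ^ 2 := fun k => by
    induction k with
    | zero => exact fun x hx => by rw [u0]; linarith [(bb x hx).2]
    | succ k ih =>
      refine mp0 (isCompact_closedBall y0 R) ((u1 _).continuous.sub (by fun_prop)).continuousOn
        fun x hx h0 => ?_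
      obtain ⟨L', l1, l2⟩ := hR x
      have x1 : x ∈ ball y0 R := mem_ball_iff_norm.2 (lt_of_le_of_ne (mem_closedBall_iff_norm.1 hx)
        fun e => by rw [e, div_self (by positivity)] at h0; linarith [(I0 (k + 1) x).1])
      have m : a * (1 - ‖x - y0‖ ^ 2 / R ^ 2) ^ 2 ∈ Icc (0 : ℝ) 1 := ⟨(bb x hx).1, (bb x hx).2.trans a1⟩
      refine ⟨mem_of_superset (isOpen_ball.mem_nhds x1) ball_subset_closedBall, _, ?_,
        (u5 k x).sub (l1.cmul a)⟩
      rw [b4 x hx]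
      linarith [(G4 k _ m).1, G3 k m (I0 k x) (sub_nonneg.1 (ih x hx)), hl _ (bb x hx),
        mul_lt_mul_of_pos_left l2 a0, mul_lt_mul_of_pos_left h0 Λ0]
  obtain ⟨w, hw⟩ := L0 (l := atTop) (U := univ) (w := u) (fun x _ => ⟨1, one_pos, Λ,
    (eventually_ge_atTop 1).mono fun n hn y _ => ⟨u4 n y, abs_le.2 ⟨by linarith [(I0 n y).1],
      (I0 n y).2⟩, by
      obtain ⟨k, rfl⟩ := Nat.exists_eq_add_of_le' hn
      have := G7 k y _ (I0 k y)
      rw [u3, abs_le]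
      constructor <;> linarith [this.1, this.2, mul_nonneg Λ0.le (I0 (k + 1) y).1,
        mul_le_of_le_one_right Λ0.le (I0 (k + 1) y).2]⟩⟩) fun x _ =>
    ⟨_, tendsto_atTop_ciInf (antitone_nat_of_succ_le fun k => I1 k x) ⟨0, by
      rintro _ ⟨k, rfl⟩; exact (I0 k x).1⟩⟩
  have wc := hw.continuousOn (Frequently.of_forall fun n => (u1 n).continuous.continuousOn)
  have t1 := tlu_comp hw I0 G5 c1.continuous
  have t2 := tlu_comp hw I0 G6 (c1.continuous_deriv le_rfl)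
  have c2 := c1.continuous.comp_continuousOn wc
  have c3 := (c1.continuous_deriv le_rfl).comp_continuousOn wc
  have t3 := ((tlu_const (fun _ => Λ) _ _).mul₀ (tlu_sh hw) continuousOn_const wc).sub
    ((tlu_const β _ _).mul₀ t1 b1.continuous.continuousOn c2)
  obtain ⟨D, hD⟩ := L1 isOpen_univ (.of_forall fun n y _ => ⟨u4 (n + 1) y, u3 n y⟩) (tlu_sh hw) t3
  have Dc := hD.continuousOn (Frequently.of_forall fun n =>
    ((u1 (n + 1)).continuous_fderiv (by simp)).continuousOn)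
  have fd : ∀ k y, HasFDerivAt (u k) (fderiv ℝ (u k) y) y := fun k y =>
    ((u4 k y).differentiableAt two_ne_zero).hasFDerivAt
  have := L2 isOpen_univ (.of_forall fun n y _ => ⟨u4 (n + 2) y, u3 (n + 1) y⟩) (tlu_sh (tlu_sh hw))
    (tlu_sh t3) (fun n y _ => ((fd (n + 2) y).const_mul Λ).sub
      ((b1.differentiable (by simp) y).hasFDerivAt.mul ((G1 (n + 1) _).comp_hasFDerivAt y
        (fd (n + 1) y)))) (((tlu_const (fun _ => Λ) _ _).smul₀ (tlu_sh hD) continuousOn_const Dc).sub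
      (((tlu_const β _ _).smul₀ ((tlu_sh t2).smul₀ hD c3 Dc) b1.continuous.continuousOn
        (c3.smul Dc)).add ((tlu_sh t1).smul₀ (tlu_const (fderiv ℝ β) _ _) c2
          (b1.continuous_fderiv (by simp)).continuousOn)))
  refine ⟨w, fun x => this x (mem_univ x), fun x => isClosed_Icc.mem_of_tendsto
    (hw.tendsto_at (mem_univ x)) (.of_forall fun n => I0 n x), ge_of_tendsto'
      (hw.tendsto_at (mem_univ y0)) fun n => ?_⟩
  simpa using I2 n y0 (mem_closedBall_self R0.le)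

lemma bdy (hf : Rx f L) (hg : Gm Ω r0) {u β : Eu ι → ℝ} {Λ τ : ℝ} (Λ0 : 0 < Λ) (τ0 : 0 < τ)
    (τ1 : τ ≤ r0 / 4) (hu : ∀ x, ContDiffAt ℝ 2 u x ∧
      lap u x = Λ * u x - β x * (Λ * u x + f (u x))) (hI : ∀ x, u x ∈ Icc (0 : ℝ) 1)
    (b3 : ∀ x, β x ∈ Icc (0 : ℝ) 1) (b4 : ∀ x ∉ Ω, β x = 0) {x : Eu ι} (hx : x ∈ Ω)
    (h : dl Ω x ≤ r0 / 2) : u x ≤ 2 * dd ι / τ ^ 2 / Λ + Cd ι L * 2 * (dl Ω x + τ) / r0 := by
  have d1 := dd1 (ι := ι)
  have L0 : 0 ≤ L := zero_le_one.trans hf.L1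
  have r0p := hg.r0
  have uc : Continuous u := continuous_iff_continuousAt.2 fun y => (hu y).1.continuousAt
  have lp : ∀ y, Lap u y _ := fun y => (hu y).2 ▸ Lap.of (hu y).1
  obtain ⟨η, ηd⟩ : ∃ η, η = 2 * dd ι / τ ^ 2 / Λ := ⟨_, rfl⟩
  have η0 : 0 ≤ η := by rw [ηd]; positivity
  have η1 : Λ * η = 1 / τ ^ 2 * (2 * dd ι) := by rw [ηd]; field_simp
  have ext : ∀ y, ball y τ ⊆ Ωᶜ → u y ≤ η := fun y hy => by
    have := mp0 (isCompact_closedBall y τ) (W := fun z => η + 1 / τ ^ 2 * ‖z - y‖ ^ 2 - u z)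
      (Continuous.continuousOn (by fun_prop)) (fun z hz h0 => by
        have z1 : z ∈ ball y τ := mem_ball_iff_norm.2 (lt_of_le_of_ne (mem_closedBall_iff_norm.1 hz)
          fun e => by rw [e, one_div_mul_cancel (by positivity)] at h0; linarith [(hI z).2])
        refine ⟨mem_of_superset (isOpen_ball.mem_nhds z1) ball_subset_closedBall, _, ?_,
          ((Lap.const η z).add ((Lap.nsq y z).cmul _)).sub (lp z)⟩
        rw [b4 z (hy z1)]
        linarith [mul_le_mul_of_nonneg_left (show η ≤ u z by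
          linarith [show 0 ≤ 1 / τ ^ 2 * ‖z - y‖ ^ 2 by positivity]) Λ0.le]) y
      (mem_closedBall_self τ0.le)
    simpa using this
  obtain ⟨z, n, k1, k2, -, k4⟩ := hg.near (subset_closure hx)
  have δ0 := dl_nn Ω x
  have e : ‖x - (z - r0 • n)‖ = dl Ω x + r0 := by
    conv_lhs => rw [k2]
    rw [← dist_eq_norm, sub_eq_add_neg, ← neg_smul, d_line _ _ k1, abs_of_nonneg
      (by linarith)]; ring
  have := bd (S := {y | r0 - τ ≤ ‖y - (z - r0 • n)‖}) (c := z - r0 • n) (ρ := r0 - τ) (η := η)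
    (M := 1) (N := L) (isClosed_le continuous_const (by fun_prop)) uc.continuousOn (by linarith)
    (by linarith [hg.r1]) zero_le_one L0 (fun y hy => hy) (fun y _ => by linarith [(hI y).2])
    (fun y hy h0 => ⟨mem_of_superset ((isOpen_lt (f := fun _ => r0 - τ)
      (g := fun y => ‖y - (z - r0 • n)‖) continuous_const (by fun_prop)).mem_nhds (lt_of_le_of_ne
        hy.1 fun e : r0 - τ = ‖y - (z - r0 • n)‖ => absurd (ext y ((ball_subset_ball' (by rw [dist_eq_norm, ← e]; linarith)).trans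
          k4)) (not_le.2 h0))) fun y (hy : r0 - τ < ‖y - (z - r0 • n)‖) => hy.le, _, lp y, by
      linarith [mul_le_of_le_one_left (add_nonneg (mul_nonneg Λ0.le (hI y).1) (hf.nn _ (hI y)))
        (b3 y).2, hf.le (hI y), mul_le_of_le_one_right L0 (hI y).2]⟩) x
    ⟨by rw [mem_ofPred_eq, e]; linarith, mem_closedBall_iff_norm.2 (by rw [e]; linarith)⟩
  rw [e, ηd] at this
  refine this.trans (add_le_add_right ?_ _)
  have k6 : ((dl Ω x + r0) ^ 2 - (r0 - τ) ^ 2) / (r0 - τ) ^ 2 ≤ 6 * (dl Ω x + τ) / r0 := by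
    rw [div_le_div_iff₀ (by nlinarith) r0p]
    have : 0 ≤ 6 * (r0 - τ) ^ 2 - (dl Ω x + 2 * r0 - τ) * r0 := by nlinarith
    linarith [mul_nonneg (add_nonneg δ0 τ0.le) this]
  calc _ ≤ (2 + L * 4 ^ (Fintype.card ι + 1)) * 1 * (dd ι * (6 * (dl Ω x + τ) / r0)) := by gcongr
    _ = _ := by unfold Cd; ring

lemma bigball {o : Eu ι} (ho : IsOpen Ω) (hs : StarConvex ℝ o Ωᶜ) (hne : Ω.Nonempty) {R : ℝ}
    (R0 : 0 < R) : ∃ y, closedBall y R ⊆ Ω := by
  obtain ⟨p, hp⟩ := hne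
  obtain ⟨s, s0, h⟩ := nhds_basis_closedBall.mem_iff.1 (ho.mem_nhds hp)
  obtain ⟨θ, θ0, θ1, θ2⟩ : ∃ θ > 0, θ ≤ 1 ∧ θ * R ≤ s := ⟨min 1 (s / R), by positivity,
    min_le_left _ _, (le_div_iff₀ R0).1 (min_le_right _ _)⟩
  refine ⟨o + θ⁻¹ • (p - o), fun y hy => star hs θ0.le θ1 (h ?_)⟩
  have e : Sc o θ (o + θ⁻¹ • (p - o)) = p := by simp [Sc, smul_smul, θ0.ne']
  rw [mem_closedBall, ← e, Sc_d o θ0.le]
  exact (mul_le_mul_of_nonneg_left (mem_closedBall.1 hy) θ0.le).trans θ2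

theorem exi {o : Eu ι} (hf : Rx f L) (h1 : ContDiff ℝ 1 f) (hg : Gm Ω r0) (hc : IsConnected Ω)
    (hs : StarConvex ℝ o Ωᶜ) : ∃ u, Sol Ω f u := by
  have hL : 0 ≤ L := zero_le_one.trans hf.L1
  have C1 := Cd1 (ι := ι) hL
  have r0p := hg.r0
  obtain ⟨l, l0, hl⟩ := hf.lo (1 / 2) (by norm_num)
  obtain ⟨R, R0, hR⟩ := bump ι l0
  obtain ⟨y0, hy0⟩ := bigball hg.op hs hc.nonempty (R := 1 + R) (by linarith)
  obtain ⟨B, hB⟩ := (isCompact_Icc (a := (0 : ℝ)) (b := 1)).exists_bound_of_continuousOn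
    (h1.continuous_deriv le_rfl).continuousOn
  have B0 : 0 ≤ B := (norm_nonneg _).trans (hB 0 ⟨le_rfl, zero_le_one⟩)
  have n1 : ∀ n : ℕ, (0 : ℝ) < 1 / (n + 1) := fun n => by positivity
  choose β b1 b2 b3 using fun n : ℕ => exists_contMDiffMap_zero_one_of_isClosed (n := ⊤)
    𝓘(ℝ, Eu ι) (s := (Ω ∩ ball y0 (n + R + 1))ᶜ)
    (t := closedBall y0 (n + R) ∩ {x | 1 / (n + 1 : ℝ) ≤ dl Ω x})
    (hg.op.inter isOpen_ball).isClosed_compl (isClosed_closedBall.inter (isClosed_le continuous_const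
      (continuous_infDist_pt _))) (disjoint_compl_left_iff_subset.2 fun x hx =>
        ⟨dl_mem ((n1 n).trans_le hx.2), closedBall_subset_ball (lt_add_one _) hx.1⟩)
  choose u u1 u2 u3 using fun n : ℕ => pen hf h1 (Λ := n + B + 3) (a := 1 - 1 / 2) (β := β n)
    (by positivity) (fun s hs => by linarith [abs_le.1 (hB s hs), n.cast_nonneg (α := ℝ)])
    (β n).contMDiff.contDiff (HasCompactSupport.intro (isCompact_closedBall y0 (n + R + 1))
      fun x hx => b1 n fun h => hx (ball_subset_closedBall h.2)) (b3 n) (fun x hx => b2 n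
        ⟨closedBall_subset_closedBall (by simp) hx, le_trans (div_le_one_of_le₀ (by simp)
          (by positivity)) (hg.le_dl (ball_subset_closedBall.trans ((cb hx).trans hy0)))⟩) R0
    (by norm_num) (by norm_num) hl (hR y0)
  have ev : ∀ x ρ, 0 < ρ → closedBall x (ρ + ρ) ⊆ Ω → ∀ᶠ n in hyperfilter ℕ, ∀ y ∈ closedBall x ρ,
      ContDiffAt ℝ 2 (u n) y ∧ lap (u n) y = -f (u n y) := fun x ρ ρ0 h => by
    filter_upwards [Nat.hyperfilter_le_atTop (tendsto_one_div_add_atTop_nhds_zero_nat.eventually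
      (ge_mem_nhds ρ0)), Nat.hyperfilter_le_atTop (tendsto_natCast_atTop_atTop.eventually_ge_atTop
        (ρ + dist x y0))] with n k1 k2 y hy
    refine ⟨(u1 n y).1, ?_⟩
    rw [(u1 n y).2, b2 n ⟨closedBall_subset_closedBall' (le_trans k2 (by linarith)) hy,
      le_trans k1 (hg.le_dl (ball_subset_closedBall.trans ((cb hy).trans h)))⟩]
    simp
  obtain ⟨w, hw⟩ := L0 (l := hyperfilter ℕ) (U := Ω) (w := u) (fun x hx => by
    obtain ⟨ρ, ρ0, h⟩ := ball2 hg.op hx 4 four_pos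
    refine ⟨ρ, ρ0, L, (ev x (ρ + ρ) (by linarith) (by convert h using 2; ring)).mono
      fun n hn y hy => ⟨(hn y hy).1, abs_le.2 ⟨by linarith [(u2 n y).1], (u2 n y).2⟩, ?_⟩⟩
    rw [(hn y hy).2, abs_neg, abs_of_nonneg (hf.nn _ (u2 n y))]
    exact (hf.le (u2 n y)).trans (mul_le_of_le_one_right hL (u2 n y).2)) fun x _ => by
    obtain ⟨a, -, ha⟩ := (isCompact_Icc (a := (0 : ℝ)) (b := 1)).ultrafilter_le_nhds
      ((hyperfilter ℕ).map (u · x)) (le_principal_iff.2 (Filter.mem_map.2 (univ_mem' fun n => u2 n x)))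
    exact ⟨a, ha⟩
  have uc : ∀ n, Continuous (u n) := fun n =>
    continuous_iff_continuousAt.2 fun y => (u1 n y).1.continuousAt
  have wc := hw.continuousOn (Frequently.of_forall fun n => (uc n).continuousOn)
  have wI : ∀ x ∈ Ω, w x ∈ Icc (0 : ℝ) 1 := fun x hx =>
    isClosed_Icc.mem_of_tendsto (hw.tendsto_at hx) (.of_forall fun n => u2 n x)
  have w2 : ∀ x ∈ Ω, ContDiffAt ℝ 2 w x ∧ lap w x = -f (w x) := fun x hx => by
    obtain ⟨ρ, ρ0, h⟩ := ball2 hg.op hx 2 two_pos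
    rw [two_mul] at h
    have s : ball x ρ ⊆ Ω := (ball_subset_closedBall.trans (closedBall_subset_closedBall
      (by linarith))).trans h
    have e := (ev x ρ ρ0 h).mono fun n hn y (hy : y ∈ ball x ρ) => hn y (ball_subset_closedBall hy)
    have tu : ∀ F : ℝ → ℝ, TendstoUniformlyOn (fun _ : ℕ => F) F (hyperfilter ℕ) (Icc 0 1) :=
      fun F u hu => .of_forall fun n y _ => refl_mem_uniformity hu
    have t1 := tlu_comp (hw.mono s) u2 (tu fun s => -f s) h1.continuous.neg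
    have c3 := (h1.continuous_deriv le_rfl).neg
    obtain ⟨D, hD⟩ := L1 isOpen_ball e (hw.mono s) t1
    exact L2 isOpen_ball e (hw.mono s) t1 (fun n y _ => (h1.differentiable one_ne_zero
      _).hasDerivAt.fun_neg.comp_hasFDerivAt y ((u1 n y).1.differentiableAt two_ne_zero).hasFDerivAt)
      ((tlu_comp (hw.mono s) u2 (tu fun s => -deriv f s) c3).smul₀ hD (c3.comp_continuousOn
        (wc.mono s)) (hD.continuousOn (Frequently.of_forall fun n y _ => ((u1 n y).1.fderiv_right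
          (m := 1) le_rfl).continuousAt.continuousWithinAt))) x (mem_ball_self ρ0)
  have w3 : ∀ x ∈ Ω, w x ≤ Cd ι L * 2 / r0 * dl Ω x := fun x hx => by
    rcases le_total (dl Ω x) (r0 / 2) with h | h
    · refine ge_of_tendsto (x := 𝓝[>] 0) (f := fun τ : ℝ => Cd ι L * 2 / r0 * (dl Ω x + τ)) (by
        simpa using (show Continuous fun τ : ℝ => Cd ι L * 2 / r0 * (dl Ω x + τ) by
          fun_prop).tendsto 0 |>.mono_left nhdsWithin_le_nhds) ?_
      filter_upwards [small 4 r0p, self_mem_nhdsWithin] with τ t1 (t0 : 0 < τ)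
      have := le_of_tendsto_of_tendsto' (hw.tendsto_at hx) ((((tendsto_atTop_add_const_right _ 3
        (tendsto_atTop_add_const_right _ B tendsto_natCast_atTop_atTop)).const_div_atTop
          (2 * dd ι / τ ^ 2)).mono_left Nat.hyperfilter_le_atTop).add_const _) fun n =>
        bdy hf hg (by positivity) t0 (by linarith) (u1 n) (u2 n) (b3 n)
          (fun x hx => b1 n fun h => hx h.1) hx h
      rwa [zero_add, mul_div_right_comm] at this
    · rw [div_mul_eq_mul_div, le_div_iff₀ r0p]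
      nlinarith [(wI x hx).2]
  have e : ∀ x ∈ Ω, Ω.indicator w =ᶠ[𝓝 x] w := fun x hx =>
    mem_of_superset (hg.op.mem_nhds hx) fun y hy => indicator_of_mem hy w
  have i1 : ∀ x, Ω.indicator w x ∈ Icc 0 (min 1 (Cd ι L * 2 / r0 * dl Ω x)) := fun x => by
    by_cases hx : x ∈ Ω
    · rw [indicator_of_mem hx]; exact ⟨(wI x hx).1, le_min (wI x hx).2 (w3 x hx)⟩
    · have := dl_nn Ω x
      rw [indicator_of_notMem hx]; exact ⟨le_rfl, by positivity⟩
  have ic : Continuous (Ω.indicator w) := continuous_iff_continuousAt.2 fun x => by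
    by_cases hx : x ∈ Ω
    · exact (w2 x hx).1.continuousAt.congr (e x hx).symm
    · rw [ContinuousAt, indicator_of_notMem hx]
      exact squeeze_zero (fun y => (i1 y).1) (fun y => (i1 y).2.trans (min_le_right _ _)) (by
        simpa [dl, infDist_zero_of_mem (show x ∈ Ωᶜ from hx)] using
          ((continuous_infDist_pt Ωᶜ).tendsto x).const_mul (Cd ι L * 2 / r0))
  have il : ∀ x ∈ Ω, lap (Ω.indicator w) x = -f (Ω.indicator w x) := fun x hx => by
    rw [indicator_of_mem hx, ← (w2 x hx).2, lap, lap, (e x hx).fderiv.fderiv_eq]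
  have i2 := fun x hx => (w2 x hx).1.congr_of_eventuallyEq (e x hx)
  refine ⟨_, ic, fun x hx => indicator_of_notMem hx w, fun x hx => ?_,
    fun x => (i1 x).2.trans (min_le_left _ _), i2, il⟩
  have y1 := hy0 (mem_closedBall_self (by linarith))
  refine hc.isPreconnected.subset_of_closure_inter_subset (isOpen_lt continuous_const ic)
    ⟨y0, y1, ?_⟩ (fun x hx => ?_) hx
  · rw [mem_ofPred_eq, indicator_of_mem y1]
    exact lt_of_lt_of_le (by norm_num) (ge_of_tendsto' (hw.tendsto_at y1) u3)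
  obtain ⟨c1, c0, p, hp⟩ := chain ι
  obtain ⟨r, r1, hr⟩ := Metric.isOpen_iff.1 hg.op x hx.2
  obtain ⟨y, y2, y3⟩ := Metric.mem_closure_iff.1 hx.1 (r / 2) (half_pos r1)
  obtain ⟨σ, σ0, hσ⟩ := nhds_basis_closedBall.mem_iff.1 (ic.continuousAt.eventually
    (lt_mem_nhds (half_lt_self y2)))
  have m1 := min_le_left σ (r / 8)
  have m2 := min_le_right σ (r / 8)
  exact lt_of_lt_of_le (by have : 0 < Ω.indicator w y := y2; positivity) (hp _ x r
    ⟨ic.continuousOn, fun z _ => (i1 z).1, fun z hz => ⟨_, neg_nonpos.2 (hf.nn _ ⟨(i1 z).1,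
      (i1 z).2.trans (min_le_left _ _)⟩), il z (hr hz) ▸ Lap.of (i2 z (hr hz))⟩⟩ y (min σ (r / 8))
    (Ω.indicator w y / 2) (by positivity) (half_pos y2).le (by rw [dist_comm]; linarith)
    (fun z hz => le_of_lt (hσ (closedBall_subset_closedBall m1 hz))) x
    (mem_closedBall_self (by positivity)))

end Pool.Agent.H.MP_0f8a1e_an
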