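import Pool.Agent.H.MP_0f8a1e_an.H

set_option linter.unusedSectionVars false
set_option linter.unusedVariables false
set_option linter.dupNamespace false
set_option linter.unusedSimpArgs false

namespace Pool.Agent.H.MP_0f8a1e_an

open Filter Topology Set Metric
open scoped RealInnerProductSpace

variable {ι : Type} [Fintype ι] [DecidableEq ι] [Nonempty ι]
variable {Ω : Set (Eu ι)} {f : ℝ → ℝ} {L r0 : ℝ}

lemma gm_of {V : Type} [NormedAddCommGroup V] [NormedSpace ℝ V] (π : Eu ι →L[ℝ] V)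
    (hπ : ∀ y, ‖π y‖ ≤ ‖y‖) (j : ι) (hj : π (eb j) = 0) (ho : IsOpen Ω) (hne : Ωᶜ.Nonempty)
    {r M : ℝ} (r0 : 0 < r) (h : ∀ x ∈ frontier Ω, ∃ R : Eu ι ≃ₗᵢ[ℝ] Eu ι, ∃ φ : V → ℝ,
      (∀ y ∈ ball (0 : V) r, ContDiffAt ℝ 2 φ y ∧ ‖fderiv ℝ (fderiv ℝ φ) y‖ ≤ M) ∧
      ∀ z ∈ ball x r, (z ∈ Ω ↔ φ (π (R (z - x))) < R (z - x) j)) : ∃ s, Gm Ω s := by
  obtain ⟨s, ⟨⟨s1, s2⟩, s3⟩, (s0 : 0 < s)⟩ := (((small 2 r0).and (small 1 one_pos)).and
    (small (2 * M) one_pos) |>.and self_mem_nhdsWithin).exists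
  refine ⟨s, ho, s0, by linarith, hne, fun z hz => ?_⟩
  obtain ⟨R, φ, h1, h2⟩ := h z hz
  have o := mem_ball_self (x := (0 : V)) r0
  have M0 : 0 ≤ M := (ContinuousLinearMap.opNorm_nonneg _).trans (h1 0 o).2
  have φ0 : φ 0 = 0 := by
    have a := (h2 z (mem_ball_self r0)).not.1 fun h' => hz.2 (ho.interior_eq.symm ▸ h')
    have b : ContinuousAt (fun w => R (w - z) j - φ (π (R (w - z)))) z :=
      ContinuousAt.sub (by fun_prop) (ContinuousAt.comp (by simpa using (h1 0 o).1.continuousAt)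
        (by fun_prop))
    have c := isClosed_Ici.mem_of_frequently_of_tendsto (((mem_closure_iff_frequently.1
      hz.1).and_eventually (ball_mem_nhds z r0)).mono fun w hw =>
        mem_Ici.2 (sub_pos.2 ((h2 w hw.2).1 hw.1)).le) b
    simp at a c
    linarith
  have T : ∀ y : Eu ι, ‖y‖ < r → |φ (π y) - fderiv ℝ φ 0 (π y)| ≤ M * ‖y‖ ^ 2 := fun y hy => by
    have sb : closedBall (0 : V) ‖y‖ ⊆ ball 0 r := closedBall_subset_ball hy
    have := (convex_closedBall (0 : V) ‖y‖).norm_image_sub_le_of_norm_fderiv_le' (C := M * ‖y‖)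
      (φ := fderiv ℝ φ 0) (fun t ht => (h1 t (sb ht)).1.differentiableAt two_ne_zero)
      (fun t ht => ((convex_ball (0 : V) r).norm_image_sub_le_of_norm_fderiv_le (fun t ht =>
        ((h1 t ht).1.fderiv_right (m := 1) le_rfl).differentiableAt one_ne_zero)
          (fun t ht => (h1 t ht).2) o (sb ht)).trans (mul_le_mul_of_nonneg_left
            (mem_closedBall_iff_norm.1 ht) M0)) (mem_closedBall_self (norm_nonneg _))
      (mem_closedBall_zero_iff.2 (hπ y))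
    rw [φ0, sub_zero, sub_zero] at this
    exact this.trans (by rw [sq, ← mul_assoc]; gcongr; exact hπ y)
  obtain ⟨g, hg⟩ : ∃ g : Eu ι, ∀ y, ⟪g, y⟫ = y j - fderiv ℝ φ 0 (π y) :=
    ⟨(InnerProductSpace.toDual ℝ _).symm (EuclideanSpace.proj j - (fderiv ℝ φ 0).comp π),
      fun y => by rw [InnerProductSpace.toDual_symm_apply]; rfl⟩
  have g1 : 1 ≤ ‖g‖ := by
    have := real_inner_le_norm g (eb j)
    rw [hg, hj, eb_n] at this
    simpa [eb] using this
  obtain ⟨ν, ν1, ν2⟩ : ∃ ν : Eu ι, ‖ν‖ = 1 ∧ g = ‖g‖ • ν := ⟨‖g‖⁻¹ • g, by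
    rw [norm_smul, norm_inv, norm_norm, inv_mul_cancel₀ (by linarith)], by
    rw [smul_inv_smul₀ (by linarith)]⟩
  have key : ∀ w, ∀ t : ℝ, |t| = s → w ∈ ball (z + t • R.symm ν) s → w ∈ ball z r ∧
      ‖R (w - z)‖ < r ∧ ‖R (w - z)‖ ^ 2 < 2 * t * ⟪ν, R (w - z)⟫ := fun w t ht hw => by
    rw [mem_ball_iff_norm, ← R.norm_map, ← sub_sub, map_sub, map_smul, R.apply_symm_apply] at hw
    have n1 : ‖t • ν‖ = s := by rw [norm_smul, ν1, mul_one, Real.norm_eq_abs, ht]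
    have a : ‖R (w - z)‖ < r := by linarith [norm_sub_norm_le (R (w - z)) (t • ν)]
    have b := pow_lt_pow_left₀ hw (norm_nonneg _) two_ne_zero
    rw [norm_sub_sq_real, n1, real_inner_smul_right, real_inner_comm] at b
    exact ⟨by rwa [mem_ball_iff_norm, ← R.norm_map], a, by linarith⟩
  refine ⟨R.symm ν, by rw [R.symm.norm_map, ν1], fun w hw => ?_, fun w hw hw' => ?_⟩
  · obtain ⟨k1, k2, k3⟩ := key w s (abs_of_pos s0) hw
    have k4 := hg (R (w - z))
    rw [ν2, real_inner_smul_left] at k4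
    have k5 : 0 < ⟪ν, R (w - z)⟫ := (pos_iff_pos_of_mul_pos ((sq_nonneg _).trans_lt k3)).1 (by linarith)
    rw [h2 w k1]
    linarith [abs_le.1 (T _ k2), mul_le_mul_of_nonneg_left k3.le M0,
      mul_le_mul_of_nonneg_right g1 k5.le, mul_lt_mul_of_pos_right s3 k5]
  · obtain ⟨k1, k2, k3⟩ := key w (-s) (by rw [abs_neg, abs_of_pos s0]) (by
      rwa [neg_smul, ← sub_eq_add_neg])
    have k4 := hg (R (w - z))
    rw [ν2, real_inner_smul_left] at k4
    have k5 : 0 < -⟪ν, R (w - z)⟫ := (pos_iff_pos_of_mul_pos (a := 2 * s) (by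
      linarith [sq_nonneg ‖R (w - z)‖])).1 (by linarith)
    rw [h2 w k1] at hw'
    linarith [abs_le.1 (T _ k2), mul_le_mul_of_nonneg_left k3.le M0,
      mul_le_mul_of_nonneg_right g1 k5.le, mul_lt_mul_of_pos_right s3 k5]

lemma rx_of (h : ContDiff ℝ 1 f) (f0 : f 0 = 0) (f1 : f 1 = 0) (d1 : deriv f 1 < 0)
    (hp : ∀ t, 0 < t → t < 1 → 0 < f t) (d0 : 0 < deriv f 0) : ∃ L, Rx f L := by
  have hd := h.differentiable one_ne_zero
  have hc := h.continuous_deriv le_rfl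
  obtain ⟨B, hB⟩ := (isCompact_Icc (a := (0 : ℝ)) (b := 1)).exists_bound_of_continuousOn
    hc.continuousOn
  refine ⟨max 1 B, le_max_left _ _, fun s hs t ht => (convex_Icc 0 1).norm_image_sub_le_of_norm_deriv_le
    (fun x _ => hd x) (fun x hx => (hB x hx).trans (le_max_right _ _)) ht hs, f0, f1,
    fun s hs => ?_, fun σ σ0 => ?_, ?_⟩
  · rcases hs.1.eq_or_lt with e | e
    · rw [← e, f0]
    rcases hs.2.eq_or_lt with e' | e'
    exacts [by rw [e', f1], (hp s e e').le]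
  · have e : ∀ s, s * dslope f 0 s = f s := fun s => by simpa [f0] using sub_smul_dslope f 0 s
    obtain ⟨l, l0, hl⟩ := (isCompact_Icc (a := (0 : ℝ)) (b := 1 - σ)).exists_forall_le'
      (f := dslope f 0) (a := 0) (fun s _ => ContinuousAt.continuousWithinAt (by
        rcases eq_or_ne s 0 with rfl | e
        exacts [continuousAt_dslope_same.2 (hd 0),
          (continuousAt_dslope_of_ne e).2 (hd s).continuousAt])) fun s hs => by
      rcases hs.1.eq_or_lt with e' | e'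
      · rwa [← e', dslope_same]
      · exact (pos_iff_pos_of_mul_pos ((hp s e' (by linarith [hs.2])).trans_eq (e s).symm)).1 e'
    exact ⟨l, l0, fun s hs => by
      rw [← e s, mul_comm]; exact mul_le_mul_of_nonneg_left (hl s hs) hs.1⟩
  · obtain ⟨δ, δ0, hδ⟩ := Metric.eventually_nhds_iff.1 (hc.continuousAt.eventually
      (gt_mem_nhds (show deriv f 1 < deriv f 1 / 2 by linarith)))
    refine ⟨δ / 4, by positivity, -(deriv f 1 / 2), by linarith, fun s t k1 k2 k3 => ?_⟩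
    have := (convex_Icc s t).image_sub_le_mul_sub_of_deriv_le h.continuous.continuousOn
      hd.differentiableOn (fun x hx => (hδ (y := x) (by
        have := interior_subset hx
        rw [Real.dist_eq, abs_lt]; constructor <;> linarith [this.1, this.2])).le) s
      ⟨le_rfl, k2⟩ t ⟨k2, le_rfl⟩ k2
    linarith

def IsS (Ω : Set (Eu ι)) (f : ℝ → ℝ) (u : Eu ι → ℝ) : Prop :=
  ContDiffOn ℝ 2 u Ω ∧ ContinuousOn u (closure Ω) ∧ (∃ C : ℝ, ∀ x ∈ Ω, |u x| ≤ C) ∧
    (∀ x ∈ Ω, -lap u x = f (u x)) ∧ (∀ x ∈ frontier Ω, u x = 0) ∧ ∀ x ∈ Ω, 0 < u x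

lemma IsS.sol {u : Eu ι → ℝ} (h : IsS Ω f u) (ho : IsOpen Ω) (hc : Continuous f)
    (hn : ∀ t, 1 < t → f t < 0) : Sol Ω f (Ω.indicator u) := by
  obtain ⟨h1, h2, ⟨C, h3⟩, h4, h5, h6⟩ := h
  have e : ∀ x ∈ Ω, Ω.indicator u =ᶠ[𝓝 x] u := fun x hx =>
    mem_of_superset (ho.mem_nhds hx) fun y hy => indicator_of_mem hy u
  have ic := continuous_indicator h5 h2
  have i2 := fun x hx => (h1.contDiffAt (ho.mem_nhds hx)).congr_of_eventuallyEq (e x hx)
  have il : ∀ x ∈ Ω, lap (Ω.indicator u) x = -f (Ω.indicator u x) := fun x hx => by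
    rw [indicator_of_mem hx, ← h4 x hx, neg_neg, lap, lap, (e x hx).fderiv.fderiv_eq]
  have ib : ∀ x, Ω.indicator u x ≤ |C| := fun x => by
    by_cases hx : x ∈ Ω
    · rw [indicator_of_mem hx]; exact (le_abs_self _).trans ((h3 x hx).trans (le_abs_self _))
    · rw [indicator_of_notMem hx]; exact abs_nonneg _
  refine ⟨ic, fun x hx => indicator_of_notMem hx u, fun x hx => (indicator_of_mem hx u).symm ▸
    h6 x hx, fun x1 => not_lt.1 fun k => ?_, i2, il⟩
  obtain ⟨κ, κ0, hκ⟩ := (isCompact_Icc (a := Ω.indicator u x1) (b := |C|)).exists_forall_le'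
    (f := fun s => -f s) (a := 0) hc.neg.continuousOn fun s hs => neg_pos.2 (hn s (k.trans_le hs.1))
  refine oy isClosed_univ (W := fun x => -1 * Ω.indicator u x) (B := -|C|)
    (continuous_const.mul ic).continuousOn (fun x _ => by linarith [ib x]) (mem_univ x1) κ0
    fun x _ hx => ⟨univ_mem, ?_⟩
  have x0 : x ∈ Ω := by
    by_contra h'
    rw [indicator_of_notMem h'] at hx; linarith
  exact ⟨_, by linarith [hκ _ ⟨by linarith, ib x⟩, il x x0], (Lap.of (i2 x x0)).cmul (-1)⟩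

theorem main {o : Eu ι} (h : ContDiff ℝ 1 f) (f0 : f 0 = 0) (f1 : f 1 = 0)
    (hn : ∀ t, 1 < t → f t < 0) (d1 : deriv f 1 < 0) (hp : ∀ t, 0 < t → t < 1 → 0 < f t)
    (d0 : 0 < deriv f 0) (ho : IsOpen Ω) (hc : IsConnected Ω) (hg : Ωᶜ.Nonempty → ∃ s, Gm Ω s)
    (hs : StarConvex ℝ o Ωᶜ) : (∃ u, IsS Ω f u) ∧
      ∀ u v, IsS Ω f u → IsS Ω f v → ∀ x ∈ closure Ω, u x = v x := by
  obtain ⟨L, hf⟩ := rx_of h f0 f1 d1 hp d0
  have red : (∀ u v, Sol Ω f u → Sol Ω f v → ∀ x, v x ≤ u x) →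
      ∀ u v, IsS Ω f u → IsS Ω f v → ∀ x ∈ closure Ω, u x = v x := fun H u v hu hv x hx => by
    by_cases x0 : x ∈ Ω
    · have a := hu.sol ho h.continuous hn
      have b := hv.sol ho h.continuous hn
      simpa [x0] using le_antisymm (H _ _ b a x) (H _ _ a b x)
    · have : x ∈ frontier Ω := ⟨hx, fun h' => x0 (interior_subset h')⟩
      rw [hu.2.2.2.2.1 x this, hv.2.2.2.2.1 x this]
  rcases Ωᶜ.eq_empty_or_nonempty with e | e
  · obtain rfl := compl_empty_iff.1 e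
    refine ⟨⟨fun _ => 1, contDiffOn_const, continuousOn_const, ⟨1, by simp⟩, by simp [lap, f1],
      by simp, by simp⟩, red fun u v hu hv x => (hv.le x).trans (le_of_forall_pos_le_add
        fun σ σ0 => ?_)⟩
    obtain ⟨R, -, hR⟩ := hair (ι := ι) hf σ0
    linarith [hR _ u hu x (subset_univ _)]
  obtain ⟨s, hG⟩ := hg e
  obtain ⟨u, hu⟩ := exi hf h hG hc hs
  exact ⟨⟨u, fun x hx => (hu.c2 x hx).contDiffWithinAt, hu.c.continuousOn, ⟨1, fun x _ =>
    abs_le.2 ⟨by linarith [(hu.mem x).1], hu.le x⟩⟩, fun x hx => by rw [hu.eq x hx, neg_neg],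
    fun x hx => hu.z x fun h' => hx.2 (ho.interior_eq.symm ▸ h'), hu.pos⟩,
    red fun u v hu hv => slide hf hG hs hu hv⟩

end Pool.Agent.H.MP_0f8a1e_an
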