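import Pool.Agent.H.MP_0f8a1e_an.I

set_option linter.unusedSectionVars false
set_option linter.unusedVariables false
set_option linter.dupNamespace false

namespace Pool.Agent.H.MP_0f8a1e_an

open Filter Topology Set Metric
open scoped Laplacian

lemma extf {f : ℝ → ℝ} (h : ContDiffOn ℝ 1 f (Ici 0)) : ∃ g : ℝ → ℝ, ContDiff ℝ 1 g ∧
    (∀ s, 0 ≤ s → g s = f s) ∧ ∀ s, 0 ≤ s → deriv g s = derivWithin f (Ici 0) s := by
  have c : Continuous fun t => derivWithin f (Ici 0) (max t 0) :=
    (h.continuousOn_derivWithin (uniqueDiffOn_Ici 0) le_rfl).comp_continuous (by fun_prop)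
      fun t => le_max_right t 0
  have d := fun s => (c.integral_hasStrictDerivAt 0 s).hasDerivAt.const_add (f 0)
  refine ⟨_, contDiff_one_iff_deriv.2 ⟨fun s => (d s).differentiableAt,
    c.congr fun s => (d s).deriv.symm⟩, fun s hs => ?_, fun s hs => by
      rw [(d s).deriv, max_eq_left hs]⟩
  exact eq_of_has_deriv_right_eq (fun x _ => (d x).hasDerivWithinAt) (fun x hx => by
    rw [max_eq_left hx.1]
    exact (h.differentiableOn one_ne_zero x hx.1).hasDerivWithinAt.mono (Ici_subset_Ici.2 hx.1))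
    (fun x _ => (d x).continuousAt.continuousWithinAt) (h.continuousOn.mono Icc_subset_Ici_self)
    (by simp) s ⟨hs, le_rfl⟩

lemma lap_Δ {ι : Type} [Fintype ι] [DecidableEq ι] (u : Eu ι → ℝ) (x : Eu ι) : Δ u x = lap u x := by
  simp [InnerProductSpace.laplacian_eq_iteratedFDeriv_orthonormalBasis _
    (EuclideanSpace.basisFun ι ℝ), lap, iteratedFDeriv_two_apply, eb]

end Pool.Agent.H.MP_0f8a1e_an
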